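import Pool.Agent.T2H06.ASM.Adj

/-!
Adjoint divisors and commuting birational self-maps: the assembly of `T2H08.CM.commutingL_abundance`
and `T2H06.ASM.adj_pullR`, and the bound for the rank of the group.
-/

set_option autoImplicit false
set_option linter.overlappingInstances false
set_option linter.unusedSectionVars false
set_option linter.unusedVariables false

open Filter Topology FF Module MvPolynomial Pool.Agent.W602.GT Pool.Agent.W603.LV Pool.Agent.W619.PQ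
open Pool.Agent.Y172 Pool.Agent.Y191 Pool.Agent.R887
open Pool.Agent.T2H06.DYL
open Pool.Agent.T2H06.DYN (DynDegree)

namespace Run7.h334.CommL

section

variable {K : Type} [Field K] [Algebra ℂ K] {N n : ℕ} {y : Fin (N + 1) → K}

/-- the divisor zero is preserved -/
theorem pullLe_zero (hy : NormalModel y) (φ : K →ₐ[ℂ] K) :
    PullLe y (0 : Place ℂ K → ℚ) φ 1 := by
  intro i hi q hq
  refine ⟨1, le_rfl, 1, one_ne_zero, fun Q Q' e l g hQ hlo hl hg => ?_⟩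
  have h1 : Q'.ord g = 0 := unit_of_through hy hg.1 fun P hP ht => by
    have h2 := hg.2 P hP ht
    rw [Pi.zero_apply] at h2
    exact_mod_cast h2
  have h4 : 0 ≤ Q.ord (y i / y l) := (Q.reg_iff (div_ne_zero hi hl.1)).1 (hl.2 i)
  have h5 : (0 : ℚ) ≤ Q.ord (y i / y l) := by exact_mod_cast h4
  rw [hlo.2 g, h1, Q.ord_one]
  simp only [Pi.zero_apply]
  push_cast
  linarith

theorem cartier_zero : Cartier y n (0 : Place ℂ K → ℚ) := fun Q _ =>
  ⟨1, one_ne_zero, fun P _ _ => by rw [P.ord_one]; simp⟩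

theorem divisor_zero : IsDivisor y (0 : Place ℂ K → ℚ) := by
  have h1 : {P | IsPrimeDivisor y P ∧ (0 : Place ℂ K → ℚ) P ≠ 0} = ∅ := by
    ext P
    simp
  unfold IsDivisor
  rw [h1]
  exact Set.finite_empty

/-- the numerical dimension of the divisor zero is not negative -/
theorem not_numLt_zero (hy : NormalModel y) (hn : Algebra.trdeg ℂ K = n) :
    ¬ NumLt y n (0 : Place ℂ K → ℚ) 0 := by
  intro h
  obtain ⟨t, ht, m0, h⟩ := h 0 ⟨fun P _ => le_rfl, divisor_zero⟩ (1 / 2) (by norm_num)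
  obtain ⟨i, hi⟩ := hy.ne
  have hF := Pool.Agent.T2H08.CM.exists_fam0 hy hn hi (1 : K ≃ₐ[ℂ] K)
  have hpos := Pool.Agent.T2H06.DYN.MM_pos hy hn hF
    (s := Pool.Agent.T2H06.DYN.tri 0 0 0 0 0 (n - 0)) (by
      rw [Pool.Agent.T2H06.DYN.tri_card]; omega)
  obtain ⟨⟨u, v, hu, hv, hd⟩, -⟩ :=
    Pool.Agent.T2H06.DYN.isGreatest_iter hn hF (Nat.zero_le n) 0 hpos
  have h1 := h m0 0 le_rfl (by
    push_cast
    positivity) v hv (fun _ => 1) (fun i P hP => Or.inr (by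
      rw [P.ord_one]
      simp)) one_ne_zero
  have e1 : degreeOver v (fun i : Fin 0 => (fun _ : Fin (0 + 1) => (1 : K)) i.succ /
      (fun _ : Fin (0 + 1) => (1 : K)) 0) =
      degreeOver (fun a => ((1 : K ≃ₐ[ℂ] K) ^ 0) (u a)) v := by
    unfold degreeOver
    have e2 : Set.range v ∪ Set.range (fun i : Fin 0 => (fun _ : Fin (0 + 1) => (1 : K)) i.succ /
        (fun _ : Fin (0 + 1) => (1 : K)) 0) =
        Set.range (fun a => ((1 : K ≃ₐ[ℂ] K) ^ 0) (u a)) ∪ Set.range v := by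
      have a1 : ∀ f : Fin 0 → K, Set.range f = ∅ := fun f => Set.range_eq_empty f
      rw [a1 (fun i : Fin 0 => (fun _ : Fin (0 + 1) => (1 : K)) i.succ /
        (fun _ : Fin (0 + 1) => (1 : K)) 0), a1 (fun a => ((1 : K ≃ₐ[ℂ] K) ^ 0) (u a)),
        Set.union_empty, Set.empty_union]
    rw [e2]
  rw [e1, hd] at h1
  have h2 : (1 : ℝ) ≤ (Pool.Agent.T2H06.DYN.MM ((Pool.Agent.T2H06.DYN.tri ((0 : ℕ) : ℤ) 0 0 0 0
      (n - 0)).map (Pool.Agent.T2H06.DYN.AA (1 : K ≃ₐ[ℂ] K)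
        (Pool.Agent.T2H06.DYN.VH y))) : ℕ) := by
    exact_mod_cast hpos
  rw [pow_zero, mul_one] at h1
  exact absurd (h2.trans h1) (by norm_num)

/-- the rank of the group is smaller than the dimension -/
theorem rank_lt {r : ℕ} (hr : 0 < r) {ρ : (Fin r → ℤ) → (K ≃ₐ[ℂ] K)}
    (hρ : ∀ s t, ρ (s + t) = ρ s * ρ t)
    (hy : NormalModel y) (hn : Algebra.trdeg ℂ K = n) (hn0 : 0 < n)
    {ε : ℝ} (hε : 0 < ε)
    (hent : ∀ a : Fin r → ℤ, a ≠ 0 → ∃ p ≤ n, ∃ δ : ℝ, 1 + ε ≤ δ ∧ DynDegree y n (ρ a) p δ) :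
    r < n := by
  by_contra hcon
  obtain ⟨a, ha0, ha⟩ := Pool.Agent.T2H08.CM.commutingL hr hρ hy hn hn0 divisor_zero cartier_zero
    (fun t => pullLe_zero hy _) (Nat.zero_le n) (by omega) (not_numLt_zero hy hn) hε
  obtain ⟨p, hp, δ, hδ, hdyn⟩ := hent a ha0
  have := ha p hp δ hdyn
  linarith

/-- divisors whose class is preserved -/
theorem main {r : ℕ} (hr : 0 < r) {ρ : (Fin r → ℤ) → (K ≃ₐ[ℂ] K)}
    (hρ : ∀ s t, ρ (s + t) = ρ s * ρ t)
    (hy : NormalModel y) (hn : Algebra.trdeg ℂ K = n) (hn0 : 0 < n)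
    {D : Place ℂ K → ℚ} (hD : IsDivisor y D)
    (hcar : Cartier y n D) (hnef : Nef y n D) (hinv : ∀ t, PullLe y D (ρ t : K →ₐ[ℂ] K) 1)
    {ε : ℝ} (hε : 0 < ε)
    (hent : ∀ a : Fin r → ℤ, a ≠ 0 → ∃ p ≤ n, ∃ δ : ℝ, 1 + ε ≤ δ ∧ DynDegree y n (ρ a) p δ) :
    r < n ∧ NumLt y n D (n - r) ∧ ¬ IitakaGe y D (n - r) ∧
      (IitakaGe y D (n - r - 1) → IitakaEq y D (n - r - 1) ∧ NumEq y n D (n - r - 1)) ∧
      (r + 1 = n → ∀ m : ℕ, 1 ≤ m → ∀ g : K, IsSec y (m • D) g → g ≠ 0 →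
        ∀ P, IsPrimeDivisor y P → (P.ord g : ℚ) = -(m * D P)) := by
  have h0 := rank_lt hr hρ hy hn hn0 hε hent
  obtain ⟨h1, h2⟩ := Pool.Agent.T2H08.CM.commutingL_abundance hr hρ hy hn hn0 hD hcar hinv hε hent
  have h3 := h1 (n - r) (by omega) (by omega)
  refine ⟨h0, h3, iitaka_lt hy hn (by omega) h3, fun h => h2 (n - r - 1) (by omega) (by omega) h,
    fun h4 m hm g hg hg0 => ?_⟩
  rw [show n - r = 1 by omega] at h3
  exact nef_trivial hy hn hn0 h3 hnef hm hg hg0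

end

end Run7.h334.CommL
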