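import Pool.Agent.Y216.Mult

/-!
From an inequality for curves in projective space to general type, the finiteness of pointed maps and
the linear bound for the degrees of curves, for all projective varieties with a dominant map to
projective space which is ramified over the given hyperplanes.
-/

set_option autoImplicit false

open FF MvPolynomial Pool.Agent.W603.LV Pool.Agent.W603.PV Pool.Agent.W602.GT
open Pool.Agent.W602.RG Pool.Agent.Y216

namespace Run7.h334.CovHyp

variable {k : Type} [Field k] [IsAlgClosed k] [CharZero k] {n q : ℕ}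

/-- **The main reduction**, with the linear bound for the degrees of the curves. The proof is that of
`Pool.Agent.Y216.main_reduction`. -/
theorem main_reduction3 {a : Fin q → Fin (n + 1) → k} (ha : GenPos a) {m : Fin q → ℕ}
    (hm : ∀ i, 1 ≤ m i) (hsum : (n : ℝ) + 1 < ∑ i, (1 - 1 / (m i : ℝ)))
    {Δ : MvPolynomial (Fin (n + 1)) k} (hΔ : Δ ≠ 0) {d : ℕ} (hd : Δ.IsHomogeneous d) {B : ℕ}
    (hB : CurveIneq a m Δ B) {K : Type} [Field K] [Algebra k K] {N : ℕ} {y : Fin (N + 1) → K}
    (hy : y ≠ 0) (hgen : coords k y = ⊤) (htr : Algebra.trdeg k K = n) {c : Fin (n + 1) → K}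
    (hc0 : c 0 ≠ 0) (hc : AlgebraicIndependent k (fun j : Fin n => c j.succ / c 0))
    (hpow : PowerRatios a m c) : GeneralType k K n ∧ PseudoGeomHyp k y ∧ CurveBound k y := by
  classical
  -- the number of hyperplanes
  have hq : n + 1 < q := by
    have h1 : ∑ i, (1 - 1 / (m i : ℝ)) ≤ ∑ i : Fin q, (1 : ℝ) :=
      Finset.sum_le_sum fun i _ => by
        have : (0 : ℝ) ≤ 1 / (m i : ℝ) := by positivity
        linarith
    rw [Finset.sum_const, Finset.card_univ, Fintype.card_fin, nsmul_eq_mul, mul_one] at h1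
    have h2 : ((n + 1 : ℕ) : ℝ) < (q : ℝ) := by
      push_cast
      linarith
    exact_mod_cast h2
  have hane : ∀ i, a i ≠ 0 := by
    intro i
    obtain ⟨s, hs, hsi⟩ : ∃ s : Fin (n + 1) → Fin q, Function.Injective s ∧ s 0 = i := by
      let e : Fin (n + 1) → Fin q := fun l => ⟨l, by omega⟩
      have he : Function.Injective e := fun x y h => by
        have := congrArg Fin.val h
        exact Fin.ext this
      refine ⟨Equiv.swap (e 0) i ∘ e, (Equiv.injective _).comp he, ?_⟩
      simp
    have := (ha s hs).ne_zero 0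
    simpa [hsi] using this
  have hlne : ∀ i, lv (a i) c ≠ 0 := fun i => lv_form_ne hc0 hc (hane i)
  have hbasis : IsTranscendenceBasis k (fun j : Fin n => c j.succ / c 0) := by
    refine hc.isTranscendenceBasis_of_lift_trdeg_le_of_finite ?_
    rw [htr]
    simp
  have hcne : ∃ j, c j ≠ 0 := ⟨0, hc0⟩
  refine ⟨gt_main ha hm hsum htr hc0 hbasis fun P _ i hi => mult_of_powers ha hcne hlne hpow P i hi,
    ?_⟩
  suffices hCB : CurveBound k y from ⟨pointed_of_bound hCB, hCB⟩
  -- the functions
  have hΔc := aeval_form_ne hc0 hc hΔ hd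
  choose S hS1 hS2 hS3 using hpow
  choose z hz using hS3
  let ι : Type := Fin (n + 1) ⊕ ((Σ i : Fin q, {j // j ∈ S i}) ⊕ (Unit ⊕ (Unit ⊕ Fin q)))
  let T : ι → K := Sum.elim c (Sum.elim (fun p => z p.1 p.2.1 p.2.2)
    (Sum.elim (fun _ => (c 0)⁻¹) (Sum.elim (fun _ => (aeval c Δ)⁻¹) fun i => (lv (a i) c)⁻¹)))
  refine curveBound_of hy hgen T (fun j => Sum.inl j) hc0 (fun η => ?_) B
    fun L _ _ _ τ hτ => ?_
  · have h1 := hbasis.isAlgebraic_field
    have h2 : IntermediateField.adjoin k (Set.range fun j : Fin n => c j.succ / c 0) ≤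
        IntermediateField.adjoin k (Set.range fun j : Fin (n + 1) => T (Sum.inl j) / T (Sum.inl 0)) := by
      apply IntermediateField.adjoin.mono
      rintro _ ⟨j, rfl⟩
      exact ⟨j.succ, rfl⟩
    have h3 : IsAlgebraic (IntermediateField.adjoin k (Set.range fun j : Fin n => c j.succ / c 0)) η :=
      h1.isAlgebraic η
    letI := (IntermediateField.inclusion h2).toAlgebra
    haveI : IsScalarTower (IntermediateField.adjoin k (Set.range fun j : Fin n => c j.succ / c 0))
        (IntermediateField.adjoin k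
          (Set.range fun j : Fin (n + 1) => T (Sum.inl j) / T (Sum.inl 0))) K :=
      IsScalarTower.of_algebraMap_eq fun _ => rfl
    exact h3.tower_top _
  · obtain ⟨f, hf⟩ : ∃ f : Fin (n + 1) → L, f = fun j => τ (Sum.inl j) := ⟨_, rfl⟩
    -- the values of polynomials
    have hcp : ∀ F : MvPolynomial (Fin (n + 1)) k, aeval T (rename Sum.inl F) = aeval c F := by
      intro F
      rw [aeval_rename]
      rfl
    have hfp : ∀ F : MvPolynomial (Fin (n + 1)) k, aeval τ (rename Sum.inl F) = aeval f F := by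
      intro F
      rw [aeval_rename, hf]
      rfl
    have hlp : ∀ {M : Type} [Field M] [Algebra k M] (b : Fin (n + 1) → k) (x : Fin (n + 1) → M),
        aeval x (∑ j, C (b j) * X j : MvPolynomial (Fin (n + 1)) k) = lv b x := by
      intro M _ _ b x
      rw [map_sum]
      exact Finset.sum_congr rfl fun j _ => by rw [map_mul, aeval_C, aeval_X]
    have hf0 : f 0 ≠ 0 := by
      have h1 := hτ (X (Sum.inl 0) * X (Sum.inr (Sum.inr (Sum.inl ()))) - 1) (by
        rw [map_sub, map_mul, aeval_X, aeval_X, map_one]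
        change c 0 * (c 0)⁻¹ - 1 = 0
        rw [mul_inv_cancel₀ hc0, sub_self])
      rw [map_sub, map_mul, aeval_X, aeval_X, map_one] at h1
      rw [hf]
      exact left_ne_zero_of_mul_eq_one (sub_eq_zero.1 h1)
    have hfΔ : aeval f Δ ≠ 0 := by
      have h1 := hτ (rename Sum.inl Δ * X (Sum.inr (Sum.inr (Sum.inr (Sum.inl ())))) - 1) (by
        rw [map_sub, map_mul, hcp, aeval_X, map_one]
        change aeval c Δ * (aeval c Δ)⁻¹ - 1 = 0
        rw [mul_inv_cancel₀ hΔc, sub_self])
      rw [map_sub, map_mul, hfp, aeval_X, map_one] at h1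
      exact left_ne_zero_of_mul_eq_one (sub_eq_zero.1 h1)
    have hfl : ∀ i, lv (a i) f ≠ 0 := by
      intro i
      have h1 := hτ (rename Sum.inl (∑ j, C (a i j) * X j) *
        X (Sum.inr (Sum.inr (Sum.inr (Sum.inr i)))) - 1) (by
        rw [map_sub, map_mul, hcp, hlp, aeval_X, map_one]
        change lv (a i) c * (lv (a i) c)⁻¹ - 1 = 0
        rw [mul_inv_cancel₀ (hlne i), sub_self])
      rw [map_sub, map_mul, hfp, hlp, aeval_X, map_one] at h1
      exact left_ne_zero_of_mul_eq_one (sub_eq_zero.1 h1)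
    have hfpow : PowerRatios a m f := by
      intro i
      refine ⟨S i, hS1 i, hS2 i, fun j hj => ⟨τ (Sum.inr (Sum.inl ⟨i, ⟨j, hj⟩⟩)), ?_⟩⟩
      have h1 := hτ (rename Sum.inl (∑ l, C (a i l) * X l) -
        X (Sum.inr (Sum.inl ⟨i, ⟨j, hj⟩⟩)) ^ m i * rename Sum.inl (∑ l, C (a j l) * X l)) (by
        rw [map_sub, map_mul, map_pow, hcp, hcp, hlp, hlp, aeval_X]
        change lv (a i) c - z i j hj ^ m i * lv (a j) c = 0
        rw [lv_def, lv_def, ← hz i j hj, sub_self])
      rw [map_sub, map_mul, map_pow, hfp, hfp, hlp, hlp, aeval_X] at h1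
      exact sub_eq_zero.1 h1
    have hfne : ∃ j, f j ≠ 0 := ⟨0, hf0⟩
    have h1 := hB L f hfne hfl hfΔ fun P i hi => mult_of_powers ha hfne hfl hfpow P i hi
    rw [hf] at h1
    exact h1

end Run7.h334.CovHyp
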