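import Pool.Agent.Run7.h334.Trans4

/-!
# The base points: comparison of classes
-/

namespace Run7.h334

open Polynomial Matrix IntermediateField Filter Topology

section

variable {k : Type*} [NontriviallyNormedField k] [CharZero k] [IsUltrametricDist k]
  {Ω : Type*} [NormedField Ω]
  [NormedAlgebra k Ω] [IsUltrametricDist Ω] [IsAlgClosed Ω] [Algebra.IsAlgebraic k Ω]
  {ι : Type*} {a : ι → Fin 3 → ℕ} {e : ι → ℕ}

/-- base points over which all the conics have a rational point -/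
def BPt (c : k) (C : Coeffs k ι a e) : Type _ :=
  {x : Fin 2 → k // x ≠ 0 ∧ ∀ l, Iso (N c C l x)}

/-- classes of base points -/
def BCl (c : k) (C : Coeffs k ι a e) : Type _ :=
  Quot fun x y : BPt c C => BL c C x.1 y.1

theorem BL.smul_right {c : k} {C : Coeffs k ι a e} {x y : Fin 2 → k} {r : k} (hr : r ≠ 0)
    (h : BL c C x y) : BL c C x (fun i => r * y i) := by
  obtain ⟨Φ, s, s', t, t', ht, ht', h1, h2, h3⟩ := h
  refine ⟨Φ, s, s', t, t' / r, ht, div_ne_zero ht' hr, h1, ?_, h3⟩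
  intro i
  rw [h2 i]
  field_simp

variable {c : k} {C₀ : Coeffs k ι a e} {Z : ι → Finset Ω} {Y : Finset Ω}
    {jj : ι → Ω → Fin 3} {θ : Ω} {S : k[X]} {cS δ Rad η κ : ℝ}
    {U : Set (Coeffs k ι a e)}

/-- the comparison map on base points -/
theorem Ctx.map_mem (hiso : ∀ (σ : Ω ≃ₐ[k] Ω) (x : Ω), ‖σ x‖ = ‖x‖)
    (H : Ctx c C₀ Z Y jj θ S cS δ Rad η κ U)
    {ε : ℝ} {C₁ C₂ : Coeffs k ι a e} {ρ₁ ρ₂ : Ω → Ω}
    (h₁ : Near c C₀ Z jj ε C₁ ρ₁) (h₂ : Near c C₀ Z jj ε C₂ ρ₂) (hC₁ : C₁ ∈ U) (hC₂ : C₂ ∈ U)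
    {A : k[X]} (hA : Adm S A (κ * cS) Y ρ₁ ρ₂) {x : Fin 2 → k} (hx : x ≠ 0)
    (hI : ∀ l, Iso (N c C₁ l x)) :
    Tm S A x ≠ 0 ∧ ∀ l, Iso (N c C₂ l (Tm S A x)) := by
  refine ⟨Tm_ne (k := k) hx (H.S_ne hx), ?_⟩
  intro l
  obtain ⟨y, hy1, hy2⟩ := H.rel hA hx
  rw [hy2, iso_smul c C₂ l (H.S_ne hx)]
  exact H.iso_rel hiso h₁ h₂ hC₁ hC₂ hx hy1 H.κ_η H.κ_four (hI l)

theorem Ctx.closing' (hiso : ∀ (σ : Ω ≃ₐ[k] Ω) (x : Ω), ‖σ x‖ = ‖x‖)
    (H : Ctx c C₀ Z Y jj θ S cS δ Rad η κ U)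
    {ε : ℝ} {C₁ : Coeffs k ι a e} {ρ₁ ρ₂ : Ω → Ω}
    (h₁ : Near c C₀ Z jj ε C₁ ρ₁) (hC₁ : C₁ ∈ U)
    {A A' : k[X]} (hA : Adm S A (κ * cS) Y ρ₁ ρ₂) (hA' : Adm S A' (κ * cS) Y ρ₂ ρ₁)
    {x : Fin 2 → k} (hx : x ≠ 0)
    (hI : ∀ l, Iso (N c C₁ l x)) : BL c C₁ x (Tm S A' (Tm S A x)) := by
  have h41 : ‖(4 : Ω)‖ ≤ 1 := norm_four_le
  have hκ1 : κ < 1 := lt_of_lt_of_le H.κ_four h41
  obtain ⟨y, hy1, hy2⟩ := H.rel hA hx
  have hy0 : y ≠ 0 := by
    rintro rfl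
    have h1 := hy1.dist
    rw [zero_sub, norm_neg] at h1
    have := norm_pos_iff.mpr hx
    nlinarith
  obtain ⟨z, hz1, hz2⟩ := H.rel hA' hy0
  have hxz := hy1.trans hz1 H.κ_pos hκ1
  have hL := H.closing hiso h₁ hC₁ hx hxz hI
  rw [hy2, Tm_smul, hz2]
  have := hL.smul_right (r := hom S.natDegree S x ^ (S.natDegree + 1) * hom S.natDegree S y)
    (mul_ne_zero (pow_ne_zero _ (H.S_ne hx)) (H.S_ne hy0))
  have e1 : (fun i => hom S.natDegree S x ^ (S.natDegree + 1) *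
      (fun i => hom S.natDegree S y * z i) i) =
      fun i => hom S.natDegree S x ^ (S.natDegree + 1) * hom S.natDegree S y * z i := by
    funext i; ring
  rw [e1]
  exact this

theorem Ctx.equiv (hiso : ∀ (σ : Ω ≃ₐ[k] Ω) (x : Ω), ‖σ x‖ = ‖x‖)
    (H : Ctx c C₀ Z Y jj θ S cS δ Rad η κ U)
    {ε : ℝ} (hε0 : 0 < ε) (hε : ε ≤ δ) (hεK : ε * KK Ω Rad δ S Y.card ≤ κ * cS)
    {C₁ C₂ : Coeffs k ι a e} {ρ₁ ρ₂ : Ω → Ω}
    (h₁ : Near c C₀ Z jj ε C₁ ρ₁) (h₂ : Near c C₀ Z jj ε C₂ ρ₂) (hC₁ : C₁ ∈ U) (hC₂ : C₂ ∈ U) :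
    Nonempty (BCl c C₁ ≃ BCl c C₂) := by
  obtain ⟨A, hA⟩ := exists_A H h₁ h₂ hε0 hε hεK
  obtain ⟨A', hA'⟩ := exists_A H h₂ h₁ hε0 hε hεK
  let f : BPt c C₁ → BPt c C₂ := fun x =>
    ⟨Tm S A x.1, H.map_mem hiso h₁ h₂ hC₁ hC₂ hA x.2.1 x.2.2⟩
  let g : BPt c C₂ → BPt c C₁ := fun x =>
    ⟨Tm S A' x.1, H.map_mem hiso h₂ h₁ hC₂ hC₁ hA' x.2.1 x.2.2⟩
  let F : BCl c C₁ → BCl c C₂ := Quot.map f fun x y hxy =>
    H.transfer hiso hε h₁ h₂ hC₁ hC₂ hA x.2.1 hxy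
  let G : BCl c C₂ → BCl c C₁ := Quot.map g fun x y hxy =>
    H.transfer hiso hε h₂ h₁ hC₂ hC₁ hA' x.2.1 hxy
  refine ⟨⟨F, G, ?_, ?_⟩⟩
  · intro q
    induction q using Quot.ind with
    | mk x =>
      refine (Quot.sound ?_).symm
      exact H.closing' hiso h₁ hC₁ hA hA' x.2.1 x.2.2
  · intro q
    induction q using Quot.ind with
    | mk x =>
      refine (Quot.sound ?_).symm
      exact H.closing' hiso h₂ hC₂ hA' hA x.2.1 x.2.2

/-- The comparison theorem in the coordinates `c`. -/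
theorem base_theorem [Fintype ι] [ProperSpace k]
    (hiso : ∀ (σ : Ω ≃ₐ[k] Ω) (x : Ω), ‖σ x‖ = ‖x‖)
    (c : k) (C₀ : Coeffs k ι a e) (Z : ι → Finset Ω)
    (h1 : ∀ l, lead c C₀ l ≠ 0)
    (h2 : ∀ l, ∀ t, t ∈ Z l ↔ aeval t (dsc c C₀ l) = 0) (h2' : ∀ l, (Z l).card = rr a e l)
    (h3 : ∀ l l', l ≠ l' → Disjoint (Z l) (Z l'))
    (h4 : ∀ l, ∀ x : Fin 2 → Ω, x ≠ 0 → (N c C₀ l x).adjugate ≠ 0) :
    ∀ᶠ C in 𝓝 C₀, Nonempty (BCl c C₀ ≃ BCl c C) := by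
  classical
  have : CharZero Ω := charZero_of_injective_algebraMap (algebraMap k Ω).injective
  -- diagonal entries of the adjugate
  have hjj : ∀ l, ∀ t : Ω, t ∈ Z l → ∃ j, (N c C₀ l (![t, 1] : Fin 2 → Ω)).adjugate j j ≠ 0 := by
    intro l t ht
    by_contra hcon
    push Not at hcon
    have hne : (![t, 1] : Fin 2 → Ω) ≠ 0 := by
      intro h0
      have := congrFun h0 1
      simp at this
    apply h4 l _ hne
    have hD : (N c C₀ l (![t, 1] : Fin 2 → Ω)).det = 0 := by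
      rw [← aeval_dsc]; exact (h2 l t).mp ht
    ext i j
    have hr := adj_rank_one _ (N_isSymm c C₀ l (![t, 1] : Fin 2 → Ω)) hD
      (Pi.single i 1) (Pi.single j 1)
    simp only [Matrix.mulVec_single_one, single_one_dotProduct, Matrix.col_apply] at hr
    rw [hcon i, zero_mul] at hr
    simpa using hr.symm
  choose! jj hjj using hjj
  have hsqrt : ∀ l, ∀ t : Ω, ∃ r : Ω,
      r ^ 2 = -(N c C₀ l ![t, 1]).adjugate (jj l t) (jj l t) := fun l t =>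
    IsAlgClosed.exists_pow_nat_eq _ (by norm_num)
  choose sr hsr using hsqrt
  let Y : Finset Ω := Finset.univ.biUnion Z
  obtain ⟨θ, S, cS, hcS0, -, hSm, hScard, hSdeg, hθG, hθn, hpole⟩ := exists_poles (k := k) hiso
    (Finset.univ.biUnion fun l => (Z l).image (sr l)) Y.card
  obtain ⟨δ, hδ0, hδ1, hδ⟩ := exists_sep Y
  obtain ⟨Rad, hRad1, hRad⟩ := exists_bound Y
  obtain ⟨η, hη0, U, hU, hunif⟩ := exists_unif c C₀ (by
    intro l x hx h0
    have hx' : (fun i => algebraMap k Ω (x i)) ≠ 0 := by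
      intro h
      apply hx
      funext i
      have := congrFun h i
      simpa using this
    apply h4 l _ hx'
    rw [← adj_algebraMap, h0]
    ext i j; simp)
  have hn4 : 0 < ‖(4 : Ω)‖ := by rw [norm_pos_iff]; norm_num
  -- choice of `κ`
  obtain ⟨κ, hκ0, hκη, hκ4, hκη', hκ4'⟩ : ∃ κ : ℝ, 0 < κ ∧ κ < η ∧ κ < ‖(4 : Ω)‖ ∧
      κ * (‖S.eval 1‖ / cS) < η ∧ κ * (‖S.eval 1‖ / cS) < ‖(4 : Ω)‖ := by
    let m := min η ‖(4 : Ω)‖
    have hm : 0 < m := lt_min hη0 hn4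
    let q := ‖S.eval 1‖ / cS
    have hq : 0 ≤ q := by positivity
    refine ⟨m / (2 * (1 + q)), by positivity, ?_, ?_, ?_, ?_⟩
    · have : m / (2 * (1 + q)) < m := by
        rw [div_lt_iff₀ (by positivity)]; nlinarith
      exact this.trans_le (min_le_left _ _)
    · have : m / (2 * (1 + q)) < m := by
        rw [div_lt_iff₀ (by positivity)]; nlinarith
      exact this.trans_le (min_le_right _ _)
    · have : m / (2 * (1 + q)) * q < m := by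
        rw [div_mul_eq_mul_div, div_lt_iff₀ (by positivity)]; nlinarith
      exact this.trans_le (min_le_left _ _)
    · have : m / (2 * (1 + q)) * q < m := by
        rw [div_mul_eq_mul_div, div_lt_iff₀ (by positivity)]; nlinarith
      exact this.trans_le (min_le_right _ _)
  have H : Ctx c C₀ Z Y jj θ S cS δ Rad η κ U :=
    { mem_Y := by
        intro t
        simp [Y]
      cS_pos := hcS0
      monic := hSm
      card_le := hScard
      deg_pos := hSdeg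
      θ_not := hθn
      sq := by
        intro l t ht
        refine ⟨sr l t, hθG _ ?_, hsr l t⟩
        exact Finset.mem_biUnion.mpr ⟨l, Finset.mem_univ l, Finset.mem_image.mpr ⟨t, ht, rfl⟩⟩
      pole := hpole
      δ_pos := hδ0
      δ_le := hδ1
      sep := hδ
      Rad_ge := hRad1
      rad := hRad
      η_pos := hη0
      unif := hunif
      κ_pos := hκ0
      κ_η := hκη
      κ_four := hκ4
      κ_η' := hκη'
      κ_four' := hκ4' }
  -- choice of `ε`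
  obtain ⟨ε, hε0, hεδ, hεK⟩ : ∃ ε : ℝ, 0 < ε ∧ ε ≤ δ ∧ ε * KK Ω Rad δ S Y.card ≤ κ * cS := by
    have hK : 0 ≤ KK Ω Rad δ S Y.card := by
      unfold KK
      have := gn_nonneg hRad1 (S.map (algebraMap k Ω))
      positivity
    refine ⟨min δ (κ * cS / (1 + KK Ω Rad δ S Y.card)), by positivity, min_le_left _ _, ?_⟩
    calc min δ (κ * cS / (1 + KK Ω Rad δ S Y.card)) * KK Ω Rad δ S Y.card
        ≤ κ * cS / (1 + KK Ω Rad δ S Y.card) * KK Ω Rad δ S Y.card := by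
          gcongr; exact min_le_right _ _
      _ ≤ κ * cS := by
          rw [div_mul_eq_mul_div, div_le_iff₀ (by positivity)]
          have : 0 < κ * cS := by positivity
          nlinarith
  have hnear := exists_near (e := e) hiso c C₀ Z jj h1 h2 h2' h3 hjj hε0
  obtain ⟨ρ₀, hρ₀⟩ := hnear.self_of_nhds
  filter_upwards [hnear, hU] with C hC hCU
  obtain ⟨ρ, hρ⟩ := hC
  exact H.equiv hiso hε0 hεδ hεK hρ₀ hρ (mem_of_mem_nhds hU) hCU

end

end Run7.h334
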