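import Pool.Agent.Run7.h334.Smooth

/-!
# Smoothness implies that the discriminants are separable and disjoint
-/

namespace Run7.h334

open Polynomial Matrix TrivSqZeroExt

section Alg

variable {Ω : Type*} [Field Ω] [IsAlgClosed Ω] [CharZero Ω]

theorem exists_binary_zero (p q r : Ω) : ∃ α β : Ω, ¬ (α = 0 ∧ β = 0) ∧
    p * α ^ 2 + q * α * β + r * β ^ 2 = 0 := by
  by_cases hp : p = 0
  · exact ⟨1, 0, by simp, by rw [hp]; ring⟩
  · obtain ⟨s, hs⟩ := IsAlgClosed.exists_pow_nat_eq (q ^ 2 - 4 * p * r) (n := 2) (by norm_num)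
    refine ⟨-q + s, 2 * p, ?_, ?_⟩
    · rintro ⟨-, h⟩
      exact mul_ne_zero two_ne_zero hp h
    · linear_combination p * hs

theorem exists_iso_vec (M : Matrix (Fin 3) (Fin 3) Ω) : ∃ z : Fin 3 → Ω, z ≠ 0 ∧
    z ⬝ᵥ M *ᵥ z = 0 := by
  obtain ⟨α, β, h0, h⟩ := exists_binary_zero (M 0 0) (M 0 1 + M 1 0) (M 1 1)
  refine ⟨![α, β, 0], ?_, ?_⟩
  · intro h1
    exact h0 ⟨congrFun h1 0, congrFun h1 1⟩
  · simp only [dotProduct, mulVec, Fin.sum_univ_three, Matrix.cons_val_zero, Matrix.cons_val_one,
      Matrix.cons_val]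
    linear_combination h

/-- if the adjugate vanishes, the kernel contains a plane -/
theorem exists_plane (M : Matrix (Fin 3) (Fin 3) Ω) (hM : M.IsSymm) (hadj : M.adjugate = 0) :
    ∃ m : Fin 3 → Ω, m ≠ 0 ∧ ∀ n : Fin 3 → Ω, m 0 * n 0 + m 1 * n 1 + m 2 * n 2 = 0 →
      M *ᵥ n = 0 := by
  by_cases hM0 : M = 0
  · exact ⟨![1, 0, 0], fun h => one_ne_zero (congrFun h 0), fun n _ => by rw [hM0]; simp⟩
  have h10 : M 1 0 = M 0 1 := hM.apply 0 1
  have h20 : M 2 0 = M 0 2 := hM.apply 0 2
  have h21 : M 2 1 = M 1 2 := hM.apply 1 2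
  have key : ∀ i j, M.adjugate i j = 0 := fun i j => by rw [hadj]; rfl
  have k00 := key 0 0
  have k01 := key 0 1
  have k02 := key 0 2
  have k11 := key 1 1
  have k12 := key 1 2
  have k22 := key 2 2
  rw [adjugate_fin_three] at k00 k01 k02 k11 k12 k22
  simp only [Matrix.of_apply, Matrix.cons_val_zero, Matrix.cons_val_one, Matrix.cons_val,
    Matrix.cons_val', Matrix.empty_val', Matrix.cons_val_fin_one, h10, h20, h21]
    at k00 k01 k02 k11 k12 k22
  -- all `2 × 2` minors vanish
  have hmin : ∀ i j r s, M i j * M r s = M r j * M i s := by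
    intro i j r s
    fin_cases i <;> fin_cases j <;> fin_cases r <;> fin_cases s <;>
      simp only [Fin.zero_eta, Fin.mk_one, Fin.reduceFinMk, h10, h20, h21] <;>
      first
        | ring1
        | linear_combination k00
        | linear_combination -k00
        | linear_combination k01
        | linear_combination -k01
        | linear_combination k02
        | linear_combination -k02
        | linear_combination k11
        | linear_combination -k11
        | linear_combination k12
        | linear_combination -k12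
        | linear_combination k22
        | linear_combination -k22
  obtain ⟨i, j, hij⟩ : ∃ i j, M i j ≠ 0 := by
    by_contra hcon
    push Not at hcon
    apply hM0
    ext i j
    exact hcon i j
  refine ⟨fun s => M i s, ?_, ?_⟩
  · intro h
    exact hij (congrFun h j)
  · intro n hn
    funext r
    have h1 : M i j * (M r 0 * n 0 + M r 1 * n 1 + M r 2 * n 2) = 0 := by
      have e0 := hmin i j r 0
      have e1 := hmin i j r 1
      have e2 := hmin i j r 2
      linear_combination n 0 * e0 + n 1 * e1 + n 2 * e2 + M r j * hn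
    have h2 := (mul_eq_zero.mp h1).resolve_left hij
    simpa [mulVec, dotProduct, Fin.sum_univ_three] using h2

/-- a plane contains a zero of any quadratic form -/
theorem exists_zero_in_plane (A : Matrix (Fin 3) (Fin 3) Ω) (m : Fin 3 → Ω) (hm : m ≠ 0) :
    ∃ n : Fin 3 → Ω, n ≠ 0 ∧ m 0 * n 0 + m 1 * n 1 + m 2 * n 2 = 0 ∧ n ⬝ᵥ A *ᵥ n = 0 := by
  have key : ∀ u v : Fin 3 → Ω, (∀ α β : Ω, (fun i => α * u i + β * v i) = 0 → α = 0 ∧ β = 0) →
      m 0 * u 0 + m 1 * u 1 + m 2 * u 2 = 0 → m 0 * v 0 + m 1 * v 1 + m 2 * v 2 = 0 →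
      ∃ n : Fin 3 → Ω, n ≠ 0 ∧ m 0 * n 0 + m 1 * n 1 + m 2 * n 2 = 0 ∧ n ⬝ᵥ A *ᵥ n = 0 := by
    intro u v hind hu hv
    obtain ⟨α, β, h0, h⟩ := exists_binary_zero (u ⬝ᵥ A *ᵥ u) (u ⬝ᵥ A *ᵥ v + v ⬝ᵥ A *ᵥ u)
      (v ⬝ᵥ A *ᵥ v)
    refine ⟨fun i => α * u i + β * v i, ?_, ?_, ?_⟩
    · intro h1
      exact h0 (hind α β h1)
    · linear_combination α * hu + β * hv
    · simp only [dotProduct, mulVec, Fin.sum_univ_three] at h ⊢
      linear_combination h
  obtain ⟨i, hi⟩ := Function.ne_iff.mp hm
  fin_cases i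
  · have hi' : m 0 ≠ 0 := hi
    refine key ![-m 1, m 0, 0] ![-m 2, 0, m 0] ?_ ?_ ?_
    · intro α β h
      have h1 := congrFun h 1
      have h2 := congrFun h 2
      simp at h1 h2
      exact ⟨h1.resolve_right hi', h2.resolve_right hi'⟩
    · simp; ring
    · simp; ring
  · have hi' : m 1 ≠ 0 := hi
    refine key ![m 1, -m 0, 0] ![0, -m 2, m 1] ?_ ?_ ?_
    · intro α β h
      have h1 := congrFun h 0
      have h2 := congrFun h 2
      simp at h1 h2
      exact ⟨h1.resolve_right hi', h2.resolve_right hi'⟩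
    · simp; ring
    · simp; ring
  · have hi' : m 2 ≠ 0 := hi
    refine key ![m 2, 0, -m 0] ![0, m 2, -m 1] ?_ ?_ ?_
    · intro α β h
      have h1 := congrFun h 0
      have h2 := congrFun h 1
      simp at h1 h2
      exact ⟨h1.resolve_right hi', h2.resolve_right hi'⟩
    · simp; ring
    · simp; ring

end Alg

section Good

variable {k : Type*} [Field k] {ι : Type*} {a : ι → Fin 3 → ℕ} {e : ι → ℕ}
  {Ω : Type*} [Field Ω] [Algebra k Ω]

/-- the fibres have at most one singular point and the discriminants are separable and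
pairwise coprime -/
structure Good (Ω : Type*) [Field Ω] [Algebra k Ω] (C : Coeffs k ι a e) : Prop where
  adj : ∀ l (x : Fin 2 → Ω), x ≠ 0 → (Mat C l x).adjugate ≠ 0
  simple : ∀ l (x : Fin 2 → Ω), x ≠ 0 → (Mat C l x).det = 0 →
    ∃ ξ : Fin 2 → Ω, snd (Mat C l (dp x ξ)).det ≠ 0
  disj : ∀ l l', l ≠ l' → ∀ x : Fin 2 → Ω, x ≠ 0 → (Mat C l x).det = 0 → (Mat C l' x).det ≠ 0

theorem exists_adj_diag {F : Type*} [Field F] (M : Matrix (Fin 3) (Fin 3) F) (hM : M.IsSymm)
    (hD : M.det = 0) (hadj : M.adjugate ≠ 0) : ∃ j, M.adjugate j j ≠ 0 := by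
  by_contra hcon
  push Not at hcon
  apply hadj
  ext i j
  have hr := adj_rank_one _ hM hD (Pi.single i 1) (Pi.single j 1)
  simp only [Matrix.mulVec_single_one, single_one_dotProduct, Matrix.col_apply] at hr
  rw [hcon i, zero_mul] at hr
  simpa using hr.symm

theorem adj_polar {F : Type*} [Field F] [CharZero F] (M : Matrix (Fin 3) (Fin 3) F)
    (hM : M.IsSymm) (hD : M.det = 0) (i j r : Fin 3) :
    M.adjugate i j * M.adjugate r j = M.adjugate i r * M.adjugate j j := by
  have hs : ∀ i j, M.adjugate i j = M.adjugate j i := by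
    intro i j
    have := Matrix.adjugate_transpose M
    rw [hM.eq] at this
    exact congrFun (congrFun this j) i
  have h1 := adj_rank_one _ hM hD (Pi.single i 1 + Pi.single r 1) (Pi.single j 1)
  have h2 := adj_rank_one _ hM hD (Pi.single i 1) (Pi.single j 1)
  have h3 := adj_rank_one _ hM hD (Pi.single r 1) (Pi.single j 1)
  simp only [Matrix.mulVec_add, add_dotProduct, dotProduct_add, Matrix.mulVec_single_one,
    single_one_dotProduct, Matrix.col_apply] at h1 h2 h3
  rw [hs r i] at h1
  have : 2 * (M.adjugate i j * M.adjugate r j) = 2 * (M.adjugate i r * M.adjugate j j) := by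
    linear_combination -h1 + h2 + h3
  exact mul_left_cancel₀ two_ne_zero this

variable [IsAlgClosed Ω] [CharZero Ω]

theorem good_of_smooth {C : Coeffs k ι a e} (hC : SmoothOver Ω C) : Good Ω C := by
  classical
  -- points with prescribed components
  have hpt : ∀ (x : Fin 2 → Ω) (w : ι → Fin 3 → Ω) (T : Set ι),
      (∀ l ∈ T, w l ≠ 0 ∧ Mat C l x *ᵥ w l = 0) → ∃ z : ι → Fin 3 → Ω, (∀ l ∈ T, z l = w l) ∧
        (∀ l, z l ≠ 0) ∧ ∀ l, qform C l x (z l) = 0 := by
    intro x w T hT
    choose z0 hz0 hz0' using fun l => exists_iso_vec (Mat C l x)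
    refine ⟨fun l => if l ∈ T then w l else z0 l, ?_, ?_, ?_⟩
    · intro l hl; simp [hl]
    · intro l
      by_cases hl : l ∈ T
      · simp only [hl, if_true]; exact (hT l hl).1
      · simp only [hl, if_false]; exact hz0 l
    · intro l
      have h2 : (2 : Ω) * qform C l x (if l ∈ T then w l else z0 l) = 0 := by
        rw [qform_eq]
        by_cases hl : l ∈ T
        · simp only [hl, if_true, (hT l hl).2]; simp
        · simp only [hl, if_false]; exact hz0' l
      exact (mul_eq_zero.mp h2).resolve_left two_ne_zero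
  -- the row of a kernel vector is nonzero
  have hrow : ∀ (x : Fin 2 → Ω), x ≠ 0 → ∀ l (n : Fin 3 → Ω), n ≠ 0 → Mat C l x *ᵥ n = 0 →
      ¬ (n ⬝ᵥ MA C l x *ᵥ n = 0 ∧ n ⬝ᵥ MB C l x *ᵥ n = 0) := by
    rintro x hx l n hn0 hn ⟨hA, hB⟩
    obtain ⟨z, hz1, hz2, hz3⟩ := hpt x (fun _ => n) {l} (by
      intro l' hl'
      rw [Set.mem_singleton_iff] at hl'
      subst hl'
      exact ⟨hn0, hn⟩)
    obtain ⟨v, hv⟩ := hC x z hx hz2 hz3 (fun _ => 1)
    have hzl : z l = n := hz1 l rfl
    have h1 := two_jac_ker C x z v l (by rw [hzl]; exact hn)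
    rw [hv, hzl, hA, hB] at h1
    simp at h1
  have hadj : ∀ l (x : Fin 2 → Ω), x ≠ 0 → (Mat C l x).adjugate ≠ 0 := by
    intro l x hx h0
    obtain ⟨m, hm0, hm⟩ := exists_plane _ (Mat_isSymm C l x) h0
    by_cases hx1 : x 1 = 0
    · have hx0 : x 0 ≠ 0 := by
        intro h; apply hx; funext i; fin_cases i
        · simpa using h
        · simpa using hx1
      obtain ⟨n, hn0, hn1, hn2⟩ := exists_zero_in_plane (MB C l x) m hm0
      have hker := hm n hn1
      have he := euler_ker C l x hker
      rw [hn2, mul_zero, add_zero] at he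
      exact hrow x hx l n hn0 hker ⟨(mul_eq_zero.mp he).resolve_left hx0, hn2⟩
    · obtain ⟨n, hn0, hn1, hn2⟩ := exists_zero_in_plane (MA C l x) m hm0
      have hker := hm n hn1
      have he := euler_ker C l x hker
      rw [hn2, mul_zero, zero_add] at he
      exact hrow x hx l n hn0 hker ⟨hn2, (mul_eq_zero.mp he).resolve_left hx1⟩
  refine ⟨hadj, ?_, ?_⟩
  · intro l x hx hD
    obtain ⟨j, hj⟩ := exists_adj_diag _ (Mat_isSymm C l x) hD (hadj l x hx)
    set M := Mat C l x with hM
    have hMs : M.IsSymm := Mat_isSymm C l x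
    let n : Fin 3 → Ω := fun i => M.adjugate i j
    have hn0 : n ≠ 0 := fun h => hj (congrFun h j)
    have hker : M *ᵥ n = 0 := by
      funext i
      have := congrFun (congrFun (Matrix.mul_adjugate M) i) j
      rw [hD, zero_smul] at this
      exact this
    have hnn : ∀ A : Matrix (Fin 3) (Fin 3) Ω, n ⬝ᵥ A *ᵥ n =
        M.adjugate j j * ∑ i, ∑ r, M.adjugate i r * A i r := by
      intro A
      have hp : ∀ i r, n i * n r = M.adjugate i r * M.adjugate j j := fun i r =>
        adj_polar M hMs hD i j r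
      simp only [dotProduct, mulVec, Finset.mul_sum]
      refine Finset.sum_congr rfl fun i _ => Finset.sum_congr rfl fun r _ => ?_
      linear_combination A i r * hp i r
    by_contra hcon
    push Not at hcon
    apply hrow x hx l n hn0 hker
    have hs : ∀ ξ : Fin 2 → Ω, ∑ i, ∑ r, M.adjugate i r *
        (ξ 0 * MA C l x i r + ξ 1 * MB C l x i r) = 0 := by
      intro ξ
      have := hcon ξ
      rw [snd_det_dp] at this
      rw [← this]
      refine Finset.sum_congr rfl fun i _ => Finset.sum_congr rfl fun r _ => ?_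
      rw [MA_symm C l x i r, MB_symm C l x i r]
    constructor
    · rw [hnn]
      have := hs ![1, 0]
      simp only [Matrix.cons_val_zero, Matrix.cons_val_one, one_mul, zero_mul,
        add_zero, Matrix.cons_val_fin_one] at this
      rw [this, mul_zero]
    · rw [hnn]
      have := hs ![0, 1]
      simp only [Matrix.cons_val_zero, Matrix.cons_val_one, one_mul, zero_mul,
        zero_add, Matrix.cons_val_fin_one] at this
      rw [this, mul_zero]
  · intro l l' hll x hx hD hD'
    obtain ⟨n, hn0, hn⟩ := (Matrix.exists_mulVec_eq_zero_iff).mpr hD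
    obtain ⟨n', hn0', hn'⟩ := (Matrix.exists_mulVec_eq_zero_iff).mpr hD'
    obtain ⟨z, hz1, hz2, hz3⟩ := hpt x (fun t => if t = l then n else n') {l, l'} (by
      intro t ht
      rcases ht with rfl | ht
      · simp only [if_true]; exact ⟨hn0, hn⟩
      · rw [Set.mem_singleton_iff] at ht
        subst ht
        simp only [hll.symm, if_false]; exact ⟨hn0', hn'⟩)
    have hzl : z l = n := by rw [hz1 l (by simp)]; simp
    have hzl' : z l' = n' := by rw [hz1 l' (by simp)]; simp [hll.symm]
    have e1 := euler_ker C l x hn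
    have e2 := euler_ker C l' x hn'
    -- the two rows are proportional
    obtain ⟨v, hv⟩ := hC x z hx hz2 hz3 (fun t => if t = l then 1 else 0)
    obtain ⟨v', hv'⟩ := hC x z hx hz2 hz3 (fun t => if t = l' then 1 else 0)
    have a1 := two_jac_ker C x z v l (by rw [hzl]; exact hn)
    have a2 := two_jac_ker C x z v l' (by rw [hzl']; exact hn')
    have b1 := two_jac_ker C x z v' l (by rw [hzl]; exact hn)
    have b2 := two_jac_ker C x z v' l' (by rw [hzl']; exact hn')
    rw [hv, hzl] at a1
    rw [hv, hzl'] at a2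
    rw [hv', hzl] at b1
    rw [hv', hzl'] at b2
    simp only [if_true, hll, hll.symm, if_false, mul_one, mul_zero] at a1 a2 b1 b2
    set α := n ⬝ᵥ MA C l x *ᵥ n
    set β := n ⬝ᵥ MB C l x *ᵥ n
    set α' := n' ⬝ᵥ MA C l' x *ᵥ n'
    set β' := n' ⬝ᵥ MB C l' x *ᵥ n'
    -- `(α, β)` and `(α', β')` are orthogonal to `x`, hence proportional
    have hprop : α * β' - α' * β = 0 := by
      by_cases hx1 : x 1 = 0
      · have hx0 : x 0 ≠ 0 := by
          intro h; apply hx; funext i; fin_cases i
          · simpa using h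
          · simpa using hx1
        have : x 0 * (α * β' - α' * β) = 0 := by linear_combination β' * e1 - β * e2
        exact (mul_eq_zero.mp this).resolve_left hx0
      · have : x 1 * (α * β' - α' * β) = 0 := by linear_combination α * e2 - α' * e1
        exact (mul_eq_zero.mp this).resolve_left hx1
    have : (4 : Ω) = 0 := by
      -- determinant of the two by two system
      have : (v.1 0 * α + v.1 1 * β) * (v'.1 0 * α' + v'.1 1 * β') -
          (v.1 0 * α' + v.1 1 * β') * (v'.1 0 * α + v'.1 1 * β) = 0 := by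
        linear_combination (v.1 0 * v'.1 1 - v.1 1 * v'.1 0) * hprop
      rw [← a1, ← a2, ← b1, ← b2] at this
      linear_combination this
    exact (by norm_num : (4 : Ω) ≠ 0) this

end Good

end Run7.h334
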