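import Pool.Agent.Run7.h334.Final1
import Pool.Agent.Run7.h334.Good

/-!
# The comparison of classes of base points, in the original coordinates
-/

namespace Run7.h334

open Polynomial Matrix IntermediateField Filter Topology TrivSqZeroExt

section Alg

variable {k : Type*} [Field k] {ι : Type*} {a : ι → Fin 3 → ℕ} {e : ι → ℕ}

theorem det_Mat_smul {R : Type*} [CommRing R] [Algebra k R] (C : Coeffs k ι a e) (l : ι) (r : R)
    (x : Fin 2 → R) :
    (Mat C l (fun t => r * x t)).det = r ^ rr a e l * (Mat C l x).det := by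
  have : r ^ rr a e l = (r ^ a l 0) ^ 2 * (r ^ a l 1) ^ 2 * (r ^ a l 2) ^ 2 * (r ^ e l) ^ 3 := by
    rw [rr]; ring
  rw [this, det_fin_three, det_fin_three]
  simp only [Mat_smul, pow_add]
  ring

theorem det_Mat_map {R R' : Type*} [CommRing R] [Algebra k R] [CommRing R'] [Algebra k R']
    (φ : R →ₐ[k] R') (C : Coeffs k ι a e) (l : ι) (x : Fin 2 → R) :
    φ (Mat C l x).det = (Mat C l (fun i => φ (x i))).det := by
  rw [← Mat_map]
  exact RingHom.map_det φ.toRingHom _

/-- the inverse of `sh` -/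
def ish {R : Type*} [CommRing R] [Algebra k R] (c : k) (x : Fin 2 → R) : Fin 2 → R :=
  ![x 0, x 1 - algebraMap k R c * x 0]

theorem sh_ish {R : Type*} [CommRing R] [Algebra k R] (c : k) (x : Fin 2 → R) :
    sh c (ish c x) = x := by
  funext i
  fin_cases i <;> simp [sh, ish]

theorem ish_sh {R : Type*} [CommRing R] [Algebra k R] (c : k) (x : Fin 2 → R) :
    ish c (sh c x) = x := by
  funext i
  fin_cases i <;> simp [sh, ish]

theorem sh_ne {R : Type*} [CommRing R] [Algebra k R] (c : k) {x : Fin 2 → R} (hx : x ≠ 0) :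
    sh c x ≠ 0 := by
  intro h
  apply hx
  rw [← ish_sh c x, h]
  funext i
  fin_cases i <;> simp [ish]

theorem ish_ne {R : Type*} [CommRing R] [Algebra k R] (c : k) {x : Fin 2 → R} (hx : x ≠ 0) :
    ish c x ≠ 0 := by
  intro h
  apply hx
  rw [← sh_ish c x, h]
  funext i
  fin_cases i <;> simp [sh]

theorem aeval_D {R : Type*} [CommRing R] [Algebra k R] (C : Coeffs k ι a e) (l : ι) (w : R) :
    aeval w (Mat C l (![1, X] : Fin 2 → k[X])).det = (Mat C l (![1, w] : Fin 2 → R)).det := by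
  rw [det_Mat_map (aeval w : k[X] →ₐ[k] R)]
  congr 2
  funext i
  fin_cases i <;> simp

theorem exists_good_c [Infinite k] [Finite ι] {Ω : Type*} [Field Ω] [Algebra k Ω]
    {C : Coeffs k ι a e} (hG : Good Ω C) : ∃ c : k, ∀ l, (N c C l (inf (k := k))).det ≠ 0 := by
  classical
  have := Fintype.ofFinite ι
  let D : ι → k[X] := fun l => (Mat C l (![1, X] : Fin 2 → k[X])).det
  have hD0 : ∀ l, D l ≠ 0 := by
    intro l h0
    have hx : (![1, 0] : Fin 2 → Ω) ≠ 0 := fun h => one_ne_zero (congrFun h 0)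
    have hd : (Mat C l (![1, 0] : Fin 2 → Ω)).det = 0 := by
      have h0' : (Mat C l (![1, X] : Fin 2 → k[X])).det = 0 := h0
      rw [← aeval_D C l (0 : Ω), h0', map_zero]
    obtain ⟨ξ, hξ⟩ := hG.simple l _ hx hd
    apply hξ
    have e1 : dp (![1, 0] : Fin 2 → Ω) ξ = fun i => (1 + inr (ξ 0)) *
        (![1, inr (ξ 1)] : Fin 2 → DualNumber Ω) i := by
      funext i
      fin_cases i
      · simp [dp]
      · simp only [dp, Fin.mk_one, Matrix.cons_val_one, Matrix.cons_val_fin_one]
        rw [add_mul, one_mul, inr_mul_inr, inl_zero, zero_add, add_zero]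
    rw [e1, det_Mat_smul]
    have e2 : (Mat C l (![1, inr (ξ 1)] : Fin 2 → DualNumber Ω)).det = 0 := by
      have h0' : (Mat C l (![1, X] : Fin 2 → k[X])).det = 0 := h0
      rw [← aeval_D C l (inr (ξ 1) : DualNumber Ω), h0', map_zero]
    rw [e2, mul_zero]; simp
  have hprod : ∏ l, D l ≠ 0 := Finset.prod_ne_zero_iff.mpr fun l _ => hD0 l
  have hfin : {c : k | (∏ l, D l).eval c = 0}.Finite := by
    refine ((∏ l, D l).rootSet_finite k).subset ?_
    intro s hs
    rw [mem_rootSet]
    exact ⟨hprod, by rw [aeval_def, Algebra.algebraMap_self, eval₂_id]; exact hs⟩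
  obtain ⟨c, hc⟩ := hfin.infinite_compl.nonempty
  refine ⟨c, fun l h0 => hc ?_⟩
  show (∏ l, D l).eval c = 0
  rw [eval_prod]
  apply Finset.prod_eq_zero (Finset.mem_univ l)
  have h1 := aeval_D C l c
  rw [aeval_def, Algebra.algebraMap_self, eval₂_id] at h1
  have h1' : (D l).eval c = (Mat C l (![1, c] : Fin 2 → k)).det := h1
  rw [h1', ← h0, N]
  congr 2
  funext i
  fin_cases i <;> simp [sh, inf]

/-- links on the base -/
def LB (C : Coeffs k ι a e) (x x' : Fin 2 → k) : Prop :=
  ∃ (Φ : Fin 2 → k[X]) (s s' r r' : k), r ≠ 0 ∧ r' ≠ 0 ∧ (∀ i, (Φ i).eval s = r * x i) ∧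
    (∀ i, (Φ i).eval s' = r' * x' i) ∧ ∀ l, Iso (Mat C l Φ)

/-- base points over which all the conics have a rational point -/
def APt (C : Coeffs k ι a e) : Type _ :=
  {x : Fin 2 → k // x ≠ 0 ∧ ∀ l, Iso (Mat C l x)}

/-- classes of base points -/
def ACl (C : Coeffs k ι a e) : Type _ :=
  Quot fun x y : APt C => LB C x.1 y.1

end Alg

section

variable {k : Type*} [NontriviallyNormedField k] [CharZero k]
  {Ω : Type*} [NormedField Ω]
  [NormedAlgebra k Ω] [IsUltrametricDist Ω] [IsAlgClosed Ω] [Algebra.IsAlgebraic k Ω]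
  {ι : Type*} {a : ι → Fin 3 → ℕ} {e : ι → ℕ}

/-- simple roots -/
theorem dsc_nodup {C : Coeffs k ι a e} (hG : Good Ω C) {c : k} (l : ι)
    (hlead : (N c C l (inf (k := k))).det ≠ 0) :
    ((dsc c C l).map (algebraMap k Ω)).roots.Nodup := by
  classical
  rw [Multiset.nodup_iff_count_le_one]
  intro t
  rw [count_roots]
  by_contra hcon
  push Not at hcon
  have hP0 : (dsc c C l).map (algebraMap k Ω) ≠ 0 := by
    intro h0
    rw [h0] at hcon
    simp at hcon
  rw [one_lt_rootMultiplicity_iff_isRoot hP0] at hcon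
  obtain ⟨h1, h2⟩ := hcon
  rw [IsRoot.def, eval_map_algebraMap] at h1
  rw [IsRoot.def, derivative_map, eval_map_algebraMap] at h2
  -- the value at dual numbers
  have hdual : ∀ β : Ω, aeval (inl t + inr β : DualNumber Ω) (dsc c C l) = 0 := by
    intro β
    rw [Polynomial.aeval_add_of_sq_eq_zero _ _ _ (by rw [pow_two, inr_mul_inr])]
    have e1 : ∀ P : k[X], aeval (inl t : DualNumber Ω) P = inl (aeval t P) := by
      intro P
      have := aeval_algHom_apply (inlAlgHom k Ω Ω) t P
      exact this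
    rw [e1, e1, h1, h2]
    simp
  have hdual2 : ∀ β : Ω, (N c C l (![inl t + inr β, 1] : Fin 2 → DualNumber Ω)).det = 0 := by
    intro β
    rw [← hdual β, dsc]
    have e1 := N_map (aeval (inl t + inr β : DualNumber Ω) : k[X] →ₐ[k] DualNumber Ω) c C l
      (aff (k := k))
    have e2 : (fun i => (aeval (inl t + inr β : DualNumber Ω)) (aff (k := k) i)) =
        (![inl t + inr β, 1] : Fin 2 → DualNumber Ω) := by
      funext i
      fin_cases i <;> simp [aff]
    rw [e2] at e1
    rw [← e1]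
    exact (RingHom.map_det (aeval (inl t + inr β : DualNumber Ω) :
      k[X] →ₐ[k] DualNumber Ω).toRingHom _).symm
  have hx : sh c (![t, 1] : Fin 2 → Ω) ≠ 0 := by
    apply sh_ne
    intro h
    exact one_ne_zero (congrFun h 1)
  have hxd : (Mat C l (sh c (![t, 1] : Fin 2 → Ω))).det = 0 := by
    have := aeval_dsc (Ω := Ω) c C l t
    rw [h1] at this
    exact this.symm
  obtain ⟨ξ, hξ⟩ := hG.simple l _ hx hxd
  apply hξ
  let α : Ω := ξ 1 - algebraMap k Ω c * ξ 0
  let β : Ω := ξ 0 - α * t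
  have e1 : dp (sh c (![t, 1] : Fin 2 → Ω)) ξ = fun i => (1 + inr α) *
      sh c (![inl t + inr β, 1] : Fin 2 → DualNumber Ω) i := by
    funext i
    fin_cases i
    · simp only [dp, sh, Fin.zero_eta, Matrix.cons_val_zero]
      ext
      · simp
      · simp [β]
    · simp only [dp, sh, Fin.mk_one, Matrix.cons_val_one, Matrix.cons_val_zero,
        Matrix.cons_val_fin_one]
      ext
      · simp [fst_algebraMap]
      · simp [fst_algebraMap, snd_algebraMap, β, α]
        ring
  rw [e1, det_Mat_smul]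
  have e2 := hdual2 β
  rw [N] at e2
  rw [e2, mul_zero]
  simp

theorem LB_iff (c : k) (C : Coeffs k ι a e) (x x' : Fin 2 → k) :
    LB C x x' ↔ BL c C (ish c x) (ish c x') := by
  constructor
  · rintro ⟨Φ, s, s', r, r', hr, hr', h1, h2, h3⟩
    refine ⟨ish c Φ, s, s', r, r', hr, hr', ?_, ?_, ?_⟩
    · intro i
      fin_cases i
      · simp [ish, h1]
      · simp [ish, h1]; ring
    · intro i
      fin_cases i
      · simp [ish, h2]
      · simp [ish, h2]; ring
    · intro l
      rw [N, sh_ish]; exact h3 l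
  · rintro ⟨Φ, s, s', r, r', hr, hr', h1, h2, h3⟩
    refine ⟨sh c Φ, s, s', r, r', hr, hr', ?_, ?_, ?_⟩
    · intro i
      fin_cases i
      · simp [sh, h1, ish]
      · simp [sh, h1, ish]; ring
    · intro i
      fin_cases i
      · simp [sh, h2, ish]
      · simp [sh, h2, ish]; ring
    · intro l
      exact h3 l

/-- change of coordinates on classes -/
theorem ACl_equiv_BCl (c : k) (C : Coeffs k ι a e) : Nonempty (ACl C ≃ BCl c C) := by
  let f : APt C → BPt c C := fun x => ⟨ish c x.1, ish_ne c x.2.1, fun l => by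
    rw [N, sh_ish]; exact x.2.2 l⟩
  let g : BPt c C → APt C := fun x => ⟨sh c x.1, sh_ne c x.2.1, fun l => x.2.2 l⟩
  have hfg : ∀ x, f (g x) = x := fun x => Subtype.ext (ish_sh c x.1)
  have hgf : ∀ x, g (f x) = x := fun x => Subtype.ext (sh_ish c x.1)
  let F : ACl C → BCl c C := Quot.map f fun x y hxy => (LB_iff c C x.1 y.1).mp hxy
  let G : BCl c C → ACl C := Quot.map g fun x y hxy => by
    apply (LB_iff c C _ _).mpr
    show BL c C (ish c (sh c x.1)) (ish c (sh c y.1))
    rw [ish_sh, ish_sh]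
    exact hxy
  refine ⟨⟨F, G, ?_, ?_⟩⟩
  · intro q
    induction q using Quot.ind with
    | mk x => exact congrArg (Quot.mk _) (hgf x)
  · intro q
    induction q using Quot.ind with
    | mk x => exact congrArg (Quot.mk _) (hfg x)

/-- The comparison theorem. -/
theorem classes_theorem [IsUltrametricDist k] [Fintype ι] [ProperSpace k]
    (hiso : ∀ (σ : Ω ≃ₐ[k] Ω) (x : Ω), ‖σ x‖ = ‖x‖)
    {C₀ : Coeffs k ι a e} (hG : Good Ω C₀) :
    ∀ᶠ C in 𝓝 C₀, Nonempty (ACl C₀ ≃ ACl C) := by
  classical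
  obtain ⟨c, hc⟩ := exists_good_c hG
  let Z : ι → Finset Ω := fun l => ((dsc c C₀ l).map (algebraMap k Ω)).roots.toFinset
  have hP0 : ∀ l, (dsc c C₀ l).map (algebraMap k Ω) ≠ 0 := by
    intro l h0
    rw [Polynomial.map_eq_zero] at h0
    apply hc l
    have := (top_det c C₀ l).2
    rw [← this]
    have h1 : (N c C₀ l aff).det = 0 := h0
    rw [h1, coeff_zero]
  have h2 : ∀ l, ∀ t, t ∈ Z l ↔ aeval t (dsc c C₀ l) = 0 := by
    intro l t
    simp only [Z, Multiset.mem_toFinset]
    rw [mem_roots (hP0 l), IsRoot.def, eval_map_algebraMap]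
  have hxne : ∀ t : Ω, sh c (![t, 1] : Fin 2 → Ω) ≠ 0 := by
    intro t
    apply sh_ne
    intro h
    exact one_ne_zero (congrFun h 1)
  have hbase := base_theorem (Ω := Ω) hiso c C₀ Z hc h2 ?_ ?_ ?_
  · filter_upwards [hbase] with C hC
    obtain ⟨E⟩ := hC
    obtain ⟨E₀⟩ := ACl_equiv_BCl c C₀
    obtain ⟨E₁⟩ := ACl_equiv_BCl c C
    exact ⟨E₀.trans (E.trans E₁.symm)⟩
  · intro l
    simp only [Z]
    rw [Multiset.toFinset_card_of_nodup (dsc_nodup hG l (hc l))]
    have hs : ((dsc c C₀ l).map (algebraMap k Ω)).Splits := IsAlgClosed.splits _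
    rw [← hs.natDegree_eq_card_roots, natDegree_map]
    apply le_antisymm (top_det c C₀ l).1
    apply le_natDegree_of_ne_zero
    have := (top_det c C₀ l).2
    intro h0
    apply hc l
    rw [← this]
    exact h0
  · intro l l' hll
    rw [Finset.disjoint_left]
    intro t ht ht'
    rw [h2, aeval_dsc] at ht ht'
    exact hG.disj l l' hll _ (hxne t) ht ht'
  · intro l x hx
    exact hG.adj l _ (sh_ne c hx)

end

end Run7.h334
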