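import Pool.Agent.Run7.h334.TF2

/-!
# Binary forms, matrices of binary forms
-/

namespace Run7.h334

open Polynomial Matrix

section BForm

variable {k : Type*} [Field k] {R : Type*} [CommRing R] [Algebra k R]

/-- the binary form `∑ c_t x₀^t x₁^(d-t)` -/
def bform {d : ℕ} (c : Fin (d + 1) → k) (x : Fin 2 → R) : R :=
  ∑ t : Fin (d + 1), algebraMap k R (c t) * x 0 ^ (t : ℕ) * x 1 ^ (d - t)

theorem bform_map {R' : Type*} [CommRing R'] [Algebra k R'] (φ : R →ₐ[k] R') {d : ℕ}
    (c : Fin (d + 1) → k) (x : Fin 2 → R) : φ (bform c x) = bform c (fun i => φ (x i)) := by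
  simp [bform]

theorem bform_smul {d : ℕ} (c : Fin (d + 1) → k) (r : R) (x : Fin 2 → R) :
    bform c (fun i => r * x i) = r ^ d * bform c x := by
  rw [bform, bform, Finset.mul_sum]
  refine Finset.sum_congr rfl fun t _ => ?_
  have ht : (t : ℕ) + (d - t) = d := by have := t.2; omega
  have : r ^ d = r ^ (t : ℕ) * r ^ (d - t) := by rw [← pow_add, ht]
  rw [this]; ring

end BForm

section Mat

variable {k : Type*} [Field k] {ι : Type*} {a : ι → Fin 3 → ℕ} {e : ι → ℕ}

/-- Coefficient tuples: for every `l : ι` a `3 × 3` matrix of binary forms, the `(i,j)` entry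
being of degree `a l i + a l j + e l`. -/
abbrev Coeffs (k : Type*) (ι : Type*) (a : ι → Fin 3 → ℕ) (e : ι → ℕ) :=
  (l : ι) → (i j : Fin 3) → Fin (a l i + a l j + e l + 1) → k

variable {R : Type*} [CommRing R] [Algebra k R]

/-- The symmetric matrix of the `l`-th quadratic form at `x`. -/
def Mat (C : Coeffs k ι a e) (l : ι) (x : Fin 2 → R) : Matrix (Fin 3) (Fin 3) R :=
  fun i j => bform (C l i j) x + bform (C l j i) x

/-- change of coordinates `(x₀, x₁) ↦ (x₀, c x₀ + x₁)` -/
def sh (c : k) (x : Fin 2 → R) : Fin 2 → R := ![x 0, algebraMap k R c * x 0 + x 1]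

/-- The symmetric matrix of the `l`-th quadratic form in the new coordinates. -/
def N (c : k) (C : Coeffs k ι a e) (l : ι) (x : Fin 2 → R) : Matrix (Fin 3) (Fin 3) R :=
  Mat C l (sh c x)

theorem Mat_isSymm (C : Coeffs k ι a e) (l : ι) (x : Fin 2 → R) : (Mat C l x).IsSymm := by
  ext i j
  simp only [Matrix.transpose_apply, Mat]
  exact add_comm _ _

theorem N_isSymm (c : k) (C : Coeffs k ι a e) (l : ι) (x : Fin 2 → R) : (N c C l x).IsSymm :=
  Mat_isSymm C l _

theorem Mat_map {R' : Type*} [CommRing R'] [Algebra k R'] (φ : R →ₐ[k] R')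
    (C : Coeffs k ι a e) (l : ι) (x : Fin 2 → R) :
    (Mat C l x).map φ = Mat C l (fun i => φ (x i)) := by
  ext i j
  simp only [Matrix.map_apply, Mat, map_add, bform_map]

theorem sh_map {R' : Type*} [CommRing R'] [Algebra k R'] (φ : R →ₐ[k] R') (c : k)
    (x : Fin 2 → R) : (fun i => φ (sh c x i)) = sh c (fun i => φ (x i)) := by
  funext i
  fin_cases i <;> simp [sh]

theorem N_map {R' : Type*} [CommRing R'] [Algebra k R'] (φ : R →ₐ[k] R') (c : k)
    (C : Coeffs k ι a e) (l : ι) (x : Fin 2 → R) :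
    (N c C l x).map φ = N c C l (fun i => φ (x i)) := by
  rw [N, Mat_map, sh_map, N]

theorem Mat_smul (C : Coeffs k ι a e) (l : ι) (r : R) (x : Fin 2 → R) (i j : Fin 3) :
    Mat C l (fun t => r * x t) i j = r ^ (a l i + a l j + e l) * Mat C l x i j := by
  simp only [Mat, bform_smul, mul_add]
  congr 2
  ring

theorem sh_smul (c : k) (r : R) (x : Fin 2 → R) :
    sh c (fun t => r * x t) = fun t => r * sh c x t := by
  funext i
  fin_cases i <;> simp [sh]
  ring

theorem N_smul (c : k) (C : Coeffs k ι a e) (l : ι) (r : R) (x : Fin 2 → R) (i j : Fin 3) :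
    N c C l (fun t => r * x t) i j = r ^ (a l i + a l j + e l) * N c C l x i j := by
  rw [N, sh_smul, Mat_smul, N]

/-- degree of the discriminant -/
def rr (a : ι → Fin 3 → ℕ) (e : ι → ℕ) (l : ι) : ℕ :=
  2 * (a l 0 + a l 1 + a l 2) + 3 * e l

theorem det_N_smul (c : k) (C : Coeffs k ι a e) (l : ι) (r : R) (x : Fin 2 → R) :
    (N c C l (fun t => r * x t)).det = r ^ rr a e l * (N c C l x).det := by
  have : r ^ rr a e l = (r ^ a l 0) ^ 2 * (r ^ a l 1) ^ 2 * (r ^ a l 2) ^ 2 * (r ^ e l) ^ 3 := by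
    rw [rr]; ring
  rw [this, det_fin_three, det_fin_three]
  simp only [N_smul, pow_add]
  ring

/-- the exponent by which the `j`-th diagonal entry of the adjugate scales is `2 * ee` -/
def ee (a : ι → Fin 3 → ℕ) (e : ι → ℕ) (l : ι) (j : Fin 3) : ℕ :=
  (a l 0 + a l 1 + a l 2 - a l j) + e l

theorem adj_N_smul (c : k) (C : Coeffs k ι a e) (l : ι) (r : R) (x : Fin 2 → R) (j : Fin 3) :
    (N c C l (fun t => r * x t)).adjugate j j =
      (r ^ ee a e l j) ^ 2 * (N c C l x).adjugate j j := by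
  have h0 : ee a e l 0 = a l 1 + a l 2 + e l := by rw [ee]; omega
  have h1 : ee a e l 1 = a l 0 + a l 2 + e l := by rw [ee]; omega
  have h2 : ee a e l 2 = a l 0 + a l 1 + e l := by rw [ee]; omega
  rw [adjugate_fin_three, adjugate_fin_three]
  fin_cases j
  · simp only [N_smul, Fin.zero_eta, h0, Matrix.of_apply, Matrix.cons_val_zero,
      Matrix.cons_val', Matrix.empty_val', Matrix.cons_val_fin_one]
    ring
  · simp only [N_smul, Fin.mk_one, h1, Matrix.of_apply, Matrix.cons_val_one,
      Matrix.cons_val', Matrix.empty_val', Matrix.cons_val_fin_one, Matrix.cons_val_zero]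
    ring
  · simp only [N_smul, Fin.reduceFinMk, h2, Matrix.of_apply, Matrix.cons_val,
      Matrix.cons_val', Matrix.empty_val', Matrix.cons_val_fin_one]
    ring

theorem iso_smul [IsDomain R] (c : k) (C : Coeffs k ι a e) (l : ι) {r : R} (hr : r ≠ 0)
    (x : Fin 2 → R) : Iso (N c C l (fun t => r * x t)) ↔ Iso (N c C l x) := by
  have key : ∀ z : Fin 3 → R, z ⬝ᵥ N c C l (fun t => r * x t) *ᵥ z =
      r ^ e l * ((fun i => r ^ a l i * z i) ⬝ᵥ N c C l x *ᵥ (fun i => r ^ a l i * z i)) := by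
    intro z
    simp only [dotProduct, mulVec, Fin.sum_univ_three, N_smul, pow_add]
    ring
  constructor
  · rintro ⟨z, hz, h⟩
    refine ⟨fun i => r ^ a l i * z i, ?_, ?_⟩
    · intro h0
      apply hz
      funext i
      have := congrFun h0 i
      exact (mul_eq_zero.mp this).resolve_left (pow_ne_zero _ hr)
    · rw [key] at h
      exact (mul_eq_zero.mp h).resolve_left (pow_ne_zero _ hr)
  · rintro ⟨z, hz, h⟩
    let s := a l 0 + a l 1 + a l 2
    have hs : ∀ i, a l i + (s - a l i) = s := by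
      intro i
      have : a l i ≤ s := by fin_cases i <;> simp [s] <;> omega
      omega
    refine ⟨fun i => r ^ (s - a l i) * z i, ?_, ?_⟩
    · intro h0
      apply hz
      funext i
      have := congrFun h0 i
      exact (mul_eq_zero.mp this).resolve_left (pow_ne_zero _ hr)
    · rw [key]
      have : (fun i => r ^ a l i * (r ^ (s - a l i) * z i)) = r ^ s • z := by
        funext i
        rw [← mul_assoc, ← pow_add, hs]; rfl
      rw [this, Matrix.mulVec_smul, dotProduct_smul, smul_dotProduct, h]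
      simp

end Mat

section Top

variable {k : Type*} [Field k]

/-- `p` has degree at most `d` and `v` as its coefficient of degree `d` -/
def Top (d : ℕ) (p : k[X]) (v : k) : Prop := p.natDegree ≤ d ∧ p.coeff d = v

theorem Top.add {d : ℕ} {p q : k[X]} {v w : k} (hp : Top d p v) (hq : Top d q w) :
    Top d (p + q) (v + w) :=
  ⟨(natDegree_add_le _ _).trans (max_le hp.1 hq.1), by rw [coeff_add, hp.2, hq.2]⟩

theorem Top.sub {d : ℕ} {p q : k[X]} {v w : k} (hp : Top d p v) (hq : Top d q w) :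
    Top d (p - q) (v - w) :=
  ⟨(natDegree_sub_le _ _).trans (max_le hp.1 hq.1), by rw [coeff_sub, hp.2, hq.2]⟩

theorem Top.mul {d d' : ℕ} {p q : k[X]} {v w : k} (hp : Top d p v) (hq : Top d' q w) :
    Top (d + d') (p * q) (v * w) :=
  ⟨natDegree_mul_le.trans (add_le_add hp.1 hq.1), by
    rw [coeff_mul_add_eq_of_natDegree_le hp.1 hq.1, hp.2, hq.2]⟩

theorem Top.pow {d : ℕ} {p : k[X]} {v : k} (hp : Top d p v) (n : ℕ) :
    Top (n * d) (p ^ n) (v ^ n) :=
  ⟨natDegree_pow_le.trans (Nat.mul_le_mul le_rfl hp.1), by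
    rw [coeff_pow_of_natDegree_le hp.1, hp.2]⟩

theorem Top.sum {α : Type*} (s : Finset α) {d : ℕ} {p : α → k[X]} {v : α → k}
    (h : ∀ i ∈ s, Top d (p i) (v i)) : Top d (∑ i ∈ s, p i) (∑ i ∈ s, v i) := by
  refine ⟨natDegree_sum_le_of_forall_le s p fun i hi => (h i hi).1, ?_⟩
  rw [finsetSum_coeff]
  exact Finset.sum_congr rfl fun i hi => (h i hi).2

theorem Top.C (v : k) : Top 0 (C v) v := ⟨by simp, by simp⟩

theorem Top.cast {d d' : ℕ} {p : k[X]} {v : k} (hp : Top d p v) (h : d = d') : Top d' p v :=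
  h ▸ hp

variable {ι : Type*} {a : ι → Fin 3 → ℕ} {e : ι → ℕ}

theorem top_bform {d : ℕ} (c : Fin (d + 1) → k) {x : Fin 2 → k[X]} {v : Fin 2 → k}
    (h : ∀ i, Top 1 (x i) (v i)) : Top d (bform c x) (bform c v) := by
  rw [bform, bform]
  apply Top.sum
  intro t _
  refine (((Top.C (c t)).mul ((h 0).pow t)).mul ((h 1).pow (d - t))).cast ?_
  have := t.2
  omega

/-- the affine point -/
noncomputable def aff : Fin 2 → k[X] := ![X, 1]

/-- the point at infinity -/
def inf : Fin 2 → k := ![1, 0]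

theorem top_N (c : k) (C : Coeffs k ι a e) (l : ι) (i j : Fin 3) :
    Top (a l i + a l j + e l) (N c C l aff i j) (N c C l (inf (k := k)) i j) := by
  have h : ∀ i, Top 1 (sh c (aff (k := k)) i) (sh c (inf (k := k)) i) := by
    intro i
    fin_cases i
    · exact ⟨by simp [sh, aff], by simp [sh, aff, inf]⟩
    · refine ⟨?_, ?_⟩
      · simp only [sh, aff, Fin.mk_one, Matrix.cons_val_one, Matrix.cons_val_zero,
          Polynomial.algebraMap_eq, Matrix.cons_val_fin_one]
        have := natDegree_linear_le (a := c) (b := 1)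
        simpa using this
      · simp [sh, aff, inf, coeff_one]
  exact (top_bform (C l i j) h).add ((top_bform (C l j i) h).cast (by ring))

theorem top_det (c : k) (C : Coeffs k ι a e) (l : ι) :
    Top (rr a e l) (N c C l aff).det (N c C l (inf (k := k))).det := by
  rw [det_fin_three, det_fin_three]
  have h := top_N c C l
  refine Top.sub (Top.add (Top.add (Top.sub (Top.sub ?_ ?_) ?_) ?_) ?_) ?_
  · exact (((h 0 0).mul (h 1 1)).mul (h 2 2)).cast (by rw [rr]; ring)
  · exact (((h 0 0).mul (h 1 2)).mul (h 2 1)).cast (by rw [rr]; ring)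
  · exact (((h 0 1).mul (h 1 0)).mul (h 2 2)).cast (by rw [rr]; ring)
  · exact (((h 0 1).mul (h 1 2)).mul (h 2 0)).cast (by rw [rr]; ring)
  · exact (((h 0 2).mul (h 1 0)).mul (h 2 1)).cast (by rw [rr]; ring)
  · exact (((h 0 2).mul (h 1 1)).mul (h 2 0)).cast (by rw [rr]; ring)

end Top

end Run7.h334
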