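import Pool.Agent.Run7.h334.Valued

/-!
# Gauss norms and Lagrange interpolation
-/

namespace Run7.h334

open Polynomial

section Gauss

variable {F : Type*} [NormedField F] [IsUltrametricDist F]

/-- Gauss norm -/
noncomputable def gn (c : ℝ) (P : F[X]) : ℝ := P.gaussNorm (NormedField.toAbsoluteValue F) c

theorem hna : IsNonarchimedean (NormedField.toAbsoluteValue F) :=
  fun x y => IsUltrametricDist.isNonarchimedean_norm x y

theorem gn_mul {c : ℝ} (hc : 1 ≤ c) (P Q : F[X]) : gn c (P * Q) = gn c P * gn c Q :=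
  gaussNorm_mul hna (by linarith) P Q

theorem gn_add_le {c : ℝ} (hc : 1 ≤ c) (P Q : F[X]) : gn c (P + Q) ≤ max (gn c P) (gn c Q) :=
  isNonarchimedean_gaussNorm _ hna (by linarith) P Q

theorem gn_C (c : ℝ) (a : F) : gn c (C a) = ‖a‖ := gaussNorm_C _ _ a

theorem gn_nonneg {c : ℝ} (hc : 1 ≤ c) (P : F[X]) : 0 ≤ gn c P :=
  gaussNorm_nonneg _ _ (by linarith)

theorem gn_zero (c : ℝ) : gn c (0 : F[X]) = 0 := gaussNorm_zero _ _

theorem gn_neg {c : ℝ} (hc : 1 ≤ c) (P : F[X]) : gn c (-P) = gn c P := by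
  have : -P = C (-1) * P := by simp
  rw [this, gn_mul hc, gn_C]
  simp

theorem gn_sub_le {c : ℝ} (hc : 1 ≤ c) (P Q : F[X]) : gn c (P - Q) ≤ max (gn c P) (gn c Q) := by
  rw [sub_eq_add_neg, ← gn_neg hc Q]
  exact gn_add_le hc P (-Q)

theorem gn_X (c : ℝ) : gn c (X : F[X]) = c := by
  have := gaussNorm_monomial (NormedField.toAbsoluteValue F) c 1 (1 : F)
  rw [gn, ← monomial_one_one_eq_X, this]
  simp

theorem coeff_le_gn {c : ℝ} (hc : 1 ≤ c) (P : F[X]) (i : ℕ) : ‖P.coeff i‖ ≤ gn c P := by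
  have h := le_gaussNorm (NormedField.toAbsoluteValue F) (p := P) (c := c) (by linarith) i
  have h1 : (1 : ℝ) ≤ c ^ i := one_le_pow₀ hc
  have h2 : ‖P.coeff i‖ ≤ ‖P.coeff i‖ * c ^ i := le_mul_of_one_le_right (norm_nonneg _) h1
  exact h2.trans h

theorem gn_X_sub_C {c : ℝ} (hc : 1 ≤ c) {e : F} (he : ‖e‖ ≤ c) : gn c (X - C e) = c := by
  apply le_antisymm
  · refine (gn_sub_le hc _ _).trans (max_le ?_ ?_)
    · rw [gn_X]
    · rw [gn_C]; exact he
  · have h := le_gaussNorm (NormedField.toAbsoluteValue F) (p := X - C e) (c := c)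
      (by linarith) 1
    rw [gn]
    simpa using h

theorem eval_le_gn {c : ℝ} (hc : 1 ≤ c) (P : F[X]) {e : F} (he : ‖e‖ ≤ c) :
    ‖P.eval e‖ ≤ gn c P := by
  rw [eval_eq_sum_range]
  apply IsUltrametricDist.norm_sum_le_of_forall_le_of_nonneg (gn_nonneg hc P)
  intro i _
  have h := le_gaussNorm (NormedField.toAbsoluteValue F) (p := P) (c := c) (by linarith) i
  refine le_trans ?_ h
  rw [norm_mul, norm_pow]
  have : ‖P.coeff i‖ * ‖e‖ ^ i ≤ ‖P.coeff i‖ * c ^ i := by gcongr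
  exact this

theorem gn_prod {c : ℝ} (hc : 1 ≤ c) {α : Type*} (s : Finset α) (f : α → F[X]) :
    gn c (∏ i ∈ s, f i) = ∏ i ∈ s, gn c (f i) := by
  classical
  induction s using Finset.induction_on with
  | empty =>
    have := gn_C c (1 : F)
    simpa using this
  | insert i s hi ih => rw [Finset.prod_insert hi, Finset.prod_insert hi, gn_mul hc, ih]

theorem gn_sum_le {c : ℝ} (hc : 1 ≤ c) {α : Type*} (s : Finset α) (f : α → F[X]) {B : ℝ}
    (hB : 0 ≤ B) (h : ∀ i ∈ s, gn c (f i) ≤ B) : gn c (∑ i ∈ s, f i) ≤ B := by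
  classical
  induction s using Finset.induction_on with
  | empty => rw [Finset.sum_empty, gn_zero]; exact hB
  | insert i s hi ih =>
    rw [Finset.sum_insert hi]
    exact (gn_add_le hc _ _).trans (max_le (h i (Finset.mem_insert_self i s))
      (ih fun j hj => h j (Finset.mem_insert_of_mem hj)))

/-- Lagrange basis polynomials have bounded Gauss norm -/
theorem gn_basis [DecidableEq F] {c δ : ℝ} (hc : 1 ≤ c) (hδ : 0 < δ) (hδ1 : δ ≤ 1) (Z : Finset F)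
    (ρ : F → F) (h1 : ∀ e ∈ Z, ‖ρ e‖ ≤ c)
    (h2 : ∀ e ∈ Z, ∀ e' ∈ Z, e ≠ e' → δ ≤ ‖ρ e - ρ e'‖) {e : F} (he : e ∈ Z) :
    gn c (Lagrange.basis Z ρ e) ≤ (c / δ) ^ Z.card := by
  have hcd : 1 ≤ c / δ := by rw [le_div_iff₀ hδ]; linarith
  rw [Lagrange.basis, gn_prod hc]
  have hP : ∏ j ∈ Z.erase e, gn c (Lagrange.basisDivisor (ρ e) (ρ j)) ≤
      ∏ _j ∈ Z.erase e, (c / δ) := by
    apply Finset.prod_le_prod (fun i _ => gn_nonneg hc _)
    intro e' he'
    have he'Z : e' ∈ Z := Finset.mem_of_mem_erase he'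
    have hne : e ≠ e' := (Finset.ne_of_mem_erase he').symm
    rw [Lagrange.basisDivisor, gn_mul hc, gn_C, gn_X_sub_C hc (h1 e' he'Z), norm_inv,
      ← div_eq_inv_mul]
    exact div_le_div_of_nonneg_left (by linarith) hδ (h2 e he e' he'Z hne)
  rw [Finset.prod_const] at hP
  refine hP.trans ?_
  · exact pow_le_pow_right₀ hcd (Finset.card_le_card (Finset.erase_subset _ _))

theorem gn_interpolate [DecidableEq F] {c δ B : ℝ} (hc : 1 ≤ c) (hδ : 0 < δ) (hδ1 : δ ≤ 1)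
    (hB : 0 ≤ B) (Z : Finset F)
    (ρ : F → F) (v : F → F) (h1 : ∀ e ∈ Z, ‖ρ e‖ ≤ c)
    (h2 : ∀ e ∈ Z, ∀ e' ∈ Z, e ≠ e' → δ ≤ ‖ρ e - ρ e'‖) (h3 : ∀ e ∈ Z, ‖v e‖ ≤ B) :
    gn c (Lagrange.interpolate Z ρ v) ≤ B * (c / δ) ^ Z.card := by
  have hcd : 0 ≤ c / δ := div_nonneg (by linarith) hδ.le
  rw [Lagrange.interpolate_apply]
  apply gn_sum_le hc _ _ (by positivity)
  intro e he
  rw [gn_mul hc, gn_C]
  have := gn_basis hc hδ hδ1 Z ρ h1 h2 he
  have h0 := gn_nonneg hc (Lagrange.basis Z ρ e)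
  have h3' := h3 e he
  gcongr

end Gauss

end Run7.h334
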