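import Pool.Agent.Run7.h334.Ternary

/-!
# Generic bases for ternary forms over `k[s]`
-/

namespace Run7.h334

open Polynomial Matrix

variable {k : Type*} [Field k] {Ω : Type*} [Field Ω] [Algebra k Ω]

/-- specialisation of a matrix over `k[s]` at `s ∈ Ω` -/
noncomputable def ev (s : Ω) (M : Matrix (Fin 3) (Fin 3) k[X]) : Matrix (Fin 3) (Fin 3) Ω :=
  M.map (aeval s)

theorem ev_apply (s : Ω) (M : Matrix (Fin 3) (Fin 3) k[X]) (i j : Fin 3) :
    ev s M i j = aeval s (M i j) := rfl

theorem ev_isSymm (s : Ω) {M : Matrix (Fin 3) (Fin 3) k[X]} (hM : M.IsSymm) :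
    (ev s M).IsSymm := by
  ext i j
  rw [Matrix.transpose_apply, ev_apply, ev_apply, hM.apply]

theorem det_ev (s : Ω) (M : Matrix (Fin 3) (Fin 3) k[X]) : (ev s M).det = aeval s M.det := by
  rw [ev]
  exact (RingHom.map_det (aeval s : k[X] →ₐ[k] Ω).toRingHom M).symm

theorem min2_ev (s : Ω) (M : Matrix (Fin 3) (Fin 3) k[X]) :
    min2 (ev s M) = aeval s (min2 M) := by
  simp [min2, ev_apply]

theorem adj_ev (s : Ω) (M : Matrix (Fin 3) (Fin 3) k[X]) :
    (ev s M).adjugate = ev s M.adjugate := by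
  rw [ev, ev]
  exact (RingHom.map_adjugate (aeval s : k[X] →ₐ[k] Ω).toRingHom M).symm

theorem ev_conj (s : Ω) (M : Matrix (Fin 3) (Fin 3) k[X]) (g : Matrix (Fin 3) (Fin 3) k) :
    ev s ((g.map C)ᵀ * M * g.map C) = (g.map (algebraMap k Ω))ᵀ * ev s M *
      g.map (algebraMap k Ω) := by
  have h : ∀ A B : Matrix (Fin 3) (Fin 3) k[X], ev s (A * B) = ev s A * ev s B := by
    intro A B
    rw [ev, Matrix.map_mul]
    rfl
  rw [h, h]
  congr 1
  · congr 1
    ext i j
    simp [ev_apply]
  · ext i j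
    simp [ev_apply]

theorem sextic_coeffs (a b c d e f : Ω)
    (h : C a + C b * (X : Polynomial Ω) + C c * X ^ 2 + C d * X ^ 3 + C e * X ^ 4
      + C f * X ^ 6 = 0) : a = 0 ∧ b = 0 ∧ c = 0 ∧ d = 0 ∧ e = 0 ∧ f = 0 := by
  have h0 := congrArg (fun p => coeff p 0) h
  have h1 := congrArg (fun p => coeff p 1) h
  have h2 := congrArg (fun p => coeff p 2) h
  have h3 := congrArg (fun p => coeff p 3) h
  have h4 := congrArg (fun p => coeff p 4) h
  have h6 := congrArg (fun p => coeff p 6) h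
  simp only [coeff_add, coeff_C_mul, coeff_C, coeff_X, coeff_X_pow, coeff_zero] at h0 h1 h2 h3 h4 h6
  norm_num at h0 h1 h2 h3 h4 h6
  exact ⟨h0, h1, h2, h3, h4, h6⟩

theorem gen_vec [CharZero k] (S : Finset Ω) (N : Ω → Matrix (Fin 3) (Fin 3) Ω)
    (hsym : ∀ s ∈ S, (N s).IsSymm) (hne : ∀ s ∈ S, N s ≠ 0) :
    ∃ v : Fin 3 → k, v 0 = 1 ∧ ∀ s ∈ S,
      (fun i => algebraMap k Ω (v i)) ⬝ᵥ N s *ᵥ (fun i => algebraMap k Ω (v i)) ≠ 0 := by
  classical
  have : CharZero Ω := charZero_of_injective_algebraMap (algebraMap k Ω).injective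
  let P : Ω → Polynomial Ω := fun s => C (N s 0 0) + C (2 * N s 0 1) * X + C (N s 1 1) * X ^ 2
    + C (2 * N s 0 2) * X ^ 3 + C (2 * N s 1 2) * X ^ 4 + C (N s 2 2) * X ^ 6
  have hP : ∀ s ∈ S, P s ≠ 0 := by
    intro s hs h0
    apply hne s hs
    obtain ⟨c0, c1', c2, c3', c4', c5⟩ := sextic_coeffs _ _ _ _ _ _ h0
    have c1 : N s 0 1 = 0 := by simpa using c1'
    have c3 : N s 0 2 = 0 := by simpa using c3'
    have c4 : N s 1 2 = 0 := by simpa using c4'
    have h10 := (hsym s hs).apply 0 1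
    have h20 := (hsym s hs).apply 0 2
    have h21 := (hsym s hs).apply 1 2
    ext i j
    fin_cases i <;> fin_cases j <;> simp [c0, c1, c2, c3, c4, c5, h10, h20, h21]
  have hprod : ∏ s ∈ S, P s ≠ 0 := Finset.prod_ne_zero_iff.mpr hP
  have hfin : {t : k | (∏ s ∈ S, P s).eval (algebraMap k Ω t) = 0}.Finite := by
    have h1 : {x : Ω | (∏ s ∈ S, P s).IsRoot x}.Finite := by
      have := (∏ s ∈ S, P s).roots.toFinset.finite_toSet
      refine this.subset ?_
      intro x hx
      simp only [Finset.mem_coe, Multiset.mem_toFinset]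
      exact (mem_roots hprod).mpr hx
    exact h1.preimage ((algebraMap k Ω).injective.injOn)
  obtain ⟨t, ht⟩ := hfin.infinite_compl.nonempty
  refine ⟨![1, t, t ^ 3], rfl, ?_⟩
  intro s hs h0
  apply ht
  simp only [Set.mem_setOf_eq]
  rw [eval_prod]
  apply Finset.prod_eq_zero hs
  have h10 := (hsym s hs).apply 0 1
  have h20 := (hsym s hs).apply 0 2
  have h21 := (hsym s hs).apply 1 2
  simp only [dotProduct, mulVec, Fin.sum_univ_three, Matrix.cons_val_zero, Matrix.cons_val_one,
    Matrix.cons_val, map_one, map_pow, h10, h20, h21] at h0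
  simp only [P, eval_add, eval_mul, eval_C, eval_X, eval_pow]
  linear_combination h0

theorem adj_ne_zero_of_det_ne_zero {F : Type*} [Field F] (M : Matrix (Fin 3) (Fin 3) F)
    (h : M.det ≠ 0) : M.adjugate ≠ 0 := by
  intro h0
  have := Matrix.det_adjugate M
  rw [h0, Matrix.det_zero] at this
  exact pow_ne_zero _ h this.symm

/-- the form `w ↦ q(v) q(w) - b(v,w)²` -/
noncomputable def minForm {F : Type*} [Field F] (M : Matrix (Fin 3) (Fin 3) F) (v : Fin 3 → F) :
    Matrix (Fin 3) (Fin 3) F :=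
  fun i j => (v ⬝ᵥ M *ᵥ v) * M i j - (M *ᵥ v) i * (M *ᵥ v) j

theorem minForm_isSymm {F : Type*} [Field F] (M : Matrix (Fin 3) (Fin 3) F) (hM : M.IsSymm)
    (v : Fin 3 → F) : (minForm M v).IsSymm := by
  ext i j
  simp only [Matrix.transpose_apply, minForm, hM.apply i j]
  ring

theorem minForm_ne_zero_of_adj {F : Type*} [Field F] (M : Matrix (Fin 3) (Fin 3) F)
    (v : Fin 3 → F) (hv : v ⬝ᵥ M *ᵥ v ≠ 0) (hadj : M.adjugate ≠ 0) :
    minForm M v ≠ 0 := by
  intro h0
  apply hadj
  set q := v ⬝ᵥ M *ᵥ v with hq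
  set y := M *ᵥ v with hy
  have h : ∀ i j, q * M i j = y i * y j := by
    intro i j
    have := congrFun (congrFun h0 i) j
    simp only [minForm, Matrix.zero_apply] at this
    linear_combination this
  have h2 : ∀ i j i' j', M i j * M i' j' - M i j' * M i' j = 0 := by
    intro i j i' j'
    have : q ^ 2 * (M i j * M i' j' - M i j' * M i' j) = 0 := by
      have e : q ^ 2 * (M i j * M i' j' - M i j' * M i' j)
        = (q * M i j) * (q * M i' j') - (q * M i j') * (q * M i' j) := by ring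
      rw [e, h, h, h, h]; ring
    exact (mul_eq_zero.mp this).resolve_left (pow_ne_zero _ hv)
  rw [adjugate_fin_three]
  ext i j
  fin_cases i <;> fin_cases j <;> simp
  · linear_combination h2 1 1 2 2
  · linear_combination -h2 0 1 2 2
  · linear_combination h2 0 1 1 2
  · linear_combination -h2 1 0 2 2
  · linear_combination h2 0 0 2 2
  · linear_combination -h2 0 0 1 2
  · linear_combination h2 1 0 2 1
  · linear_combination -h2 0 0 2 1
  · linear_combination h2 0 0 1 1

theorem minForm_ne_zero_of_det {F : Type*} [Field F] (M : Matrix (Fin 3) (Fin 3) F)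
    (v : Fin 3 → F) (hv0 : v ≠ 0) (hv : v ⬝ᵥ M *ᵥ v = 0) (hD : M.det ≠ 0) :
    minForm M v ≠ 0 := by
  intro h0
  have hy : M *ᵥ v ≠ 0 := by
    intro h
    exact hD ((Matrix.exists_mulVec_eq_zero_iff).mp ⟨v, hv0, h⟩)
  apply hy
  funext i
  have := congrFun (congrFun h0 i) i
  simp only [minForm, Matrix.zero_apply, hv] at this
  have h2 : (M *ᵥ v) i ^ 2 = 0 := by linear_combination -this
  simpa using h2

/-- A basis of `k³` in which the leading minors of `M` are in general position. -/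
theorem gen_basis [CharZero k] (M : Matrix (Fin 3) (Fin 3) k[X]) (hM : M.IsSymm)
    (hD : M.det ≠ 0) (hadj : ∀ s : Ω, aeval s M.det = 0 → (ev s M).adjugate ≠ 0) :
    ∃ g : Matrix (Fin 3) (Fin 3) k, g.det ≠ 0 ∧
      (∀ s : Ω, aeval s M.det = 0 → aeval s (((g.map C)ᵀ * M * g.map C) 0 0) ≠ 0) ∧
      (∀ s : Ω, (aeval s M.det = 0 ∨ aeval s (((g.map C)ᵀ * M * g.map C) 0 0) = 0) →
        aeval s (min2 ((g.map C)ᵀ * M * g.map C)) ≠ 0) ∧
      ((g.map C)ᵀ * M * g.map C) 0 0 ≠ 0 ∧ min2 ((g.map C)ᵀ * M * g.map C) ≠ 0 := by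
  classical
  have hfin : ∀ P : k[X], P ≠ 0 → {s : Ω | aeval s P = 0}.Finite := by
    intro P hP
    refine (P.rootSet_finite Ω).subset ?_
    intro s hs
    rw [mem_rootSet]
    exact ⟨hP, hs⟩
  have hadj' : ∀ s : Ω, (ev s M).adjugate ≠ 0 := by
    intro s
    by_cases h : aeval s M.det = 0
    · exact hadj s h
    · exact adj_ne_zero_of_det_ne_zero _ (by rwa [det_ev])
  have hMne : ∀ s : Ω, ev s M ≠ 0 := by
    intro s h0
    apply hadj' s
    rw [h0, Matrix.adjugate_zero]
  obtain ⟨v, hv1, hv⟩ := gen_vec (k := k) ((hfin _ hD).toFinset ∪ {0}) (fun s => ev s M)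
    (fun s _ => ev_isSymm s hM) (fun s _ => hMne s)
  have hv0 : v ≠ 0 := by
    intro h; rw [h] at hv1; simp at hv1
  -- the polynomial `q(v)`
  let Q : k[X] := (fun i => C (v i)) ⬝ᵥ M *ᵥ (fun i => C (v i))
  have hQs : ∀ s : Ω, aeval s Q = (fun i => algebraMap k Ω (v i)) ⬝ᵥ ev s M *ᵥ
      (fun i => algebraMap k Ω (v i)) := by
    intro s
    simp [Q, dotProduct, mulVec, Fin.sum_univ_three, ev_apply]
  have hQ0 : Q ≠ 0 := by
    intro h
    have := hv 0 (by simp)
    rw [← hQs, h] at this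
    simp at this
  obtain ⟨w, -, hw⟩ := gen_vec (k := k)
    ((hfin _ hD).toFinset ∪ {0} ∪ (hfin _ hQ0).toFinset)
    (fun s => minForm (ev s M) (fun i => algebraMap k Ω (v i)))
    (fun s _ => minForm_isSymm _ (ev_isSymm s hM) _) (by
      intro s hs
      by_cases hq : aeval s Q = 0
      · have hDs : aeval s M.det ≠ 0 := by
          intro hDs
          exact hv s (by simp [hDs]) (by rw [← hQs, hq])
        apply minForm_ne_zero_of_det
        · intro h
          apply hv0
          funext i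
          have := congrFun h i
          simpa using this
        · rw [← hQs, hq]
        · rwa [det_ev]
      · exact minForm_ne_zero_of_adj _ _ (by rwa [← hQs]) (hadj' s))
  -- complete to a basis
  have hlin : ∃ y : Fin 3 → k, (Matrix.of ![v, w, y]).det ≠ 0 := by
    by_contra hcon
    push Not at hcon
    -- all `2 × 2` minors of `v, w` vanish
    have e0 := hcon ![1, 0, 0]
    have e1 := hcon ![0, 1, 0]
    have e2 := hcon ![0, 0, 1]
    simp only [det_fin_three, Matrix.of_apply, Matrix.cons_val_zero, Matrix.cons_val_one,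
      Matrix.cons_val] at e0 e1 e2
    have hwv : w = w 0 • v := by
      funext i
      fin_cases i
      · simp [hv1]
      · simp only [Fin.mk_one, Pi.smul_apply, smul_eq_mul]
        rw [hv1] at e2
        linear_combination e2
      · simp only [Fin.reduceFinMk, Pi.smul_apply, smul_eq_mul]
        rw [hv1] at e1
        linear_combination -e1
    apply hw 0 (by simp)
    set N := ev (0 : Ω) M
    have hNs : N.IsSymm := ev_isSymm 0 hM
    have h10 := hNs.apply 0 1
    have h20 := hNs.apply 0 2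
    have h21 := hNs.apply 1 2
    have hw' : ∀ i, algebraMap k Ω (w i) = algebraMap k Ω (w 0) * algebraMap k Ω (v i) := by
      intro i
      rw [← map_mul]
      congr 1
      exact congrFun hwv i
    simp only [minForm, dotProduct, mulVec, Fin.sum_univ_three, h10, h20, h21]
    rw [hw' 1, hw' 2, hv1]
    simp only [map_one]
    ring
  obtain ⟨y, hy⟩ := hlin
  let g : Matrix (Fin 3) (Fin 3) k := (Matrix.of ![v, w, y])ᵀ
  have hgdet : g.det ≠ 0 := by
    rw [Matrix.det_transpose]; exact hy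
  have hM00 : ((g.map C)ᵀ * M * g.map C) 0 0 = Q := by
    simp only [g, Q, Matrix.mul_apply, Matrix.transpose_apply, Matrix.map_apply, Matrix.of_apply,
      Fin.sum_univ_three, dotProduct, mulVec, Matrix.cons_val_zero]
    ring
  have hmin : ∀ s : Ω, aeval s (min2 ((g.map C)ᵀ * M * g.map C)) =
      (fun i => algebraMap k Ω (w i)) ⬝ᵥ minForm (ev s M) (fun i => algebraMap k Ω (v i)) *ᵥ
      (fun i => algebraMap k Ω (w i)) := by
    intro s
    have h10 : ev s M 1 0 = ev s M 0 1 := (ev_isSymm s hM).apply 0 1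
    have h20 : ev s M 2 0 = ev s M 0 2 := (ev_isSymm s hM).apply 0 2
    have h21 : ev s M 2 1 = ev s M 1 2 := (ev_isSymm s hM).apply 1 2
    rw [← min2_ev, ev_conj]
    simp only [min2, g, Matrix.mul_apply, Matrix.transpose_apply, Matrix.map_apply,
      Matrix.of_apply, Fin.sum_univ_three, dotProduct, mulVec, Matrix.cons_val_zero,
      Matrix.cons_val_one, minForm, h10, h20, h21]
    ring
  refine ⟨g, hgdet, ?_, ?_, ?_, ?_⟩
  · intro s hs
    rw [hM00, hQs]
    exact hv s (by simp [hs])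
  · intro s hs
    rw [hmin]
    rw [hM00] at hs
    apply hw s
    simp only [Finset.mem_union, Set.Finite.mem_toFinset, Set.mem_setOf_eq]
    tauto
  · rw [hM00]; exact hQ0
  · intro h
    apply hw 0 (by simp)
    rw [← hmin, h]; simp

end Run7.h334
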