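import Pool.Agent.Run7.h334.Forms

/-!
# Homogenisation
-/

namespace Run7.h334

open Polynomial

section Hom

variable {F : Type*} [CommRing F] {R : Type*} [CommRing R] [Algebra F R]

/-- the homogenisation of degree `n` of `P`, evaluated at `x` -/
noncomputable def hom (n : ℕ) (P : F[X]) (x : Fin 2 → R) : R :=
  ∑ i ∈ Finset.range (n + 1), algebraMap F R (P.coeff i) * x 0 ^ i * x 1 ^ (n - i)

theorem hom_map {R' : Type*} [CommRing R'] [Algebra F R'] (φ : R →ₐ[F] R') (n : ℕ)
    (P : F[X]) (x : Fin 2 → R) : φ (hom n P x) = hom n P (fun i => φ (x i)) := by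
  simp [hom]

theorem hom_baseChange {F' : Type*} [CommRing F'] [Algebra F F'] [Algebra F' R]
    [IsScalarTower F F' R] (n : ℕ) (P : F[X]) (x : Fin 2 → R) :
    hom n (P.map (algebraMap F F')) x = hom n P x := by
  simp only [hom, coeff_map]
  refine Finset.sum_congr rfl fun i _ => ?_
  rw [← IsScalarTower.algebraMap_apply]

theorem hom_smul (n : ℕ) (P : F[X]) (r : R) (x : Fin 2 → R) :
    hom n P (fun i => r * x i) = r ^ n * hom n P x := by
  rw [hom, hom, Finset.mul_sum]
  refine Finset.sum_congr rfl fun i hi => ?_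
  have ht : i + (n - i) = n := by
    have := Finset.mem_range.mp hi; omega
  have : r ^ n = r ^ i * r ^ (n - i) := by rw [← pow_add, ht]
  rw [this]; ring

theorem hom_sub (n : ℕ) (P Q : F[X]) (x : Fin 2 → R) :
    hom n (P - Q) x = hom n P x - hom n Q x := by
  simp only [hom, coeff_sub, map_sub, sub_mul, Finset.sum_sub_distrib]

theorem hom_C_mul (n : ℕ) (c : F) (P : F[X]) (x : Fin 2 → R) :
    hom n (C c * P) x = algebraMap F R c * hom n P x := by
  simp only [hom, coeff_C_mul, map_mul, Finset.mul_sum]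
  refine Finset.sum_congr rfl fun i _ => ?_
  ring

theorem hom_aff {n : ℕ} {P : F[X]} (h : P.natDegree ≤ n) (x : Fin 2 → R) (hx : x 1 = 1) :
    hom n P x = aeval (x 0) P := by
  rw [aeval_eq_sum_range' (n := n + 1) (by omega), hom]
  refine Finset.sum_congr rfl fun i _ => ?_
  rw [hx, one_pow, mul_one, Algebra.smul_def]

theorem hom_inf (n : ℕ) (P : F[X]) (x : Fin 2 → R) (hx : x 1 = 0) :
    hom n P x = algebraMap F R (P.coeff n) * x 0 ^ n := by
  rw [hom, Finset.sum_range_succ, Finset.sum_eq_zero]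
  · simp
  · intro i hi
    have := Finset.mem_range.mp hi
    rw [hx, zero_pow (by omega), mul_zero]

theorem hom_linear_mul {m : ℕ} {B : F[X]} (h : B.natDegree ≤ m) (e : F) (x : Fin 2 → R) :
    hom (m + 1) ((X - C e) * B) x = (x 0 - algebraMap F R e * x 1) * hom m B x := by
  have hB : B.coeff (m + 1) = 0 := coeff_eq_zero_of_natDegree_lt (by omega)
  rw [hom, Finset.sum_range_succ']
  have e1 : algebraMap F R e * x 1 * hom m B x = ∑ i ∈ Finset.range (m + 1),
      algebraMap F R (B.coeff (i + 1) * e) * x 0 ^ (i + 1) * x 1 ^ (m + 1 - (i + 1)) +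
      algebraMap F R (B.coeff 0 * e) * x 0 ^ 0 * x 1 ^ (m + 1 - 0) := by
    rw [← Finset.sum_range_succ' (fun i => algebraMap F R (B.coeff i * e) * x 0 ^ i *
      x 1 ^ (m + 1 - i)), Finset.sum_range_succ, hB, zero_mul, map_zero, zero_mul, zero_mul,
      add_zero, hom, Finset.mul_sum]
    refine Finset.sum_congr rfl fun i hi => ?_
    have := Finset.mem_range.mp hi
    have e2 : m + 1 - i = (m - i) + 1 := by omega
    rw [e2, pow_succ, map_mul]; ring
  have e3 : x 0 * hom m B x = ∑ i ∈ Finset.range (m + 1),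
      algebraMap F R (B.coeff i) * x 0 ^ (i + 1) * x 1 ^ (m + 1 - (i + 1)) := by
    rw [hom, Finset.mul_sum]
    refine Finset.sum_congr rfl fun i _ => ?_
    have e2 : m + 1 - (i + 1) = m - i := by omega
    rw [e2, pow_succ]; ring
  have hs : ∑ i ∈ Finset.range (m + 1), algebraMap F R (((X - C e) * B).coeff (i + 1)) *
      x 0 ^ (i + 1) * x 1 ^ (m + 1 - (i + 1)) = ∑ i ∈ Finset.range (m + 1),
      (algebraMap F R (B.coeff i) * x 0 ^ (i + 1) * x 1 ^ (m + 1 - (i + 1)) -
      algebraMap F R (B.coeff (i + 1) * e) * x 0 ^ (i + 1) * x 1 ^ (m + 1 - (i + 1))) := by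
    refine Finset.sum_congr rfl fun i _ => ?_
    rw [coeff_X_sub_C_mul, map_sub]; ring
  have ht : algebraMap F R (((X - C e) * B).coeff 0) =
      -(algebraMap F R (B.coeff 0 * e)) := by
    simp only [mul_coeff_zero, coeff_sub, coeff_X_zero, coeff_C_zero, map_mul, map_sub, map_zero]
    ring
  rw [hs, ht, sub_mul (x 0), e1, e3, Finset.sum_sub_distrib]
  ring

end Hom

section Norm

variable {F : Type*} [NormedField F] [IsUltrametricDist F]

theorem norm_hom_le (n : ℕ) (P : F[X]) {G : ℝ} (hG : ∀ i, ‖P.coeff i‖ ≤ G) (x : Fin 2 → F) :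
    ‖hom n P x‖ ≤ G * ‖x‖ ^ n := by
  have hG0 : 0 ≤ G := (norm_nonneg _).trans (hG 0)
  rw [hom]
  apply IsUltrametricDist.norm_sum_le_of_forall_le_of_nonneg (by positivity)
  intro i hi
  have ht : i + (n - i) = n := by
    have := Finset.mem_range.mp hi; omega
  have e : ‖x‖ ^ n = ‖x‖ ^ i * ‖x‖ ^ (n - i) := by rw [← pow_add, ht]
  rw [norm_mul, norm_mul, norm_pow, norm_pow, e, ← mul_assoc]
  have h0 : ‖x 0‖ ≤ ‖x‖ := norm_le_pi_norm x 0
  have h1 : ‖x 1‖ ≤ ‖x‖ := norm_le_pi_norm x 1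
  have h2 : ‖(algebraMap F F) (P.coeff i)‖ ≤ G := hG i
  gcongr

end Norm

end Run7.h334
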