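import Mathlib

/-!
# Legendre's theorem over `k[s]`

For squarefree `A`, `B` in `k[s]` with the usual square conditions at the primes dividing `A B`,
the equation `X² = A Y² + B Z²` has a nontrivial solution in `k[s]` as soon as its specialisations
at infinitely many `s ∈ k` have one in `k`.
-/

namespace Run7.h334

open Polynomial

/-- `X² = A Y² + B Z²` has a nontrivial solution. -/
def Sol {R : Type*} [CommRing R] (A B : R) : Prop :=
  ∃ X Y Z : R, ¬ (X = 0 ∧ Y = 0 ∧ Z = 0) ∧ X ^ 2 = A * Y ^ 2 + B * Z ^ 2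

theorem Sol.symm {R : Type*} [CommRing R] {A B : R} (h : Sol A B) : Sol B A := by
  obtain ⟨X, Y, Z, h0, h1⟩ := h
  exact ⟨X, Z, Y, fun h => h0 ⟨h.1, h.2.2, h.2.1⟩, by rw [h1]; ring⟩

theorem Sol.of_sq {R : Type*} [CommRing R] [Nontrivial R] {A B C : R} (h : A = C ^ 2) :
    Sol A B :=
  ⟨C, 1, 0, fun h => one_ne_zero h.2.1, by rw [h]; ring⟩

theorem Sol.transfer {R : Type*} [CommRing R] [IsDomain R] {A B B₂ C m : R}
    (hB : B * B₂ * m ^ 2 = C ^ 2 - A) (hB2 : B₂ ≠ 0) (hm : m ≠ 0) (h : Sol A B₂) :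
    Sol A B := by
  obtain ⟨X, Y, Z, h0, h1⟩ := h
  by_cases hZ : Z = 0
  · refine ⟨X, Y, 0, ?_, ?_⟩
    · intro h; exact h0 ⟨h.1, h.2.1, hZ⟩
    · rw [h1, hZ]; ring
  · refine ⟨C * X + A * Y, C * Y + X, B₂ * m * Z, ?_, ?_⟩
    · intro h
      exact (mul_ne_zero (mul_ne_zero hB2 hm) hZ) h.2.2
    · have : B * (B₂ * m * Z) ^ 2 = (C ^ 2 - A) * (X ^ 2 - A * Y ^ 2) := by
        rw [h1, ← hB]; ring
      linear_combination this.symm

theorem Sol.transfer' {R : Type*} [CommRing R] [IsDomain R] {A B B₂ C m : R}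
    (hB : B * B₂ * m ^ 2 = C ^ 2 - A) (hB1 : B ≠ 0) (hm : m ≠ 0) (h : Sol A B) :
    Sol A B₂ := by
  exact Sol.transfer (C := C) (m := m) (by rw [← hB]; ring) hB1 hm h

variable {k : Type*} [Field k]

/-- Every nonzero polynomial is a squarefree one times a square. -/
theorem exists_squarefree_mul_sq (B : k[X]) (hB : B ≠ 0) :
    ∃ B₂ m : k[X], Squarefree B₂ ∧ m ≠ 0 ∧ B = B₂ * m ^ 2 ∧ B₂ ≠ 0 ∧
      B₂.natDegree ≤ B.natDegree := by
  induction' hn : B.natDegree using Nat.strong_induction_on with n ih generalizing B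
  by_cases hs : Squarefree B
  · exact ⟨B, 1, hs, one_ne_zero, by ring, hB, by omega⟩
  · rw [squarefree_iff_irreducible_sq_not_dvd_of_ne_zero hB] at hs
    push Not at hs
    obtain ⟨p, hp, B', hB'⟩ := hs
    have hp0 : p ≠ 0 := hp.ne_zero
    have hB'0 : B' ≠ 0 := by
      rintro rfl; exact hB (by rw [hB', mul_zero])
    have hdeg : B.natDegree = p.natDegree + p.natDegree + B'.natDegree := by
      rw [hB', natDegree_mul (mul_ne_zero hp0 hp0) hB'0, natDegree_mul hp0 hp0]
    have hpd : 0 < p.natDegree := hp.natDegree_pos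
    obtain ⟨B₂, m, h1, h2, h3, h4, h5⟩ := ih B'.natDegree (by omega) B' hB'0 rfl
    exact ⟨B₂, m * p, h1, mul_ne_zero h2 hp0, by rw [hB', h3]; ring, h4, by omega⟩

/-- Chinese remainder for square conditions. -/
theorem exists_sq_sub_dvd (A B : k[X]) (hB : Squarefree B) (hB0 : B ≠ 0)
    (h : ∀ p, Irreducible p → p ∣ B → ∃ C, p ∣ C ^ 2 - A) : ∃ C, B ∣ C ^ 2 - A := by
  induction B using UniqueFactorizationMonoid.induction_on_prime with
  | h₁ => exact absurd rfl hB0
  | h₂ x hx => exact ⟨0, hx.dvd⟩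
  | h₃ B p hB0' hp ih =>
    have hsq : Squarefree B := hB.squarefree_of_dvd (Dvd.intro_left p rfl)
    obtain ⟨C₁, hC₁⟩ := h p hp.irreducible (Dvd.intro _ rfl)
    obtain ⟨C₂, hC₂⟩ := ih hsq hB0' (fun q hq hqB => h q hq (hqB.mul_left p))
    have hnd : ¬ p ∣ B := by
      rintro ⟨B', rfl⟩
      exact hp.not_unit (hB p ⟨B', by ring⟩)
    have hcop : IsCoprime p B := (hp.irreducible.coprime_iff_not_dvd).mpr hnd
    obtain ⟨u, v, huv⟩ := hcop
    refine ⟨C₁ * (v * B) + C₂ * (u * p), ?_⟩
    have hcop' : IsCoprime p B := ⟨u, v, huv⟩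
    refine hcop'.mul_dvd ?_ ?_
    · have : (C₁ * (v * B) + C₂ * (u * p)) ^ 2 - A
          = (C₁ ^ 2 - A) + p * (2 * C₁ * (v * B) * C₂ * u + C₂ ^ 2 * u ^ 2 * p
            + C₁ ^ 2 * (u ^ 2 * p - 2 * u)) := by
        have hv : v * B = 1 - u * p := by linear_combination huv
        rw [hv]; ring
      rw [this]
      exact dvd_add hC₁ (Dvd.intro _ rfl)
    · have : (C₁ * (v * B) + C₂ * (u * p)) ^ 2 - A
          = (C₂ ^ 2 - A) + B * (2 * C₂ * (u * p) * C₁ * v + C₁ ^ 2 * v ^ 2 * B
            + C₂ ^ 2 * (v ^ 2 * B - 2 * v)) := by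
        have hv : u * p = 1 - v * B := by linear_combination huv
        rw [hv]; ring
      rw [this]
      exact dvd_add hC₂ (Dvd.intro _ rfl)

theorem legendre_aux (n : ℕ) : ∀ (A B : k[X]), A.natDegree + B.natDegree ≤ n →
    Squarefree A → Squarefree B → A ≠ 0 → B ≠ 0 →
    (∀ p, Irreducible p → p ∣ B → ∃ C, p ∣ C ^ 2 - A) →
    (∀ p, Irreducible p → p ∣ A → ∃ C, p ∣ C ^ 2 - B) →
    (∀ p A₁ B₁, Irreducible p → A = p * A₁ → B = p * B₁ → ∃ C, p ∣ C ^ 2 + A₁ * B₁) →
    {s : k | Sol (A.eval s) (B.eval s)}.Infinite → Sol A B := by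
  induction n with
  | zero =>
    intro A B hdeg _ _ _ _ _ _ _ h4
    obtain ⟨s, hs⟩ := h4.nonempty
    have hA : A = C (A.eval s) := by
      rw [eq_C_of_natDegree_eq_zero (p := A) (by omega)]; simp
    have hB : B = C (B.eval s) := by
      rw [eq_C_of_natDegree_eq_zero (p := B) (by omega)]; simp
    obtain ⟨X, Y, Z, h0, h1⟩ := hs
    rw [hA, hB]
    refine ⟨C X, C Y, C Z, ?_, ?_⟩
    · simpa using h0
    · rw [← C_pow, h1]; simp
  | succ n ih =>
    -- the key step, for `deg A ≤ deg B`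
    have key : ∀ (A B : k[X]), A.natDegree ≤ B.natDegree → 0 < B.natDegree →
        A.natDegree + B.natDegree ≤ n + 1 →
        Squarefree A → Squarefree B → A ≠ 0 → B ≠ 0 →
        (∀ p, Irreducible p → p ∣ B → ∃ C, p ∣ C ^ 2 - A) →
        (∀ p, Irreducible p → p ∣ A → ∃ C, p ∣ C ^ 2 - B) →
        (∀ p A₁ B₁, Irreducible p → A = p * A₁ → B = p * B₁ → ∃ C, p ∣ C ^ 2 + A₁ * B₁) →
        {s : k | Sol (A.eval s) (B.eval s)}.Infinite → Sol A B := by
      intro A B hAB hB0 hdeg hA hB hAne hBne h1 h2 h3 h4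
      obtain ⟨C₀, hC₀⟩ := exists_sq_sub_dvd A B hB hBne h1
      -- reduce `C₀` modulo `B`
      obtain ⟨C₁, hC₁, hC₁d⟩ : ∃ C₁ : k[X], B ∣ C₁ ^ 2 - A ∧ C₁.natDegree < B.natDegree := by
        refine ⟨C₀ % B, ?_, natDegree_mod_lt _ (by omega)⟩
        have : (C₀ % B) ^ 2 - A = (C₀ ^ 2 - A) - B * (C₀ / B) * (C₀ % B + C₀) := by
          have := EuclideanDomain.mod_add_div C₀ B
          linear_combination (C₀ % B + C₀) * this
        rw [this]
        exact dvd_sub hC₀ (by rw [mul_assoc]; exact Dvd.intro _ rfl)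
      obtain ⟨B₁, hB₁⟩ := hC₁
      by_cases hB₁0 : B₁ = 0
      · exact Sol.of_sq (C := C₁) (by rw [hB₁0] at hB₁; linear_combination -hB₁)
      obtain ⟨B₂, m, hsq, hm, hB₂, hB₂0, hB₂d⟩ := exists_squarefree_mul_sq B₁ hB₁0
      have hrel : B * B₂ * m ^ 2 = C₁ ^ 2 - A := by rw [hB₁, hB₂]; ring
      have hdegB₁ : B₁.natDegree < B.natDegree := by
        have e1 : (B * B₁).natDegree = B.natDegree + B₁.natDegree := natDegree_mul hBne hB₁0
        have e2 : (B * B₁).natDegree ≤ max (2 * C₁.natDegree) A.natDegree := by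
          rw [← hB₁]
          refine (natDegree_sub_le _ _).trans ?_
          exact max_le_max (natDegree_pow_le) le_rfl
        rcases le_max_iff.mp e2 with h | h <;> omega
      refine Sol.transfer hrel hB₂0 hm ?_
      have hprime : ∀ p : k[X], Irreducible p → Prime p := fun p hp => hp.prime
      apply ih A B₂ (by omega) hA hsq hAne hB₂0
      · intro p hp hpB
        exact ⟨C₁, by rw [← hrel]; exact ((hpB.mul_left B).mul_right (m ^ 2))⟩
      · intro p hp hpA
        obtain ⟨A₁, hA₁⟩ := hpA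
        have hpr := hprime p hp
        have hA₁p : ¬ p ∣ A₁ := by
          rintro ⟨A', rfl⟩
          exact hp.not_isUnit (hA p ⟨A', by rw [hA₁]; ring⟩)
        by_cases hpB : p ∣ B
        · obtain ⟨B', hB'⟩ := hpB
          -- `p ∣ C₁`
          have hpC : p ∣ C₁ := by
            apply hpr.dvd_of_dvd_pow (n := 2)
            have : C₁ ^ 2 = p * (B' * B₂ * m ^ 2 + A₁) := by
              have := hrel; rw [hA₁, hB'] at this; linear_combination -this
            exact ⟨_, this⟩
          obtain ⟨C₂, hC₂⟩ := hpC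
          have e1 : p * C₂ ^ 2 - A₁ = B' * B₂ * m ^ 2 := by
            have h := hrel
            rw [hA₁, hB', hC₂] at h
            have : p * (p * C₂ ^ 2 - A₁ - B' * B₂ * m ^ 2) = 0 := by linear_combination -h
            rcases mul_eq_zero.mp this with h | h
            · exact absurd h hp.ne_zero
            · linear_combination h
          obtain ⟨E, hE⟩ := h3 p A₁ B' hp hA₁ hB'
          -- `p ∤ m`, `p ∤ B'`
          have hnd : ¬ p ∣ B' * m := by
            intro hd
            apply hA₁p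
            have : A₁ = p * C₂ ^ 2 - (B' * m) * (B₂ * m) := by linear_combination -e1
            rw [this]
            exact dvd_sub (Dvd.intro _ rfl) (hd.mul_right _)
          have hcop : IsCoprime p (B' * m) := (hp.coprime_iff_not_dvd).mpr hnd
          obtain ⟨u, v, huv⟩ := hcop
          refine ⟨E * v, ?_⟩
          -- `(E v)² - B₂ = ...`; multiply by `(B' m)²`
          have hcop2 : IsCoprime p ((B' * m) ^ 2) := IsCoprime.pow_right ⟨u, v, huv⟩
          apply hcop2.dvd_of_dvd_mul_right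
          obtain ⟨w, hw⟩ := hE
          have : ((E * v) ^ 2 - B₂) * (B' * m) ^ 2
              = p * (w - B' * C₂ ^ 2 + E ^ 2 * (u ^ 2 * p - 2 * u)) := by
            have hv : v * (B' * m) = 1 - u * p := by linear_combination huv
            have : ((E * v) ^ 2 - B₂) * (B' * m) ^ 2
              = E ^ 2 * (v * (B' * m)) ^ 2 - B' * (B' * B₂ * m ^ 2) := by ring
            rw [this, hv, ← e1]
            linear_combination hw
          exact ⟨_, this⟩
        · obtain ⟨E, hE⟩ := h2 p hp ⟨A₁, hA₁⟩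
          -- `p ∤ E`
          have hpE : ¬ p ∣ E := by
            intro hd
            apply hpB
            have : B = E * E - (E ^ 2 - B) := by ring
            rw [this]; exact dvd_sub (hd.mul_right _) hE
          have hpm : ¬ p ∣ m := by
            rintro ⟨m', hm'⟩
            have hpC : p ∣ C₁ := by
              apply hpr.dvd_of_dvd_pow (n := 2)
              have : C₁ ^ 2 = p * (B * B₂ * m' ^ 2 * p + A₁) := by
                have := hrel; rw [hA₁, hm'] at this; linear_combination -this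
              exact ⟨_, this⟩
            obtain ⟨C₂, hC₂⟩ := hpC
            apply hA₁p
            have h := hrel
            rw [hA₁, hm', hC₂] at h
            have : p * (A₁ - p * (C₂ ^ 2 - B * B₂ * m' ^ 2)) = 0 := by linear_combination h
            rcases mul_eq_zero.mp this with h | h
            · exact absurd h hp.ne_zero
            · exact ⟨_, sub_eq_zero.mp h⟩
          have hnd : ¬ p ∣ E * m := fun h => (hpr.dvd_or_dvd h).elim hpE hpm
          obtain ⟨u, v, huv⟩ := (hp.coprime_iff_not_dvd).mpr hnd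
          refine ⟨C₁ * v, ?_⟩
          have hcop2 : IsCoprime p ((E * m) ^ 2) := IsCoprime.pow_right ⟨u, v, huv⟩
          apply hcop2.dvd_of_dvd_mul_right
          obtain ⟨w, hw⟩ := hE
          have : ((C₁ * v) ^ 2 - B₂) * (E * m) ^ 2
              = p * (A₁ - w * B₂ * m ^ 2 + C₁ ^ 2 * (u ^ 2 * p - 2 * u)) := by
            have hv : v * (E * m) = 1 - u * p := by linear_combination huv
            have : ((C₁ * v) ^ 2 - B₂) * (E * m) ^ 2
              = C₁ ^ 2 * (v * (E * m)) ^ 2 - B₂ * E ^ 2 * m ^ 2 := by ring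
            rw [this, hv]
            linear_combination hrel.symm + hA₁ - B₂ * m ^ 2 * hw
          exact ⟨_, this⟩
      · intro p A₁ B₃ hp hA₁ hB₃
        have hpr := hprime p hp
        have hA₁p : ¬ p ∣ A₁ := by
          rintro ⟨A', rfl⟩
          exact hp.not_isUnit (hA p ⟨A', by rw [hA₁]; ring⟩)
        have hpC : p ∣ C₁ := by
          apply hpr.dvd_of_dvd_pow (n := 2)
          have : C₁ ^ 2 = p * (B * B₃ * m ^ 2 + A₁) := by
            have := hrel; rw [hA₁, hB₃] at this; linear_combination -this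
          exact ⟨_, this⟩
        obtain ⟨C₂, hC₂⟩ := hpC
        have e1 : p * C₂ ^ 2 - A₁ = B * B₃ * m ^ 2 := by
          have h := hrel
          rw [hA₁, hB₃, hC₂] at h
          have : p * (p * C₂ ^ 2 - A₁ - B * B₃ * m ^ 2) = 0 := by linear_combination -h
          rcases mul_eq_zero.mp this with h | h
          · exact absurd h hp.ne_zero
          · linear_combination h
        obtain ⟨E, hE⟩ := h2 p hp ⟨A₁, hA₁⟩
        obtain ⟨w, hw⟩ := hE
        refine ⟨E * B₃ * m, ?_⟩
        have : (E * B₃ * m) ^ 2 + A₁ * B₃ = p * (w * (B₃ * m) ^ 2 + C₂ ^ 2 * B₃) := by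
          linear_combination (B₃ * m) ^ 2 * hw + B₃ * (-e1)
        exact ⟨_, this⟩
      · -- infinitely many specialisations
        have hfin : {s : k | (B.eval s) * (B₂.eval s) * (m.eval s) = 0}.Finite := by
          have hne : B * B₂ * m ≠ 0 := mul_ne_zero (mul_ne_zero hBne hB₂0) hm
          refine (B * B₂ * m).rootSet_finite k |>.subset ?_
          intro s hs
          rw [mem_rootSet]
          exact ⟨hne, by simpa using hs⟩
        refine (h4.diff hfin).mono ?_
        rintro s ⟨hs, hs'⟩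
        simp only [Set.mem_setOf_eq, mul_eq_zero, not_or] at hs'
        refine Sol.transfer' (B := B.eval s) (C := C₁.eval s) (m := m.eval s) ?_ hs'.1.1 hs'.2 hs
        have := congrArg (Polynomial.eval s) hrel
        simpa using this
    intro A B hdeg hA hB hAne hBne h1 h2 h3 h4
    rcases le_total A.natDegree B.natDegree with h | h
    · by_cases h0 : 0 < B.natDegree
      · exact key A B h h0 hdeg hA hB hAne hBne h1 h2 h3 h4
      · exact ih A B (by omega) hA hB hAne hBne h1 h2 h3 h4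
    · by_cases h0 : 0 < A.natDegree
      · refine (key B A h h0 (by omega) hB hA hBne hAne h2 h1 ?_ ?_).symm
        · intro p B₁ A₁ hp hB₁ hA₁
          obtain ⟨C, hC⟩ := h3 p A₁ B₁ hp hA₁ hB₁
          exact ⟨C, by rwa [mul_comm B₁]⟩
        · refine h4.mono fun s hs => ?_
          exact Sol.symm hs
      · exact ih A B (by omega) hA hB hAne hBne h1 h2 h3 h4

/-- **Legendre's theorem** over `k[s]`. -/
theorem legendre (A B : k[X]) (hA : Squarefree A) (hB : Squarefree B) (hA0 : A ≠ 0) (hB0 : B ≠ 0)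
    (h1 : ∀ p, Irreducible p → p ∣ B → ∃ C, p ∣ C ^ 2 - A)
    (h2 : ∀ p, Irreducible p → p ∣ A → ∃ C, p ∣ C ^ 2 - B)
    (h3 : ∀ p A₁ B₁, Irreducible p → A = p * A₁ → B = p * B₁ → ∃ C, p ∣ C ^ 2 + A₁ * B₁)
    (h4 : {s : k | Sol (A.eval s) (B.eval s)}.Infinite) : Sol A B :=
  legendre_aux _ A B le_rfl hA hB hA0 hB0 h1 h2 h3 h4

end Run7.h334
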