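import Pool.Agent.Run7.h334.Final2

/-!
# Rational points and R-equivalence
-/

namespace Run7.h334

open Polynomial Matrix

section Fibre

variable {k : Type*} [Field k] [CharZero k]

theorem prop_of_orth (M : Matrix (Fin 3) (Fin 3) k) (hM : M.IsSymm) (hD : M.det ≠ 0)
    {z b : Fin 3 → k} (hz : z ≠ 0) (hb : b ≠ 0) (hzz : z ⬝ᵥ M *ᵥ z = 0)
    (hbb : b ⬝ᵥ M *ᵥ b = 0) (hzb : z ⬝ᵥ M *ᵥ b = 0) : ∃ μ : k, μ ≠ 0 ∧ ∀ i, b i = μ * z i := by
  have h10 : M 1 0 = M 0 1 := hM.apply 0 1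
  have h20 : M 2 0 = M 0 2 := hM.apply 0 2
  have h21 : M 2 1 = M 1 2 := hM.apply 1 2
  have hdet : ∀ y : Fin 3 → k, (Matrix.of ![z, b, y]).det = 0 := by
    intro y
    set g : Matrix (Fin 3) (Fin 3) k := Matrix.of ![z, b, y] with hg
    have h1 : (g * M * gᵀ).det = 0 := by
      simp only [dotProduct, mulVec, Fin.sum_univ_three, h10, h20, h21] at hzz hbb hzb
      have e00 : (g * M * gᵀ) 0 0 = 0 := by
        simp only [hg, Matrix.mul_apply, Matrix.transpose_apply, Matrix.of_apply,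
          Fin.sum_univ_three, Matrix.cons_val_zero, h10, h20, h21]
        linear_combination hzz
      have e11 : (g * M * gᵀ) 1 1 = 0 := by
        simp only [hg, Matrix.mul_apply, Matrix.transpose_apply, Matrix.of_apply,
          Fin.sum_univ_three, Matrix.cons_val_one, Matrix.cons_val_zero, h10, h20, h21]
        linear_combination hbb
      have e01 : (g * M * gᵀ) 0 1 = 0 := by
        simp only [hg, Matrix.mul_apply, Matrix.transpose_apply, Matrix.of_apply,
          Fin.sum_univ_three, Matrix.cons_val_one, Matrix.cons_val_zero, h10, h20, h21]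
        linear_combination hzb
      have e10 : (g * M * gᵀ) 1 0 = 0 := by
        simp only [hg, Matrix.mul_apply, Matrix.transpose_apply, Matrix.of_apply,
          Fin.sum_univ_three, Matrix.cons_val_one, Matrix.cons_val_zero, h10, h20, h21]
        linear_combination hzb
      rw [det_fin_three, e00, e01, e10, e11]; ring
    rw [Matrix.det_mul, Matrix.det_mul, Matrix.det_transpose] at h1
    have h2 : g.det * g.det = 0 := by
      have : (g.det * g.det) * M.det = 0 := by linear_combination h1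
      exact (mul_eq_zero.mp this).resolve_right hD
    rcases mul_eq_zero.mp h2 with h | h <;> exact h
  have m0 := hdet ![1, 0, 0]
  have m1 := hdet ![0, 1, 0]
  have m2 := hdet ![0, 0, 1]
  simp only [det_fin_three, Matrix.of_apply, Matrix.cons_val_zero, Matrix.cons_val_one,
    Matrix.cons_val] at m0 m1 m2
  obtain ⟨i, hi⟩ := Function.ne_iff.mp hz
  simp only [Pi.zero_apply] at hi
  have hμ : ∀ j, b j = b i / z i * z j := by
    intro j
    fin_cases i <;> fin_cases j <;> simp only [Fin.zero_eta, Fin.mk_one, Fin.reduceFinMk] at hi ⊢ <;>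
      field_simp <;>
      first
        | ring1
        | linear_combination m0
        | linear_combination -m0
        | linear_combination m1
        | linear_combination -m1
        | linear_combination m2
        | linear_combination -m2
  refine ⟨b i / z i, ?_, hμ⟩
  intro h0
  apply hb
  funext j
  rw [hμ j, h0, zero_mul]; rfl

/-- two points of a fibre are linked by a curve in the fibre -/
theorem fibre_curve (M : Matrix (Fin 3) (Fin 3) k) (hM : M.IsSymm) (hD : M.det ≠ 0)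
    {z b : Fin 3 → k} (hz : z ≠ 0) (hb : b ≠ 0) (hzz : z ⬝ᵥ M *ᵥ z = 0)
    (hbb : b ⬝ᵥ M *ᵥ b = 0) : ∃ W : Fin 3 → k[X], W ⬝ᵥ (M.map C) *ᵥ W = 0 ∧
      (∃ μ : k, μ ≠ 0 ∧ ∀ i, (W i).eval 0 = μ * z i) ∧
      (∃ μ : k, μ ≠ 0 ∧ ∀ i, (W i).eval 1 = μ * b i) := by
  by_cases hzb : z ⬝ᵥ M *ᵥ b = 0
  · obtain ⟨μ, hμ, hμ'⟩ := prop_of_orth M hM hD hz hb hzz hbb hzb
    refine ⟨fun i => C (z i), ?_, ⟨1, one_ne_zero, fun i => by simp⟩,
      ⟨μ⁻¹, inv_ne_zero hμ, fun i => by rw [hμ' i, eval_C]; field_simp⟩⟩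
    have e3 : ∀ i j, (M.map C) i j = Polynomial.C (M i j) := fun i j => rfl
    simp only [dotProduct, mulVec, Fin.sum_univ_three, e3]
    simp only [← Polynomial.C_mul, ← Polynomial.C_add]
    rw [← Polynomial.C_0]
    congr 1
    simpa [dotProduct, mulVec, Fin.sum_univ_three] using hzz
  have h10 : M 1 0 = M 0 1 := hM.apply 0 1
  have h20 : M 2 0 = M 0 2 := hM.apply 0 2
  have h21 : M 2 1 = M 1 2 := hM.apply 1 2
  -- a tangent vector
  obtain ⟨y, hy1, hy2⟩ : ∃ y : Fin 3 → k, z ⬝ᵥ M *ᵥ y = 0 ∧ y ⬝ᵥ M *ᵥ y ≠ 0 := by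
    obtain ⟨i, hi⟩ := Function.ne_iff.mp hz
    simp only [Pi.zero_apply] at hi
    set n0 := M 0 0 * z 0 + M 0 1 * z 1 + M 0 2 * z 2 with hn0
    set n1 := M 0 1 * z 0 + M 1 1 * z 1 + M 1 2 * z 2 with hn1
    set n2 := M 0 2 * z 0 + M 1 2 * z 1 + M 2 2 * z 2 with hn2
    have hDeq : M.det = M 0 0 * M 1 1 * M 2 2 - M 0 0 * M 1 2 ^ 2 - M 0 1 ^ 2 * M 2 2
        + 2 * M 0 1 * M 1 2 * M 0 2 - M 0 2 ^ 2 * M 1 1 := by
      rw [det_fin_three, h10, h20, h21]; ring
    simp only [dotProduct, mulVec, Fin.sum_univ_three, h10, h20, h21] at hzz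
    have key : ∀ (y : Fin 3 → k) (i : Fin 3), z i ≠ 0 → n0 * y 0 + n1 * y 1 + n2 * y 2 = 0 →
        y ⬝ᵥ M *ᵥ y = -(M.det * z i ^ 2) → z ⬝ᵥ M *ᵥ y = 0 ∧ y ⬝ᵥ M *ᵥ y ≠ 0 := by
      intro y i hzi h1 h2
      refine ⟨?_, ?_⟩
      · simp only [dotProduct, mulVec, Fin.sum_univ_three, h10, h20, h21]
        rw [hn0, hn1, hn2] at h1
        linear_combination h1
      · rw [h2, neg_ne_zero]
        exact mul_ne_zero hD (pow_ne_zero _ hzi)
    fin_cases i
    · refine ⟨![0, n2, -n1], key _ 0 hi ?_ ?_⟩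
      · simp; ring
      · rw [hDeq]
        simp only [dotProduct, mulVec, Fin.sum_univ_three, h10, h20, h21, Matrix.cons_val_zero,
          Matrix.cons_val_one, Matrix.cons_val, hn1, hn2]
        linear_combination (M 1 1 * M 2 2 - M 1 2 ^ 2) * hzz
    · refine ⟨![-n2, 0, n0], key _ 1 hi ?_ ?_⟩
      · simp; ring
      · rw [hDeq]
        simp only [dotProduct, mulVec, Fin.sum_univ_three, h10, h20, h21, Matrix.cons_val_zero,
          Matrix.cons_val_one, Matrix.cons_val, hn0, hn2]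
        linear_combination (M 0 0 * M 2 2 - M 0 2 ^ 2) * hzz
    · refine ⟨![n1, -n0, 0], key _ 2 hi ?_ ?_⟩
      · simp; ring
      · rw [hDeq]
        simp only [dotProduct, mulVec, Fin.sum_univ_three, h10, h20, h21, Matrix.cons_val_zero,
          Matrix.cons_val_one, Matrix.cons_val, hn0, hn1]
        linear_combination (M 0 0 * M 1 1 - M 0 1 ^ 2) * hzz
  let Y : Fin 3 → k[X] := fun i => C (y i) * (1 - X) + C (b i) * X
  let Mp : Matrix (Fin 3) (Fin 3) k[X] := M.map C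
  let zC : Fin 3 → k[X] := fun i => C (z i)
  have hzzC : zC ⬝ᵥ Mp *ᵥ zC = 0 := by
    have e3 : ∀ i j, Mp i j = Polynomial.C (M i j) := fun i j => rfl
    simp only [dotProduct, mulVec, Fin.sum_univ_three, e3, zC]
    simp only [← Polynomial.C_mul, ← Polynomial.C_add]
    rw [← Polynomial.C_0]
    congr 1
    simpa [dotProduct, mulVec, Fin.sum_univ_three] using hzz
  have hMp10 : Mp 1 0 = Mp 0 1 := congrArg C h10
  have hMp20 : Mp 2 0 = Mp 0 2 := congrArg C h20
  have hMp21 : Mp 2 1 = Mp 1 2 := congrArg C h21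
  refine ⟨fun i => (Y ⬝ᵥ Mp *ᵥ Y) * zC i - 2 * (zC ⬝ᵥ Mp *ᵥ Y) * Y i, ?_, ?_, ?_⟩
  · have : ∀ (u v : Fin 3 → k[X]), u ⬝ᵥ Mp *ᵥ u = 0 →
        (fun i => (v ⬝ᵥ Mp *ᵥ v) * u i - 2 * (u ⬝ᵥ Mp *ᵥ v) * v i) ⬝ᵥ Mp *ᵥ
        (fun i => (v ⬝ᵥ Mp *ᵥ v) * u i - 2 * (u ⬝ᵥ Mp *ᵥ v) * v i) = 0 := by
      intro u v hu
      have e : (fun i => (v ⬝ᵥ Mp *ᵥ v) * u i - 2 * (u ⬝ᵥ Mp *ᵥ v) * v i) ⬝ᵥ Mp *ᵥ
        (fun i => (v ⬝ᵥ Mp *ᵥ v) * u i - 2 * (u ⬝ᵥ Mp *ᵥ v) * v i) =
        (v ⬝ᵥ Mp *ᵥ v) ^ 2 * (u ⬝ᵥ Mp *ᵥ u) := by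
        simp only [dotProduct, mulVec, Fin.sum_univ_three, hMp10, hMp20, hMp21]
        ring
      rw [e, hu, mul_zero]
    exact this zC Y hzzC
  · refine ⟨y ⬝ᵥ M *ᵥ y, hy2, ?_⟩
    intro i
    have e1 : ∀ j, (Y j).eval 0 = y j := by intro j; simp [Y]
    have e2 : ∀ i j, (Mp i j).eval 0 = M i j := by intro i j; simp [Mp]
    have e3 : ∀ j, (zC j).eval 0 = z j := by intro j; simp [zC]
    simp only [dotProduct, mulVec, Fin.sum_univ_three] at hy1
    simp only [dotProduct, mulVec, Fin.sum_univ_three, eval_sub, eval_mul, eval_add, e1, e2, e3,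
      eval_ofNat]
    linear_combination -(2 * y i) * hy1
  · refine ⟨-(2 * (z ⬝ᵥ M *ᵥ b)), neg_ne_zero.mpr (mul_ne_zero two_ne_zero hzb), ?_⟩
    intro i
    have e1 : ∀ j, (Y j).eval 1 = b j := by intro j; simp [Y]
    have e2 : ∀ i j, (Mp i j).eval 1 = M i j := by intro i j; simp [Mp]
    have e3 : ∀ j, (zC j).eval 1 = z j := by intro j; simp [zC]
    simp only [dotProduct, mulVec, Fin.sum_univ_three] at hbb
    simp only [dotProduct, mulVec, Fin.sum_univ_three, eval_sub, eval_mul, eval_add, e1, e2, e3,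
      eval_ofNat]
    linear_combination (z i) * hbb

/-- a base point of the fibre to which all points are linked -/
theorem fibre_base (M : Matrix (Fin 3) (Fin 3) k) (hM : M.IsSymm) (hI : Iso M) :
    ∃ b : Fin 3 → k, b ≠ 0 ∧ b ⬝ᵥ M *ᵥ b = 0 ∧ ∀ z : Fin 3 → k, z ≠ 0 → z ⬝ᵥ M *ᵥ z = 0 →
      ∃ W : Fin 3 → k[X], W ⬝ᵥ (M.map C) *ᵥ W = 0 ∧
      (∃ μ : k, μ ≠ 0 ∧ ∀ i, (W i).eval 0 = μ * z i) ∧
      (∃ μ : k, μ ≠ 0 ∧ ∀ i, (W i).eval 1 = μ * b i) := by
  by_cases hD : M.det = 0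
  · obtain ⟨n, hn0, hn⟩ := (Matrix.exists_mulVec_eq_zero_iff).mpr hD
    refine ⟨n, hn0, by rw [hn]; simp, ?_⟩
    intro z hz hzz
    refine ⟨fun i => C (z i) * (1 - X) + C (n i) * X, ?_, ⟨1, one_ne_zero, fun i => by simp⟩,
      ⟨1, one_ne_zero, fun i => by simp⟩⟩
    have h10 : M 1 0 = M 0 1 := hM.apply 0 1
    have h20 : M 2 0 = M 0 2 := hM.apply 0 2
    have h21 : M 2 1 = M 1 2 := hM.apply 1 2
    have hn' : ∀ i, C (M i 0) * C (n 0) + C (M i 1) * C (n 1) + C (M i 2) * C (n 2) = 0 := by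
      intro i
      have h1 := congrFun hn i
      simp only [mulVec, dotProduct, Fin.sum_univ_three, Pi.zero_apply] at h1
      rw [← C_mul, ← C_mul, ← C_mul, ← C_add, ← C_add, h1, C_0]
    have hzz' : C (z 0) * (C (M 0 0) * C (z 0) + C (M 0 1) * C (z 1) + C (M 0 2) * C (z 2)) +
        C (z 1) * (C (M 1 0) * C (z 0) + C (M 1 1) * C (z 1) + C (M 1 2) * C (z 2)) +
        C (z 2) * (C (M 2 0) * C (z 0) + C (M 2 1) * C (z 1) + C (M 2 2) * C (z 2)) = 0 := by
      simp only [mulVec, dotProduct, Fin.sum_univ_three] at hzz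
      simp only [← C_mul, ← C_add]
      rw [hzz, C_0]
    have n0 := hn' 0
    have n1 := hn' 1
    have n2 := hn' 2
    have e3 : ∀ i j, (M.map C) i j = Polynomial.C (M i j) := fun i j => rfl
    simp only [dotProduct, mulVec, Fin.sum_univ_three, e3]
    rw [h10, h20, h21] at *
    linear_combination (1 - X) ^ 2 * hzz' +
      (2 * X * (1 - X) * C (z 0) + X ^ 2 * C (n 0)) * n0 +
      (2 * X * (1 - X) * C (z 1) + X ^ 2 * C (n 1)) * n1 +
      (2 * X * (1 - X) * C (z 2) + X ^ 2 * C (n 2)) * n2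
  · obtain ⟨b, hb, hbb⟩ := hI
    exact ⟨b, hb, hbb, fun z hz hzz => fibre_curve M hM hD hz hb hzz hbb⟩

/-- primitive vectors -/
theorem exists_primitive_aux (n : ℕ) : ∀ z : Fin 3 → k[X],
    (z 0).natDegree + (z 1).natDegree + (z 2).natDegree ≤ n → z ≠ 0 →
    ∃ (h : k[X]) (w : Fin 3 → k[X]), h ≠ 0 ∧ (∀ i, z i = h * w i) ∧
      ∀ s : k, (fun i => (w i).eval s) ≠ 0 := by
  induction n with
  | zero =>
    intro z hd hz
    refine ⟨1, z, one_ne_zero, fun i => by ring, ?_⟩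
    intro s h0
    apply hz
    funext i
    have h1 : (z i).natDegree = 0 := by fin_cases i <;> simp <;> omega
    rw [eq_C_of_natDegree_eq_zero h1]
    have h2 := congrFun h0 i
    simp only [Pi.zero_apply] at h2
    rw [eq_C_of_natDegree_eq_zero h1, eval_C] at h2
    rw [h2]; simp
  | succ n ih =>
    intro z hd hz
    by_cases hs : ∀ s : k, (fun i => (z i).eval s) ≠ 0
    · exact ⟨1, z, one_ne_zero, fun i => by ring, hs⟩
    push Not at hs
    obtain ⟨s, hzs⟩ := hs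
    have hdvd : ∀ i, (X - C s) ∣ z i := fun i => dvd_iff_isRoot.mpr (congrFun hzs i)
    choose w hw using hdvd
    have hne : (X - C s : k[X]) ≠ 0 := X_sub_C_ne_zero s
    have hw0 : w ≠ 0 := by
      rintro rfl
      apply hz; funext i; rw [hw i]; simp
    have hd' : ∀ i, w i ≠ 0 → (z i).natDegree = 1 + (w i).natDegree := by
      intro i hi
      rw [hw i, natDegree_mul hne hi, natDegree_X_sub_C]
    have hle : ∀ i, (w i).natDegree ≤ (z i).natDegree := by
      intro i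
      by_cases hi : w i = 0
      · rw [hi]; simp
      · rw [hd' i hi]; omega
    have hdeg : (w 0).natDegree + (w 1).natDegree + (w 2).natDegree ≤ n := by
      obtain ⟨i, hi⟩ := Function.ne_iff.mp hw0
      have h1 := hd' i hi
      have l0 := hle 0
      have l1 := hle 1
      have l2 := hle 2
      fin_cases i <;> simp at h1 <;> omega
    obtain ⟨h, v, hh, hv, hv'⟩ := ih w hdeg hw0
    exact ⟨(X - C s) * h, v, mul_ne_zero hne hh, fun i => by rw [hw i, hv i]; ring, hv'⟩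

end Fibre

section Points

variable {k : Type*} [Field k] {ι : Type*} {a : ι → Fin 3 → ℕ} {e : ι → ℕ}

/-- A `k`-point of `X_C`, given by homogeneous coordinates `x` on the projective line and
`z l` on the `l`-th plane bundle. -/
structure Pt (C : Coeffs k ι a e) where
  x : Fin 2 → k
  z : ι → Fin 3 → k
  x_ne : x ≠ 0
  z_ne : ∀ l, z l ≠ 0
  eq : ∀ l, qform C l x (z l) = 0

/-- The values at `s` of the polynomials `Φ`, `Z` are homogeneous coordinates of the point `P`. -/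
def Rep {C : Coeffs k ι a e} (Φ : Fin 2 → k[X]) (Z : ι → Fin 3 → k[X]) (s : k) (P : Pt C) : Prop :=
  ∃ (r : k) (μ : ι → k), r ≠ 0 ∧ (∀ l, μ l ≠ 0) ∧ (∀ i, (Φ i).eval s = r * P.x i) ∧
    ∀ l i, r ^ a l i * (Z l i).eval s = μ l * P.z l i

/-- `P` and `P'` are directly R-linked. -/
def Link (C : Coeffs k ι a e) (P P' : Pt C) : Prop :=
  ∃ (Φ : Fin 2 → k[X]) (Z : ι → Fin 3 → k[X]) (s s' : k),
    (∀ l, qform C l Φ (Z l) = 0) ∧ Rep Φ Z s P ∧ Rep Φ Z s' P'

/-- The set `X_C(k)/R`. -/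
def RClasses (C : Coeffs k ι a e) : Type _ := Quot (Link C)

theorem qform_zero_iff [CharZero k] {R : Type*} [CommRing R] [IsDomain R] [Algebra k R]
    [CharZero R] (C : Coeffs k ι a e) (l : ι)
    (x : Fin 2 → R) (z : Fin 3 → R) : qform C l x z = 0 ↔ z ⬝ᵥ Mat C l x *ᵥ z = 0 := by
  rw [← qform_eq]
  constructor
  · intro h; rw [h, mul_zero]
  · intro h; exact (mul_eq_zero.mp h).resolve_left two_ne_zero

theorem qform_map {R R' : Type*} [CommRing R] [Algebra k R] [CommRing R'] [Algebra k R']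
    (φ : R →ₐ[k] R') (C : Coeffs k ι a e) (l : ι) (x : Fin 2 → R) (z : Fin 3 → R) :
    φ (qform C l x z) = qform C l (fun i => φ (x i)) (fun i => φ (z i)) := by
  simp [qform, bform_map]

theorem qform_smul {R : Type*} [CommRing R] [Algebra k R] (C : Coeffs k ι a e) (l : ι) (r : R)
    (x : Fin 2 → R) (z : Fin 3 → R) :
    qform C l (fun i => r * x i) z = r ^ e l * qform C l x (fun i => r ^ a l i * z i) := by
  simp only [qform, bform_smul, Finset.mul_sum, pow_add]
  refine Finset.sum_congr rfl fun i _ => Finset.sum_congr rfl fun j _ => ?_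
  ring

theorem qform_smul_right {R : Type*} [CommRing R] [Algebra k R] (C : Coeffs k ι a e) (l : ι)
    (r : R) (x : Fin 2 → R) (z : Fin 3 → R) :
    qform C l x (fun i => r * z i) = r ^ 2 * qform C l x z := by
  simp only [qform, Finset.mul_sum]
  refine Finset.sum_congr rfl fun i _ => Finset.sum_congr rfl fun j _ => ?_
  ring

variable [CharZero k]

theorem Mat_C (C : Coeffs k ι a e) (l : ι) (x : Fin 2 → k) :
    Mat C l (fun i => Polynomial.C (x i)) = (Mat C l x).map Polynomial.C := by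
  have e1 := Mat_map (Algebra.ofId k k[X]) C l x
  exact e1.symm

/-- points over the same base point are R-equivalent -/
theorem mk_eq_of_same {C : Coeffs k ι a e} (P P' : Pt C) (h : P.x = P'.x) :
    (Quot.mk (Link C) P) = Quot.mk (Link C) P' := by
  have hiso : ∀ l, Iso (Mat C l P.x) := fun l =>
    ⟨P.z l, P.z_ne l, (qform_zero_iff C l P.x (P.z l)).mp (P.eq l)⟩
  choose b hb hbb hbW using fun l => fibre_base (Mat C l P.x) (Mat_isSymm C l P.x) (hiso l)
  let B : Pt C := ⟨P.x, b, P.x_ne, hb, fun l => (qform_zero_iff C l P.x (b l)).mpr (hbb l)⟩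
  have key : ∀ Q : Pt C, Q.x = P.x → (Quot.mk (Link C) Q) = Quot.mk (Link C) B := by
    intro Q hQ
    apply Quot.sound
    have hW : ∀ l, ∃ W : Fin 3 → k[X], W ⬝ᵥ ((Mat C l P.x).map Polynomial.C) *ᵥ W = 0 ∧
      (∃ μ : k, μ ≠ 0 ∧ ∀ i, (W i).eval 0 = μ * Q.z l i) ∧
      (∃ μ : k, μ ≠ 0 ∧ ∀ i, (W i).eval 1 = μ * b l i) := by
      intro l
      apply hbW l (Q.z l) (Q.z_ne l)
      rw [← hQ]
      exact (qform_zero_iff C l Q.x (Q.z l)).mp (Q.eq l)
    choose W hW1 hW2 hW3 using hW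
    choose μ hμ hμ' using hW2
    choose ν hν hν' using hW3
    refine ⟨fun i => Polynomial.C (P.x i), W, 0, 1, ?_, ⟨1, μ, one_ne_zero, hμ, ?_, ?_⟩,
      ⟨1, ν, one_ne_zero, hν, ?_, ?_⟩⟩
    · intro l
      rw [qform_zero_iff, Mat_C]
      exact hW1 l
    · intro i; rw [hQ]; simp
    · intro l i; rw [one_pow, one_mul]; exact hμ' l i
    · intro i; simp [B]
    · intro l i; rw [one_pow, one_mul]; exact hν' l i
  rw [key P rfl, key P' h.symm]

/-- links on the base lift -/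
theorem mk_eq_of_LB {C : Coeffs k ι a e} (P P' : Pt C) (h : LB C P.x P'.x) :
    (Quot.mk (Link C) P) = Quot.mk (Link C) P' := by
  obtain ⟨Φ, s, s', r, r', hr, hr', h1, h2, h3⟩ := h
  have hZ : ∀ l, ∃ w : Fin 3 → k[X], qform C l Φ w = 0 ∧ ∀ s : k, (fun i => (w i).eval s) ≠ 0 := by
    intro l
    obtain ⟨z, hz, hzz⟩ := h3 l
    obtain ⟨h, w, hh, hw, hw'⟩ := exists_primitive_aux _ z le_rfl hz
    refine ⟨w, ?_, hw'⟩
    have hz2 := (qform_zero_iff C l Φ z).mpr hzz
    have e1 : z = fun i => h * w i := funext hw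
    rw [e1, qform_smul_right] at hz2
    exact (mul_eq_zero.mp hz2).resolve_left (pow_ne_zero _ hh)
  choose w hw1 hw2 using hZ
  have hpt : ∀ (t u : k) (y : Fin 2 → k), u ≠ 0 → (∀ i, (Φ i).eval t = u * y i) →
      ∀ l, qform C l y (fun i => u ^ a l i * (w l i).eval t) = 0 := by
    intro t u y hu hy l
    have e1 := qform_map (aeval t : k[X] →ₐ[k] k) C l Φ (w l)
    rw [hw1 l, map_zero] at e1
    have e2 : (fun i => (aeval t) (Φ i)) = fun i => u * y i := by
      funext i; rw [← hy i]; simp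
    have e3 : (fun i => (aeval t) (w l i)) = fun i => (w l i).eval t := by
      funext i; simp
    rw [e2, e3, qform_smul] at e1
    exact (mul_eq_zero.mp e1.symm).resolve_left (pow_ne_zero _ hu)
  have hne : ∀ (t u : k), u ≠ 0 → ∀ l, (fun i => u ^ a l i * (w l i).eval t) ≠ 0 := by
    intro t u hu l h0
    apply hw2 l t
    funext i
    exact (mul_eq_zero.mp (congrFun h0 i)).resolve_left (pow_ne_zero _ hu)
  let Q : Pt C := ⟨P.x, fun l i => r ^ a l i * (w l i).eval s, P.x_ne, hne s r hr,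
    hpt s r P.x hr h1⟩
  let Q' : Pt C := ⟨P'.x, fun l i => r' ^ a l i * (w l i).eval s', P'.x_ne, hne s' r' hr',
    hpt s' r' P'.x hr' h2⟩
  have hQQ : (Quot.mk (Link C) Q) = Quot.mk (Link C) Q' := by
    apply Quot.sound
    refine ⟨Φ, w, s, s', hw1, ⟨r, fun _ => 1, hr, fun _ => one_ne_zero, h1, ?_⟩,
      ⟨r', fun _ => 1, hr', fun _ => one_ne_zero, h2, ?_⟩⟩
    · intro l i; simp [Q]
    · intro l i; simp [Q']
  rw [mk_eq_of_same P Q rfl, hQQ, mk_eq_of_same Q' P' rfl]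

/-- R-equivalence classes of points correspond to classes of base points. -/
theorem RClasses_equiv (C : Coeffs k ι a e) : Nonempty (RClasses C ≃ ACl C) := by
  classical
  let f : Pt C → APt C := fun P => ⟨P.x, P.x_ne, fun l =>
    ⟨P.z l, P.z_ne l, (qform_zero_iff C l P.x (P.z l)).mp (P.eq l)⟩⟩
  have hg : ∀ x : APt C, ∃ P : Pt C, P.x = x.1 := by
    intro x
    choose z hz hzz using x.2.2
    exact ⟨⟨x.1, z, x.2.1, hz, fun l => (qform_zero_iff C l x.1 (z l)).mpr (hzz l)⟩, rfl⟩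
  choose g hg using hg
  have hf : ∀ P P' : Pt C, Link C P P' → LB C P.x P'.x := by
    rintro P P' ⟨Φ, Z, s, s', h1, ⟨r, μ, hr, hμ, h2, h3⟩, ⟨r', μ', hr', hμ', h2', h3'⟩⟩
    refine ⟨Φ, s, s', r, r', hr, hr', h2, h2', ?_⟩
    intro l
    refine ⟨Z l, ?_, (qform_zero_iff C l Φ (Z l)).mp (h1 l)⟩
    intro h0
    apply P.z_ne l
    funext i
    have := h3 l i
    rw [h0] at this
    simp only [Pi.zero_apply, eval_zero, mul_zero] at this
    exact (mul_eq_zero.mp this.symm).resolve_left (hμ l)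
  let F : RClasses C → ACl C := Quot.map f fun P P' h => hf P P' h
  let G : ACl C → RClasses C := Quot.lift (fun x => Quot.mk (Link C) (g x)) (by
    intro x y hxy
    apply mk_eq_of_LB
    rw [hg, hg]
    exact hxy)
  refine ⟨⟨F, G, ?_, ?_⟩⟩
  · intro q
    induction q using Quot.ind with
    | mk P =>
      apply mk_eq_of_same
      exact hg (f P)
  · intro q
    induction q using Quot.ind with
    | mk x =>
      exact congrArg (Quot.mk _) (Subtype.ext (hg x))

end Points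

end Run7.h334
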