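import Pool.Agent.Run7.h334.Gauss

/-!
# A denominator whose zeros have large residue fields
-/

namespace Run7.h334

open Polynomial IntermediateField

theorem pow_card_le_norm_prod {F : Type*} [NormedField F] (x : F) {r : ℝ} (hr : 0 ≤ r)
    (s : Multiset F) (h : ∀ a ∈ s, r ≤ ‖x - a‖) :
    r ^ Multiset.card s ≤ ‖(s.map (x - ·)).prod‖ := by
  induction s using Multiset.induction_on with
  | empty => simp
  | cons a s ih =>
    rw [Multiset.map_cons, Multiset.prod_cons, norm_mul, Multiset.card_cons, pow_succ,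
      mul_comm (r ^ _)]
    exact mul_le_mul (h a (Multiset.mem_cons_self a s))
      (ih fun b hb => h b (Multiset.mem_cons_of_mem hb)) (by positivity) (norm_nonneg _)

theorem exists_root_close {F : Type*} [NormedField F] (P : F[X]) (hs : P.Splits) (x : F) {r : ℝ}
    (hr : 0 ≤ r) (h : ‖P.eval x‖ < ‖P.leadingCoeff‖ * r ^ P.natDegree) :
    ∃ a ∈ P.roots, ‖x - a‖ < r := by
  by_contra hcon
  push Not at hcon
  have h1 := pow_card_le_norm_prod x hr P.roots hcon
  rw [← hs.natDegree_eq_card_roots] at h1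
  rw [hs.eval_eq_prod_roots x, norm_mul] at h
  have h2 : ‖P.leadingCoeff‖ * r ^ P.natDegree ≤
      ‖P.leadingCoeff‖ * ‖(P.roots.map (x - ·)).prod‖ := by gcongr
  linarith

theorem exists_sep {F : Type*} [NormedField F] (Z : Finset F) :
    ∃ δ : ℝ, 0 < δ ∧ δ ≤ 1 ∧ ∀ e ∈ Z, ∀ e' ∈ Z, e ≠ e' → δ ≤ ‖e - e'‖ := by
  classical
  let T : Finset ℝ := insert 1 (Z.offDiag.image fun p => ‖p.1 - p.2‖)
  have hT : T.Nonempty := ⟨1, Finset.mem_insert_self _ _⟩
  refine ⟨T.min' hT, ?_, T.min'_le 1 (Finset.mem_insert_self _ _), ?_⟩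
  · have := T.min'_mem hT
    rcases Finset.mem_insert.mp this with h | h
    · rw [h]; norm_num
    · obtain ⟨p, hp, hp2⟩ := Finset.mem_image.mp h
      rw [← hp2, norm_pos_iff, sub_ne_zero]
      exact (Finset.mem_offDiag.mp hp).2.2
  · intro e he e' he' hne
    apply T.min'_le
    apply Finset.mem_insert_of_mem
    exact Finset.mem_image.mpr ⟨(e, e'), Finset.mem_offDiag.mpr ⟨he, he', hne⟩, rfl⟩

theorem exists_bound {F : Type*} [NormedField F] (Z : Finset F) :
    ∃ c : ℝ, 1 ≤ c ∧ ∀ e ∈ Z, ‖e‖ ≤ c := by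
  classical
  let T : Finset ℝ := insert 1 (Z.image fun p => ‖p‖)
  have hT : T.Nonempty := ⟨1, Finset.mem_insert_self _ _⟩
  refine ⟨T.max' hT, T.le_max' 1 (Finset.mem_insert_self _ _), ?_⟩
  intro e he
  exact T.le_max' _ (Finset.mem_insert_of_mem (Finset.mem_image.mpr ⟨e, he, rfl⟩))

section

variable {k : Type*} [NontriviallyNormedField k] [CharZero k] {Ω : Type*} [NormedField Ω]
  [NormedAlgebra k Ω] [IsUltrametricDist Ω] [IsAlgClosed Ω] [Algebra.IsAlgebraic k Ω]

omit [CharZero k] [IsUltrametricDist Ω] [Algebra.IsAlgebraic k Ω] in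
variable (k Ω) in
theorem exists_not_mem_range [ProperSpace k] [IsUltrametricDist k] :
    ∃ θ : Ω, θ ∉ Set.range (algebraMap k Ω) := by
  by_contra hcon
  push Not at hcon
  have hcomp : IsCompact (Metric.ball (0 : k) 1) :=
    Metric.isCompact_of_isClosed_isBounded (IsUltrametricDist.isClosed_ball 0 1)
      Metric.isBounded_ball
  obtain ⟨y₀, hy₀, hmax⟩ := hcomp.exists_isMaxOn ⟨0, Metric.mem_ball_self one_pos⟩
    (continuous_norm.continuousOn)
  have hr : ‖y₀‖ < 1 := by simpa using hy₀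
  obtain ⟨π, hπ0, hπ1⟩ := NormedField.exists_norm_lt_one k
  obtain ⟨n, hn⟩ := exists_pow_lt_of_lt_one hπ0 hr
  obtain ⟨z, hz⟩ := IsAlgClosed.exists_pow_nat_eq (algebraMap k Ω π) (Nat.succ_pos n)
  obtain ⟨y, rfl⟩ := hcon z
  rw [← map_pow] at hz
  have hy := (algebraMap k Ω).injective hz
  have hyn : ‖y‖ ^ (n + 1) = ‖π‖ := by rw [← norm_pow]; rw [← hy]
  have hy1 : ‖y‖ < 1 := by
    by_contra h
    push Not at h
    have := one_le_pow₀ h (n := n + 1)
    rw [hyn] at this
    linarith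
  have hy2 : ‖y‖ ≤ ‖y₀‖ := hmax (by simpa using hy1)
  have h3 : ‖π‖ ≤ ‖y₀‖ ^ n := by
    rw [← hyn]
    calc ‖y‖ ^ (n + 1) ≤ ‖y₀‖ ^ (n + 1) := by gcongr
      _ ≤ ‖y₀‖ ^ n := pow_le_pow_of_le_one (norm_nonneg _) hr.le (Nat.le_succ n)
  linarith

omit [IsUltrametricDist Ω] in
/-- a generator of a finite Galois extension containing prescribed elements -/
theorem exists_generator (G : Finset Ω) : ∃ θ : Ω, (∀ g ∈ G, g ∈ k⟮θ⟯) ∧
    ∀ σ : Ω ≃ₐ[k] Ω, θ ∈ k⟮σ θ⟯ := by
  classical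
  let Q : k[X] := ∏ g ∈ G, minpoly k g
  have hQ : Q ≠ 0 := Finset.prod_ne_zero_iff.mpr fun g _ =>
    minpoly.ne_zero (Algebra.IsIntegral.isIntegral g)
  have hG : ∀ g ∈ G, g ∈ Q.rootSet Ω := by
    intro g hg
    rw [mem_rootSet]
    refine ⟨hQ, ?_⟩
    simp only [Q, map_prod]
    exact Finset.prod_eq_zero hg (minpoly.aeval k g)
  let E : IntermediateField k Ω := IntermediateField.adjoin k (Q.rootSet Ω)
  have hfin : Finite (Q.rootSet Ω) := (Q.rootSet_finite Ω).to_subtype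
  have : FiniteDimensional k E :=
    finiteDimensional_adjoin fun x _ => Algebra.IsIntegral.isIntegral x
  obtain ⟨α, hα⟩ := Field.exists_primitive_element k E
  have hE : k⟮(α : Ω)⟯ = E := by
    have := lift_adjoin_simple k E α
    rw [hα, lift_top] at this
    exact this.symm
  -- the fixing property
  have hfix : ∀ τ : Ω ≃ₐ[k] Ω, (τ (α : Ω) = α ↔ ∀ g ∈ Q.rootSet Ω, τ g = g) := by
    intro τ
    constructor
    · intro hτ g hg
      have hgE : g ∈ k⟮(α : Ω)⟯ := by rw [hE]; exact subset_adjoin _ _ hg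
      exact (mem_adjoin_iff _ g).mp hgE τ hτ
    · intro hτ
      have key : ∀ z ∈ IntermediateField.adjoin k (Q.rootSet Ω), τ z = z := by
        intro z hz
        induction hz using IntermediateField.adjoin_induction with
        | mem x hx => exact hτ x hx
        | algebraMap x => exact τ.commutes x
        | add x y _ _ hx hy => rw [map_add, hx, hy]
        | inv x _ hx => rw [map_inv₀, hx]
        | mul x y _ _ hx hy => rw [map_mul, hx, hy]
      exact key _ α.2
  have hstab : ∀ (σ : Ω ≃ₐ[k] Ω), ∀ g ∈ Q.rootSet Ω, σ g ∈ Q.rootSet Ω := by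
    intro σ g hg
    rw [mem_rootSet] at hg ⊢
    refine ⟨hQ, ?_⟩
    rw [aeval_algHom_apply σ, hg.2, map_zero]
  refine ⟨α, ?_, ?_⟩
  · intro g hg
    rw [hE]
    exact subset_adjoin _ _ (hG g hg)
  · intro σ
    rw [mem_adjoin_iff]
    intro τ hτ
    rw [hfix]
    have h1 : (σ.trans (τ.trans σ.symm)) (α : Ω) = α := by
      simp [AlgEquiv.trans_apply, hτ]
    rw [hfix] at h1
    intro g hg
    have h2 := h1 (σ.symm g) (hstab σ.symm g hg)
    simp only [AlgEquiv.trans_apply, AlgEquiv.apply_symm_apply] at h2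
    exact σ.symm.injective h2

/-- The denominator. -/
theorem exists_poles [ProperSpace k] [IsUltrametricDist k]
    (hiso : ∀ (σ : Ω ≃ₐ[k] Ω) (x : Ω), ‖σ x‖ = ‖x‖) (G : Finset Ω) (m : ℕ) :
    ∃ (θ : Ω) (S : k[X]) (c : ℝ), 0 < c ∧ c ≤ 1 ∧ S.Monic ∧ m ≤ S.natDegree ∧
      0 < S.natDegree ∧ (∀ g ∈ G, g ∈ k⟮θ⟯) ∧ θ ∉ Set.range (algebraMap k Ω) ∧
      ∀ x : Fin 2 → Ω, ‖hom S.natDegree S x‖ < c * ‖x‖ ^ S.natDegree →
        x 1 ≠ 0 ∧ θ ∈ k⟮x 0 / x 1⟯ := by
  classical
  obtain ⟨θ₀, hθ₀⟩ := exists_not_mem_range k Ω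
  obtain ⟨θ, hθ1, hθ2⟩ := exists_generator (k := k) (insert θ₀ G)
  have hint : IsIntegral k θ := Algebra.IsIntegral.isIntegral θ
  let P : k[X] := minpoly k θ
  have hP : P.Monic := minpoly.monic hint
  have hPd : 0 < P.natDegree := minpoly.natDegree_pos hint
  let S : k[X] := P ^ (m + 1)
  have hS : S.Monic := hP.pow _
  have hSd : S.natDegree = (m + 1) * P.natDegree := hP.natDegree_pow _
  have hSm : m + 1 ≤ S.natDegree := by rw [hSd]; nlinarith
  have hSsplit : (S.map (algebraMap k Ω)).Splits := IsAlgClosed.splits _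
  have : IsAlgClosure k Ω := ⟨inferInstance, inferInstance⟩
  have : Normal k Ω := IsAlgClosure.normal k Ω
  -- roots are conjugates of `θ`
  have hroot : ∀ θ' ∈ (S.map (algebraMap k Ω)).roots, ∃ σ : Ω ≃ₐ[k] Ω, σ θ = θ' := by
    intro θ' hθ'
    have h1 := (mem_roots'.mp hθ').2
    rw [IsRoot.def, eval_map_algebraMap, map_pow] at h1
    exact minpoly.exists_algEquiv_of_root' (Algebra.IsAlgebraic.isAlgebraic θ)
      (by simpa using h1)
  have hroot2 : ∀ σ : Ω ≃ₐ[k] Ω, ∀ θ' ∈ (S.map (algebraMap k Ω)).roots,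
      σ θ' ∈ (S.map (algebraMap k Ω)).roots := by
    intro σ θ' hθ'
    obtain ⟨h0, h1⟩ := mem_roots'.mp hθ'
    refine mem_roots'.mpr ⟨h0, ?_⟩
    rw [IsRoot.def, eval_map_algebraMap] at h1 ⊢
    rw [aeval_algHom_apply σ, h1, map_zero]
  obtain ⟨s, hs0, hs1, hs⟩ := exists_sep (S.map (algebraMap k Ω)).roots.toFinset
  let Θ : ℝ := max 1 ‖θ‖
  have hΘ : 1 ≤ Θ := le_max_left _ _
  have hc0 : 0 < s / Θ := div_pos hs0 (by linarith)
  have hc1 : s / Θ ≤ 1 := by
    rw [div_le_one (by linarith)]; linarith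
  refine ⟨θ, S, (s / Θ) ^ S.natDegree, by positivity, pow_le_one₀ hc0.le hc1, hS, by omega,
    by omega, fun g hg => hθ1 g (Finset.mem_insert_of_mem hg), ?_, ?_⟩
  · rintro ⟨y, rfl⟩
    apply hθ₀
    have h1 := hθ1 θ₀ (Finset.mem_insert_self _ _)
    rw [mem_range_iff]
    intro σ
    exact (mem_adjoin_iff _ _).mp h1 σ (σ.commutes y)
  · intro x hx
    have hx1 : x 1 ≠ 0 := by
      intro h0
      rw [hom_inf _ _ _ h0] at hx
      have e1 : S.coeff S.natDegree = 1 := hS
      have e2 : ‖x‖ = ‖x 0‖ := by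
        apply le_antisymm
        · rw [pi_norm_le_iff_of_nonneg (norm_nonneg _)]
          intro i
          fin_cases i
          · exact le_rfl
          · simp [h0]
        · exact norm_le_pi_norm x 0
      rw [e1, map_one, one_mul, norm_pow, e2] at hx
      have : (s / Θ) ^ S.natDegree * ‖x 0‖ ^ S.natDegree ≤ ‖x 0‖ ^ S.natDegree :=
        mul_le_of_le_one_left (by positivity) (pow_le_one₀ hc0.le hc1)
      linarith
    refine ⟨hx1, ?_⟩
    set ρ := x 0 / x 1 with hρ
    have hxe : x = fun i => x 1 * (![ρ, 1] : Fin 2 → Ω) i := by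
      funext i
      fin_cases i
      · simp [hρ]; field_simp
      · simp
    have hnx : ‖x‖ = ‖x 1‖ * max ‖ρ‖ 1 := by
      apply le_antisymm
      · rw [pi_norm_le_iff_of_nonneg (by positivity)]
        intro i
        fin_cases i
        · have : x 0 = x 1 * ρ := by rw [hρ]; field_simp
          simp only [Fin.zero_eta]
          rw [this, norm_mul]
          gcongr
          exact le_max_left _ _
        · simp only [Fin.mk_one]
          exact le_mul_of_one_le_right (norm_nonneg _) (le_max_right _ _)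
      · rcases max_cases ‖ρ‖ 1 with ⟨h, _⟩ | ⟨h, _⟩
        · rw [h, ← norm_mul]
          have : x 1 * ρ = x 0 := by rw [hρ]; field_simp
          rw [this]
          exact norm_le_pi_norm x 0
        · rw [h, mul_one]; exact norm_le_pi_norm x 1
    have hhom : hom S.natDegree S x = x 1 ^ S.natDegree * aeval ρ S := by
      conv_lhs => rw [hxe]
      rw [hom_smul, hom_aff le_rfl _ (by simp)]
      simp
    have hlt : ‖(S.map (algebraMap k Ω)).eval ρ‖ < ‖(S.map (algebraMap k Ω)).leadingCoeff‖ *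
        (s / Θ * max ‖ρ‖ 1) ^ (S.map (algebraMap k Ω)).natDegree := by
      rw [(hS.map _).leadingCoeff, norm_one, one_mul, natDegree_map, eval_map_algebraMap]
      rw [hhom, hnx, norm_mul, norm_pow, mul_pow] at hx
      have hpos : 0 < ‖x 1‖ ^ S.natDegree := pow_pos (norm_pos_iff.mpr hx1) _
      rw [mul_pow]
      have : ‖x 1‖ ^ S.natDegree * ‖aeval ρ S‖ < ‖x 1‖ ^ S.natDegree *
          ((s / Θ) ^ S.natDegree * max ‖ρ‖ 1 ^ S.natDegree) := by
        calc _ < _ := hx
          _ = _ := by ring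
      exact lt_of_mul_lt_mul_left this hpos.le
    obtain ⟨θ', hθ', hclose⟩ := exists_root_close _ hSsplit ρ (by positivity) hlt
    obtain ⟨σ, hσ⟩ := hroot θ' hθ'
    have hnθ' : ‖θ'‖ = ‖θ‖ := by rw [← hσ, hiso]
    have hρΘ : ‖ρ‖ ≤ Θ := by
      by_contra h
      push Not at h
      have h1 : ‖θ'‖ < ‖ρ‖ := by
        rw [hnθ']; exact lt_of_le_of_lt (le_max_right _ _) h
      have h2 : ‖ρ - θ'‖ = ‖ρ‖ := by
        rw [sub_eq_add_neg]
        exact norm_add_eq_of_lt (by rwa [norm_neg])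
      rw [h2, max_eq_left (by linarith)] at hclose
      nlinarith [norm_nonneg ρ]
    have hclose2 : ‖ρ - θ'‖ < s := by
      refine lt_of_lt_of_le hclose ?_
      have h1 : max ‖ρ‖ 1 ≤ Θ := max_le hρΘ hΘ
      calc s / Θ * max ‖ρ‖ 1 ≤ s / Θ * Θ := by gcongr
        _ = s := by field_simp
    rw [mem_adjoin_iff]
    intro τ hτ
    have h1 : τ θ' = θ' := by
      by_contra hne
      have h2 := hs (τ θ') (Multiset.mem_toFinset.mpr (hroot2 τ θ' hθ')) θ'
        (Multiset.mem_toFinset.mpr hθ') hne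
      have h3 : τ θ' - θ' = τ (θ' - ρ) + (ρ - θ') := by
        rw [map_sub, hτ]; ring
      have h4 : ‖τ (θ' - ρ)‖ < s := by
        rw [hiso, norm_sub_rev]; exact hclose2
      rw [h3] at h2
      have := IsUltrametricDist.norm_add_le_max (τ (θ' - ρ)) (ρ - θ')
      have h5 := max_lt h4 hclose2
      linarith
    have h6 := hθ2 σ
    rw [hσ] at h6
    exact (mem_adjoin_iff _ _).mp h6 τ h1

end

end Run7.h334
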