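import Pool.Agent.Run7.h334.Poles

/-!
# Continuity of the degenerate fibres
-/

namespace Run7.h334

open Polynomial Matrix IntermediateField Filter Topology

section Cont

variable {k : Type*} [NormedField k] {ι : Type*} {a : ι → Fin 3 → ℕ} {e : ι → ℕ}
  {R : Type*} [NormedField R] [NormedAlgebra k R]

theorem cont_bform {d : ℕ} :
    Continuous fun p : (Fin (d + 1) → k) × (Fin 2 → R) => bform p.1 p.2 := by
  unfold bform
  apply continuous_finset_sum
  intro t _
  have h1 : Continuous fun p : (Fin (d + 1) → k) × (Fin 2 → R) => algebraMap k R (p.1 t) :=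
    (continuous_algebraMap k R).comp ((continuous_apply t).comp continuous_fst)
  have h2 : ∀ i, Continuous fun p : (Fin (d + 1) → k) × (Fin 2 → R) => p.2 i :=
    fun i => (continuous_apply i).comp continuous_snd
  exact (h1.mul ((h2 0).pow _)).mul ((h2 1).pow _)

theorem cont_N (c : k) (l : ι) :
    Continuous fun p : Coeffs k ι a e × (Fin 2 → R) => N c p.1 l p.2 := by
  have hsh : Continuous fun x : Fin 2 → R => sh c x := by
    apply continuous_pi
    intro i
    fin_cases i
    · simpa [sh] using continuous_apply (0 : Fin 2)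
    · have h0 : Continuous fun x : Fin 2 → R => algebraMap k R c * x 0 + x 1 :=
        (continuous_const.mul (continuous_apply 0)).add (continuous_apply 1)
      simpa [sh] using h0
  apply continuous_matrix
  intro i j
  have hij : ∀ i j, Continuous fun p : Coeffs k ι a e × (Fin 2 → R) =>
      bform (p.1 l i j) (sh c p.2) := by
    intro i j
    have h1 : Continuous fun p : Coeffs k ι a e × (Fin 2 → R) => p.1 l i j :=
      (continuous_apply j).comp ((continuous_apply i).comp
        ((continuous_apply l).comp continuous_fst))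
    exact cont_bform.comp (h1.prodMk (hsh.comp continuous_snd))
  exact (hij i j).add (hij j i)

end Cont

section Near

variable {k : Type*} [NontriviallyNormedField k] [CharZero k] {Ω : Type*} [NormedField Ω]
  [NormedAlgebra k Ω] [IsUltrametricDist Ω] [IsAlgClosed Ω] [Algebra.IsAlgebraic k Ω]
  {ι : Type*} {a : ι → Fin 3 → ℕ} {e : ι → ℕ}

/-- the affine discriminant -/
noncomputable def dsc (c : k) (C : Coeffs k ι a e) (l : ι) : k[X] := (N c C l aff).det

/-- the leading coefficient of the discriminant -/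
noncomputable def lead (c : k) (C : Coeffs k ι a e) (l : ι) : k := (N c C l (inf (k := k))).det

theorem N_aff (c : k) (C : Coeffs k ι a e) (l : ι) (t : Ω) :
    (N c C l (aff (k := k))).map (aeval t : k[X] →ₐ[k] Ω) = N c C l ![t, 1] := by
  rw [N_map]
  congr 1
  funext i
  fin_cases i <;> simp [aff]

theorem aeval_dsc (c : k) (C : Coeffs k ι a e) (l : ι) (t : Ω) :
    aeval t (dsc c C l) = (N c C l ![t, 1]).det := by
  rw [← N_aff, dsc]
  exact (RingHom.map_det (aeval t : k[X] →ₐ[k] Ω).toRingHom _)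

theorem N_inf (c : k) (C : Coeffs k ι a e) (l : ι) :
    (N c C l (inf (k := k))).map (algebraMap k Ω) = N c C l ![1, 0] := by
  have := N_map (Algebra.ofId k Ω) c C l (inf (k := k))
  have e1 : (fun i => (Algebra.ofId k Ω) (inf (k := k) i)) = (![1, 0] : Fin 2 → Ω) := by
    funext i
    fin_cases i <;> simp [inf]
  rw [e1] at this
  rw [← this]
  rfl

theorem det_inf (c : k) (C : Coeffs k ι a e) (l : ι) :
    (N c C l (![1, 0] : Fin 2 → Ω)).det = algebraMap k Ω (lead c C l) := by
  rw [← N_inf, lead]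
  exact (RingHom.map_det (algebraMap k Ω) _).symm

/-- closeness data of `C` to `C₀` -/
structure Near (c : k) (C₀ : Coeffs k ι a e) (Z : ι → Finset Ω) (jj : ι → Ω → Fin 3) (ε : ℝ)
    (C : Coeffs k ι a e) (ρ : Ω → Ω) : Prop where
  close : ∀ l, ∀ t ∈ Z l, ‖ρ t - t‖ < ε
  lead_ne : ∀ l, lead c C l ≠ 0
  lead_no : ∀ l, NO (algebraMap k Ω (lead c C l) / algebraMap k Ω (lead c C₀ l))
  det_eq : ∀ l (x : Fin 2 → Ω), (N c C l x).det =
    algebraMap k Ω (lead c C l) * ∏ t ∈ Z l, (x 0 - ρ t * x 1)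
  gal : ∀ (σ : Ω ≃ₐ[k] Ω) (l : ι), ∀ t ∈ Z l, σ t ∈ Z l ∧ ρ (σ t) = σ (ρ t)
  adj : ∀ l, ∀ t ∈ Z l, NO ((N c C l ![ρ t, 1]).adjugate (jj l t) (jj l t) /
    (N c C₀ l ![t, 1]).adjugate (jj l t) (jj l t))

theorem exists_near [Fintype ι] (hiso : ∀ (σ : Ω ≃ₐ[k] Ω) (x : Ω), ‖σ x‖ = ‖x‖)
    (c : k) (C₀ : Coeffs k ι a e) (Z : ι → Finset Ω) (jj : ι → Ω → Fin 3)
    (h1 : ∀ l, lead c C₀ l ≠ 0)
    (h2 : ∀ l, ∀ t, t ∈ Z l ↔ aeval t (dsc c C₀ l) = 0) (h2' : ∀ l, (Z l).card = rr a e l)
    (h3 : ∀ l l', l ≠ l' → Disjoint (Z l) (Z l'))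
    (h4 : ∀ l, ∀ t ∈ Z l, (N c C₀ l ![t, 1]).adjugate (jj l t) (jj l t) ≠ 0)
    {ε : ℝ} (hε : 0 < ε) : ∀ᶠ C in 𝓝 C₀, ∃ ρ : Ω → Ω, Near c C₀ Z jj ε C ρ := by
  classical
  have hn4 : 0 < ‖(4 : Ω)‖ := by
    have : CharZero Ω := charZero_of_injective_algebraMap (algebraMap k Ω).injective
    rw [norm_pos_iff]; norm_num
  -- separation
  obtain ⟨δ, hδ0, -, hδ⟩ := exists_sep (Finset.univ.biUnion Z)
  -- closeness of the adjugates
  have hadj : ∀ l, ∀ t ∈ Z l, ∃ η : ℝ, 0 < η ∧ ∀ᶠ C in 𝓝 C₀, ∀ t' : Ω, ‖t' - t‖ < η →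
      NO ((N c C l ![t', 1]).adjugate (jj l t) (jj l t) /
        (N c C₀ l ![t, 1]).adjugate (jj l t) (jj l t)) := by
    intro l t ht
    have hcont : Continuous fun p : Coeffs k ι a e × Ω =>
        (N c p.1 l ![p.2, 1]).adjugate (jj l t) (jj l t) /
        (N c C₀ l ![t, 1]).adjugate (jj l t) (jj l t) := by
      have h1 : Continuous fun p : Coeffs k ι a e × Ω => (p.1, (![p.2, 1] : Fin 2 → Ω)) := by
        refine continuous_fst.prodMk ?_
        apply continuous_pi
        intro i
        fin_cases i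
        · simpa using continuous_snd
        · simpa using continuous_const
      have h2 := ((cont_N (R := Ω) c l).comp h1).matrix_adjugate
      have h3 : Continuous fun p : Coeffs k ι a e × Ω =>
          (N c p.1 l ![p.2, 1]).adjugate (jj l t) (jj l t) :=
        (continuous_apply (jj l t)).comp ((continuous_apply (jj l t)).comp h2)
      exact h3.div_const _
    have hev : ∀ᶠ p : Coeffs k ι a e × Ω in 𝓝 (C₀, t), NO
        ((N c p.1 l ![p.2, 1]).adjugate (jj l t) (jj l t) /
        (N c C₀ l ![t, 1]).adjugate (jj l t) (jj l t)) := by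
      have hc := (hcont.tendsto (C₀, t)).sub_const 1
      rw [div_self (h4 l t ht), sub_self] at hc
      have := hc.norm
      rw [norm_zero] at this
      exact this.eventually (gt_mem_nhds hn4)
    rw [nhds_prod_eq] at hev
    obtain ⟨pa, hpa, pb, hpb, hab⟩ := eventually_prod_iff.mp hev
    obtain ⟨η, hη, hball⟩ := Metric.eventually_nhds_iff.mp hpb
    refine ⟨η, hη, hpa.mono fun C hC t' ht' => ?_⟩
    exact hab hC (hball (by rwa [dist_eq_norm]))
  choose! η hη0 hη using hadj
  -- a common radius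
  obtain ⟨ε', hε'0, hε'ε, hε'δ, hε'η⟩ : ∃ ε' : ℝ, 0 < ε' ∧ ε' ≤ ε ∧ ε' ≤ δ ∧
      ∀ l, ∀ t ∈ Z l, ε' ≤ η l t := by
    let T : Finset ℝ := insert ε (insert δ (Finset.univ.biUnion fun l => (Z l).image (η l)))
    have hT : T.Nonempty := ⟨ε, Finset.mem_insert_self _ _⟩
    refine ⟨T.min' hT, ?_, T.min'_le _ (Finset.mem_insert_self _ _),
      T.min'_le _ (Finset.mem_insert_of_mem (Finset.mem_insert_self _ _)), ?_⟩
    · rcases Finset.mem_insert.mp (T.min'_mem hT) with h | h
      · rw [h]; exact hε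
      · rcases Finset.mem_insert.mp h with h | h
        · rw [h]; exact hδ0
        · obtain ⟨l, -, hl⟩ := Finset.mem_biUnion.mp h
          obtain ⟨t, ht, ht2⟩ := Finset.mem_image.mp hl
          rw [← ht2]; exact hη0 l t ht
    · intro l t ht
      apply T.min'_le
      apply Finset.mem_insert_of_mem
      apply Finset.mem_insert_of_mem
      exact Finset.mem_biUnion.mpr ⟨l, Finset.mem_univ l, Finset.mem_image.mpr ⟨t, ht, rfl⟩⟩
  -- leading coefficients
  have hlead : ∀ l, ∀ᶠ C in 𝓝 C₀,
      NO (algebraMap k Ω (lead c C l) / algebraMap k Ω (lead c C₀ l)) := by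
    intro l
    have hcont : Continuous fun C : Coeffs k ι a e =>
        algebraMap k Ω (lead c C l) / algebraMap k Ω (lead c C₀ l) := by
      have h1 : Continuous fun C : Coeffs k ι a e => (C, (inf (k := k))) :=
        continuous_id.prodMk continuous_const
      have h2 := ((cont_N (R := k) c l).comp h1).matrix_det
      exact ((continuous_algebraMap k Ω).comp h2).div_const _
    have hc := (hcont.tendsto C₀).sub_const 1
    rw [div_self ((_root_.map_ne_zero _).mpr (h1 l)), sub_self] at hc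
    have := hc.norm
    rw [norm_zero] at this
    exact this.eventually (gt_mem_nhds hn4)
  -- smallness at the nodes
  have hsmall : ∀ l, ∀ t ∈ Z l, ∀ᶠ C in 𝓝 C₀,
      ‖(N c C l (![t, 1] : Fin 2 → Ω)).det‖ < ‖lead c C₀ l‖ * ε' ^ rr a e l := by
    intro l t ht
    have hcont : Continuous fun C : Coeffs k ι a e => (N c C l (![t, 1] : Fin 2 → Ω)).det := by
      have h1 : Continuous fun C : Coeffs k ι a e => (C, (![t, 1] : Fin 2 → Ω)) :=
        continuous_id.prodMk continuous_const
      exact ((cont_N (R := Ω) c l).comp h1).matrix_det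
    have hc := (hcont.tendsto C₀).norm
    have h0 : (N c C₀ l (![t, 1] : Fin 2 → Ω)).det = 0 := by
      rw [← aeval_dsc]; exact (h2 l t).mp ht
    simp only [h0, norm_zero] at hc
    refine hc.eventually (gt_mem_nhds ?_)
    have := norm_pos_iff.mpr (h1 l)
    positivity
  have hall1 : ∀ᶠ C in 𝓝 C₀, ∀ l,
      NO (algebraMap k Ω (lead c C l) / algebraMap k Ω (lead c C₀ l)) :=
    eventually_all.mpr hlead
  have hall2 : ∀ᶠ C in 𝓝 C₀, ∀ l, ∀ t ∈ Z l,
      ‖(N c C l (![t, 1] : Fin 2 → Ω)).det‖ < ‖lead c C₀ l‖ * ε' ^ rr a e l :=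
    eventually_all.mpr fun l => (Z l).eventually_all.mpr fun t ht => hsmall l t ht
  have hall3 : ∀ᶠ C in 𝓝 C₀, ∀ l, ∀ t ∈ Z l, ∀ t' : Ω, ‖t' - t‖ < η l t →
      NO ((N c C l ![t', 1]).adjugate (jj l t) (jj l t) /
        (N c C₀ l ![t, 1]).adjugate (jj l t) (jj l t)) :=
    eventually_all.mpr fun l => (Z l).eventually_all.mpr fun t ht => hη l t ht
  filter_upwards [hall1, hall2, hall3] with C hC1 hC2 hC3
  have hleadne : ∀ l, lead c C l ≠ 0 := by
    intro l h0
    apply (hC1 l).ne_zero
    rw [h0]; simp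
  have hleadnorm : ∀ l, ‖lead c C l‖ = ‖lead c C₀ l‖ := by
    intro l
    have h := (hC1 l).norm_eq
    rw [norm_div, norm_algebraMap', norm_algebraMap', div_eq_one_iff_eq] at h
    · exact h
    · exact norm_ne_zero_iff.mpr (h1 l)
  have hdeg : ∀ l, (dsc c C l).natDegree = rr a e l := by
    intro l
    obtain ⟨d1, d2⟩ := top_det c C l
    apply le_antisymm d1
    apply le_natDegree_of_ne_zero
    have := hleadne l
    rw [lead, ← d2] at this
    exact this
  have hlc : ∀ l, (dsc c C l).leadingCoeff = lead c C l := by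
    intro l
    rw [leadingCoeff, hdeg l]
    exact (top_det c C l).2
  have hlc' : ∀ l, ((dsc c C l).map (algebraMap k Ω)).leadingCoeff =
      algebraMap k Ω (lead c C l) := by
    intro l
    rw [leadingCoeff_map, hlc]
  have hex : ∀ l, ∀ t ∈ Z l, ∃ s ∈ ((dsc c C l).map (algebraMap k Ω)).roots, ‖t - s‖ < ε' := by
    intro l t ht
    apply exists_root_close _ (IsAlgClosed.splits _) t hε'0.le
    rw [hlc', natDegree_map, hdeg, norm_algebraMap', hleadnorm, eval_map_algebraMap, aeval_dsc]
    exact hC2 l t ht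
  choose! ρ' hρ'1 hρ'2 using hex
  let ρ : Ω → Ω := fun t => if h : ∃ l, t ∈ Z l then ρ' h.choose t else 0
  have hρ : ∀ l, ∀ t ∈ Z l, ρ t = ρ' l t := by
    intro l t ht
    have h : ∃ l, t ∈ Z l := ⟨l, ht⟩
    have e1 : h.choose = l := by
      by_contra hne
      exact (Finset.disjoint_left.mp (h3 _ _ hne)) h.choose_spec ht
    simp only [ρ, dif_pos h, e1]
  have hclose : ∀ l, ∀ t ∈ Z l, ‖ρ t - t‖ < ε' := by
    intro l t ht
    rw [hρ l t ht, norm_sub_rev]
    exact hρ'2 l t ht
  have hinj : ∀ l, ∀ t ∈ Z l, ∀ t' ∈ Z l, ρ t = ρ t' → t = t' := by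
    intro l t ht t' ht' heq
    by_contra hne
    have h1 := hδ t (Finset.mem_biUnion.mpr ⟨l, Finset.mem_univ l, ht⟩) t'
      (Finset.mem_biUnion.mpr ⟨l, Finset.mem_univ l, ht'⟩) hne
    have e1 : t - t' = (ρ t' - t') - (ρ t - t) := by rw [heq]; ring
    have h2 := norm_sub_le_max' (ρ t' - t') (ρ t - t)
    rw [← e1] at h2
    have h3 := max_lt (hclose l t' ht') (hclose l t ht)
    linarith
  have hroots : ∀ l, ((dsc c C l).map (algebraMap k Ω)).roots = ((Z l).image ρ).val := by
    intro l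
    symm
    apply Multiset.eq_of_le_of_card_le
    · rw [Multiset.le_iff_subset ((Z l).image ρ).nodup]
      intro s hs
      obtain ⟨t, ht, rfl⟩ := Finset.mem_image.mp (Finset.mem_val.mp hs)
      rw [hρ l t ht]
      exact hρ'1 l t ht
    · have h5 : Multiset.card ((dsc c C l).map (algebraMap k Ω)).roots ≤ rr a e l := by
        refine (card_roots' _).trans ?_
        rw [natDegree_map, hdeg]
      have h6 : Multiset.card ((Z l).image ρ).val = rr a e l := by
        rw [Finset.card_val, Finset.card_image_of_injOn, h2']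
        intro t ht t' ht' h
        exact hinj l t ht t' ht' h
      omega
  have hfac : ∀ l, (dsc c C l).map (algebraMap k Ω) =
      Polynomial.C (algebraMap k Ω (lead c C l)) *
        ∏ t ∈ Z l, (X - Polynomial.C (ρ t)) := by
    intro l
    have hs : ((dsc c C l).map (algebraMap k Ω)).Splits := IsAlgClosed.splits _
    rw [hs.eq_prod_roots, hlc', hroots]
    congr 1
    rw [← Finset.prod_image (g := ρ) (f := fun s => X - Polynomial.C s)
      (fun t ht t' ht' h => hinj l t ht t' ht' h)]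
    rfl
  have hdet1 : ∀ l (t : Ω), (N c C l ![t, 1]).det =
      algebraMap k Ω (lead c C l) * ∏ s ∈ Z l, (t - ρ s) := by
    intro l t
    rw [← aeval_dsc, ← eval_map_algebraMap, hfac, eval_mul, eval_C, eval_prod]
    simp
  refine ⟨ρ, ?_⟩
  refine
    { close := fun l t ht => lt_of_lt_of_le (hclose l t ht) hε'ε
      lead_ne := hleadne
      lead_no := hC1
      det_eq := ?_
      gal := ?_
      adj := ?_ }
  · intro l x
    by_cases hx : x 1 = 0
    · have e1 : x = fun i => x 0 * (![1, 0] : Fin 2 → Ω) i := by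
        funext i
        fin_cases i <;> simp [hx]
      conv_lhs => rw [e1, det_N_smul, det_inf]
      rw [hx]
      simp only [mul_zero, sub_zero, Finset.prod_const, h2']
      ring
    · have e1 : x = fun i => x 1 * (![x 0 / x 1, 1] : Fin 2 → Ω) i := by
        funext i
        fin_cases i
        · simp; field_simp
        · simp
      conv_lhs => rw [e1, det_N_smul, hdet1, ← h2', ← Finset.prod_const]
      rw [mul_left_comm, ← Finset.prod_mul_distrib]
      congr 1
      refine Finset.prod_congr rfl fun t _ => ?_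
      field_simp
  · intro σ l t ht
    have hσt : σ t ∈ Z l := by
      rw [h2] at ht ⊢
      rw [aeval_algHom_apply σ, ht, map_zero]
    refine ⟨hσt, ?_⟩
    have hroot : ρ t ∈ ((dsc c C l).map (algebraMap k Ω)).roots := by
      rw [hρ l t ht]; exact hρ'1 l t ht
    have hroot2 : σ (ρ t) ∈ ((dsc c C l).map (algebraMap k Ω)).roots := by
      obtain ⟨h0, h1⟩ := mem_roots'.mp hroot
      refine mem_roots'.mpr ⟨h0, ?_⟩
      rw [IsRoot.def, eval_map_algebraMap] at h1 ⊢
      rw [aeval_algHom_apply σ, h1, map_zero]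
    rw [hroots] at hroot2
    obtain ⟨t', ht', heq⟩ := Finset.mem_image.mp (Finset.mem_val.mp hroot2)
    have : t' = σ t := by
      by_contra hne
      have h1 := hδ t' (Finset.mem_biUnion.mpr ⟨l, Finset.mem_univ l, ht'⟩) (σ t)
        (Finset.mem_biUnion.mpr ⟨l, Finset.mem_univ l, hσt⟩) hne
      have e1 : t' - σ t = σ (ρ t - t) - (ρ t' - t') := by rw [heq, map_sub]; ring
      have h2 := norm_sub_le_max' (σ (ρ t - t)) (ρ t' - t')
      rw [← e1, hiso] at h2
      have h3 := max_lt (hclose l t ht) (hclose l t' ht')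
      linarith
    rw [← heq, this]
  · intro l t ht
    exact hC3 l t ht (ρ t) (lt_of_lt_of_le (hclose l t ht) (hε'η l t ht))

end Near

end Run7.h334
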