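import Pool.Agent.Run7.h334.Forms

/-!
# Consequences of smoothness
-/

namespace Run7.h334

open Polynomial Matrix TrivSqZeroExt

section Defs

variable {k : Type*} [Field k] {ι : Type*} {a : ι → Fin 3 → ℕ} {e : ι → ℕ}

/-- The `l`-th quadratic form of the tuple `C` at `x`, evaluated at `z`. -/
def qform {R : Type*} [CommRing R] [Algebra k R] (C : Coeffs k ι a e) (l : ι) (x : Fin 2 → R)
    (z : Fin 3 → R) : R :=
  ∑ i, ∑ j, bform (C l i j) x * z i * z j

variable {Ω : Type*} [Field Ω] [Algebra k Ω]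

/-- the first order variation at `(x, z)` of the equations in the direction `v` -/
def jac (C : Coeffs k ι a e) (x : Fin 2 → Ω) (z : ι → Fin 3 → Ω)
    (v : (Fin 2 → Ω) × (ι → Fin 3 → Ω)) (l : ι) : Ω :=
  snd (qform C l (fun i => (inl (x i) + inr (v.1 i) : DualNumber Ω))
    (fun i => (inl (z l i) + inr (v.2 l i) : DualNumber Ω)))

/-- Jacobian criterion at all `Ω`-points -/
def SmoothOver (Ω : Type*) [Field Ω] [Algebra k Ω] (C : Coeffs k ι a e) : Prop :=
  ∀ (x : Fin 2 → Ω) (z : ι → Fin 3 → Ω), x ≠ 0 → (∀ l, z l ≠ 0) →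
    (∀ l, qform C l x (z l) = 0) → Function.Surjective (jac C x z)

end Defs

section Dual

variable {k : Type*} [Field k] {ι : Type*} {a : ι → Fin 3 → ℕ} {e : ι → ℕ}
  {Ω : Type*} [Field Ω] [Algebra k Ω]

theorem qform_eq {R : Type*} [CommRing R] [Algebra k R] (C : Coeffs k ι a e) (l : ι)
    (x : Fin 2 → R) (z : Fin 3 → R) : 2 * qform C l x z = z ⬝ᵥ Mat C l x *ᵥ z := by
  simp only [qform, Mat, dotProduct, mulVec, Fin.sum_univ_three]
  ring

/-- dual number point -/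
def dp (x ξ : Fin 2 → Ω) : Fin 2 → DualNumber Ω := fun i => inl (x i) + inr (ξ i)

/-- first partial derivative -/
def D0 {d : ℕ} (c : Fin (d + 1) → k) (x : Fin 2 → Ω) : Ω :=
  ∑ t : Fin (d + 1), algebraMap k Ω (c t) * (((t : ℕ) : Ω) * x 0 ^ ((t : ℕ) - 1)) * x 1 ^ (d - t)

/-- second partial derivative -/
def D1 {d : ℕ} (c : Fin (d + 1) → k) (x : Fin 2 → Ω) : Ω :=
  ∑ t : Fin (d + 1), algebraMap k Ω (c t) * x 0 ^ (t : ℕ) *
    (((d - (t : ℕ) : ℕ) : Ω) * x 1 ^ (d - (t : ℕ) - 1))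

theorem fst_algebraMap (c : k) : fst (algebraMap k (DualNumber Ω) c) = algebraMap k Ω c := rfl

theorem snd_algebraMap (c : k) : snd (algebraMap k (DualNumber Ω) c) = 0 := rfl

theorem fst_bform_dp {d : ℕ} (c : Fin (d + 1) → k) (x ξ : Fin 2 → Ω) :
    fst (bform c (dp x ξ)) = bform c x := by
  simp [bform, dp, fst_algebraMap, fst_sum]

theorem snd_bform_dp {d : ℕ} (c : Fin (d + 1) → k) (x ξ : Fin 2 → Ω) :
    snd (bform c (dp x ξ)) = ξ 0 * D0 c x + ξ 1 * D1 c x := by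
  simp only [bform, D0, D1, snd_sum, Finset.mul_sum, ← Finset.sum_add_distrib]
  refine Finset.sum_congr rfl fun t _ => ?_
  simp only [dp, DualNumber.snd_mul, fst_mul, fst_pow, snd_pow, fst_add, snd_add, fst_inl,
    snd_inl, fst_inr, snd_inr, add_zero, zero_add, fst_algebraMap, snd_algebraMap, zero_mul,
    smul_eq_mul, nsmul_eq_mul, Nat.pred_eq_sub_one]
  ring

theorem euler_bform {d : ℕ} (c : Fin (d + 1) → k) (x : Fin 2 → Ω) :
    x 0 * D0 c x + x 1 * D1 c x = (d : Ω) * bform c x := by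
  simp only [bform, D0, D1, Finset.mul_sum, ← Finset.sum_add_distrib]
  refine Finset.sum_congr rfl fun t _ => ?_
  have h1 : ∀ (n : ℕ) (y : Ω), y * ((n : Ω) * y ^ (n - 1)) = (n : Ω) * y ^ n := by
    intro n y
    rcases n with _ | n
    · simp
    · simp only [Nat.add_sub_cancel, pow_succ]; ring
  have e0 := h1 t (x 0)
  have e1 := h1 (d - t) (x 1)
  have e2 : (d : Ω) = ((t : ℕ) : Ω) + ((d - (t : ℕ) : ℕ) : Ω) := by
    rw [← Nat.cast_add]
    congr 1
    have := t.2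
    omega
  rw [e2]
  linear_combination algebraMap k Ω (c t) * x 1 ^ (d - (t : ℕ)) * e0 +
    algebraMap k Ω (c t) * x 0 ^ (t : ℕ) * e1

/-- the two derivatives of the matrix -/
def MA (C : Coeffs k ι a e) (l : ι) (x : Fin 2 → Ω) : Matrix (Fin 3) (Fin 3) Ω :=
  fun i j => D0 (C l i j) x + D0 (C l j i) x

/-- the two derivatives of the matrix -/
def MB (C : Coeffs k ι a e) (l : ι) (x : Fin 2 → Ω) : Matrix (Fin 3) (Fin 3) Ω :=
  fun i j => D1 (C l i j) x + D1 (C l j i) x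

theorem fst_Mat_dp (C : Coeffs k ι a e) (l : ι) (x ξ : Fin 2 → Ω) (i j : Fin 3) :
    fst (Mat C l (dp x ξ) i j) = Mat C l x i j := by
  simp [Mat, fst_bform_dp]

theorem snd_Mat_dp (C : Coeffs k ι a e) (l : ι) (x ξ : Fin 2 → Ω) (i j : Fin 3) :
    snd (Mat C l (dp x ξ) i j) = ξ 0 * MA C l x i j + ξ 1 * MB C l x i j := by
  simp only [Mat, snd_add, snd_bform_dp, MA, MB]
  ring

theorem euler_Mat (C : Coeffs k ι a e) (l : ι) (x : Fin 2 → Ω) (i j : Fin 3) :
    x 0 * MA C l x i j + x 1 * MB C l x i j =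
      ((a l i : Ω) + (a l j : Ω) + (e l : Ω)) * Mat C l x i j := by
  have h1 := euler_bform (C l i j) x
  have h2 := euler_bform (C l j i) x
  simp only [MA, MB, Mat]
  push_cast at h1 h2
  linear_combination h1 + h2

theorem MA_symm (C : Coeffs k ι a e) (l : ι) (x : Fin 2 → Ω) (i j : Fin 3) :
    MA C l x i j = MA C l x j i := by
  simp only [MA]; ring

theorem MB_symm (C : Coeffs k ι a e) (l : ι) (x : Fin 2 → Ω) (i j : Fin 3) :
    MB C l x i j = MB C l x j i := by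
  simp only [MB]; ring

/-- Euler relation on the kernel -/
theorem euler_ker (C : Coeffs k ι a e) (l : ι) (x : Fin 2 → Ω) {n : Fin 3 → Ω}
    (hn : Mat C l x *ᵥ n = 0) :
    x 0 * (n ⬝ᵥ MA C l x *ᵥ n) + x 1 * (n ⬝ᵥ MB C l x *ᵥ n) = 0 := by
  have h : ∀ i, Mat C l x i 0 * n 0 + Mat C l x i 1 * n 1 + Mat C l x i 2 * n 2 = 0 := by
    intro i
    have := congrFun hn i
    simpa [mulVec, dotProduct, Fin.sum_univ_three] using this
  have hs : ∀ i j, Mat C l x i j = Mat C l x j i := fun i j => (Mat_isSymm C l x).apply j i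
  have e1 : x 0 * (n ⬝ᵥ MA C l x *ᵥ n) + x 1 * (n ⬝ᵥ MB C l x *ᵥ n) =
      ∑ i, ∑ j, (x 0 * MA C l x i j + x 1 * MB C l x i j) * n i * n j := by
    simp only [dotProduct, mulVec, Fin.sum_univ_three]
    ring
  rw [e1]
  simp only [euler_Mat, Fin.sum_univ_three]
  have h0 := h 0
  have h1 := h 1
  have h2 := h 2
  have s10 := hs 1 0
  have s20 := hs 2 0
  have s21 := hs 2 1
  linear_combination (2 * (a l 0 : Ω) * n 0 + (e l : Ω) * n 0) * h0 +
    (2 * (a l 1 : Ω) * n 1 + (e l : Ω) * n 1) * h1 +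
    (2 * (a l 2 : Ω) * n 2 + (e l : Ω) * n 2) * h2 +
    ((a l 0 : Ω) - (a l 1 : Ω)) * n 0 * n 1 * s10 +
    ((a l 0 : Ω) - (a l 2 : Ω)) * n 0 * n 2 * s20 +
    ((a l 1 : Ω) - (a l 2 : Ω)) * n 1 * n 2 * s21

/-- the variation of the equation at a point in the kernel -/
theorem two_jac_ker (C : Coeffs k ι a e) (x : Fin 2 → Ω) (z : ι → Fin 3 → Ω)
    (v : (Fin 2 → Ω) × (ι → Fin 3 → Ω)) (l : ι) (hn : Mat C l x *ᵥ (z l) = 0) :
    2 * jac C x z v l = v.1 0 * (z l ⬝ᵥ MA C l x *ᵥ z l) + v.1 1 * (z l ⬝ᵥ MB C l x *ᵥ z l) := by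
  have h : ∀ i, Mat C l x i 0 * z l 0 + Mat C l x i 1 * z l 1 + Mat C l x i 2 * z l 2 = 0 := by
    intro i
    have := congrFun hn i
    simpa [mulVec, dotProduct, Fin.sum_univ_three] using this
  have hs : ∀ i j, Mat C l x i j = Mat C l x j i := fun i j => (Mat_isSymm C l x).apply j i
  have h2 := qform_eq (R := DualNumber Ω) C l (dp x v.1)
    (fun i => (inl (z l i) + inr (v.2 l i) : DualNumber Ω))
  have h3 := congrArg snd h2
  have e1 : snd (2 * qform C l (dp x v.1)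
      (fun i => (inl (z l i) + inr (v.2 l i) : DualNumber Ω))) = 2 * jac C x z v l := by
    rw [two_mul, snd_add, two_mul]
    rfl
  rw [e1] at h3
  rw [h3]
  simp only [dotProduct, mulVec, Fin.sum_univ_three, snd_add, DualNumber.snd_mul, fst_mul,
    fst_add, fst_inl, snd_inl, fst_inr, snd_inr, add_zero, zero_add, fst_Mat_dp, snd_Mat_dp]
  have h0 := h 0
  have h1 := h 1
  have h2 := h 2
  have s10 := hs 1 0
  have s20 := hs 2 0
  have s21 := hs 2 1
  linear_combination (2 * v.2 l 0) * h0 + (2 * v.2 l 1) * h1 + (2 * v.2 l 2) * h2 +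
    (v.2 l 0 * z l 1 - v.2 l 1 * z l 0) * s10 + (v.2 l 0 * z l 2 - v.2 l 2 * z l 0) * s20
    + (v.2 l 1 * z l 2 - v.2 l 2 * z l 1) * s21

/-- Jacobi's formula -/
theorem snd_det_dp (C : Coeffs k ι a e) (l : ι) (x ξ : Fin 2 → Ω) :
    snd (Mat C l (dp x ξ)).det = ∑ i, ∑ j, (Mat C l x).adjugate i j *
      (ξ 0 * MA C l x j i + ξ 1 * MB C l x j i) := by
  rw [det_fin_three, adjugate_fin_three]
  simp only [Fin.sum_univ_three, snd_add, snd_sub, DualNumber.snd_mul, fst_mul, fst_Mat_dp,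
    snd_Mat_dp, Matrix.of_apply, Matrix.cons_val_zero, Matrix.cons_val_one, Matrix.cons_val,
    Matrix.cons_val', Matrix.empty_val', Matrix.cons_val_fin_one]
  ring

end Dual

end Run7.h334
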