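import Pool.Agent.Run7.h334.Generic

/-!
# A local criterion for isotropy of ternary forms over `k[s]`
-/

namespace Run7.h334

open Polynomial Matrix IntermediateField

section SqInSec

variable (k : Type*) [Field k] {Ω : Type*} [Field Ω] [Algebra k Ω]

/-- `y` is a square in `k(s)`. -/
def SqIn (s y : Ω) : Prop := ∃ r ∈ k⟮s⟯, r ^ 2 = y

variable {k}

theorem SqIn.of_mul {s y y' w : Ω} (h : SqIn k s y) (hy : y ≠ 0) (hw : w ∈ k⟮s⟯)
    (hyy : y * y' = w ^ 2) : SqIn k s y' := by
  obtain ⟨r, hr, hry⟩ := h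
  have hr0 : r ≠ 0 := by
    rintro rfl
    apply hy
    rw [← hry]; ring
  refine ⟨w / r, div_mem hw hr, ?_⟩
  rw [div_pow, hry, ← hyy]
  field_simp

theorem aeval_mem (s : Ω) (P : k[X]) : aeval s P ∈ k⟮s⟯ :=
  algebra_adjoin_le_adjoin k {s} (aeval_mem_adjoin_singleton k s)

theorem exists_aeval_of_mem [Algebra.IsAlgebraic k Ω] {s x : Ω} (hx : x ∈ k⟮s⟯) :
    ∃ P : k[X], aeval s P = x := by
  have h : k⟮s⟯.toSubalgebra = Algebra.adjoin k {s} :=
    adjoin_simple_toSubalgebra_of_isAlgebraic (Algebra.IsAlgebraic.isAlgebraic s)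
  have hx' : x ∈ Algebra.adjoin k {s} := by
    rw [← h]; exact hx
  rw [Algebra.adjoin_singleton_eq_range_aeval] at hx'
  exact hx'

theorem dotProduct_mem {s : Ω} {u v : Fin 3 → Ω} (hu : ∀ i, u i ∈ k⟮s⟯) (hv : ∀ i, v i ∈ k⟮s⟯) :
    u ⬝ᵥ v ∈ k⟮s⟯ := by
  rw [dotProduct]
  exact sum_mem fun i _ => mul_mem (hu i) (hv i)

/-- rank one transfer of squares -/
theorem SqIn.adj {s : Ω} {M : Matrix (Fin 3) (Fin 3) k[X]} (hM : M.IsSymm)
    (hD : aeval s M.det = 0) {n n' : Fin 3 → k[X]}
    (hn : (fun i => aeval s (n i)) ⬝ᵥ (ev s M).adjugate *ᵥ (fun i => aeval s (n i)) ≠ 0)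
    (h : SqIn k s
      (-((fun i => aeval s (n i)) ⬝ᵥ (ev s M).adjugate *ᵥ (fun i => aeval s (n i))))) :
    SqIn k s
      (-((fun i => aeval s (n' i)) ⬝ᵥ (ev s M).adjugate *ᵥ (fun i => aeval s (n' i)))) := by
  refine h.of_mul (w := (fun i => aeval s (n i)) ⬝ᵥ (ev s M).adjugate *ᵥ
    (fun i => aeval s (n' i))) (by simpa using hn) ?_ ?_
  · apply dotProduct_mem
    · intro i; exact aeval_mem s _
    · intro i
      rw [mulVec]
      apply dotProduct_mem
      · intro j
        rw [adj_ev]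
        exact aeval_mem s _
      · intro j; exact aeval_mem s _
  · rw [neg_mul_neg]
    exact adj_rank_one (ev s M) (ev_isSymm s hM) (by rw [det_ev, hD]) _ _

theorem adj_jj {s : Ω} {M : Matrix (Fin 3) (Fin 3) k[X]} (j : Fin 3) :
    (fun i => aeval s ((Pi.single j 1 : Fin 3 → k[X]) i)) ⬝ᵥ (ev s M).adjugate *ᵥ
      (fun i => aeval s ((Pi.single j 1 : Fin 3 → k[X]) i)) = (ev s M).adjugate j j := by
  have : (fun i => aeval s ((Pi.single j 1 : Fin 3 → k[X]) i)) = (Pi.single j 1 : Fin 3 → Ω) := by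
    funext i
    by_cases h : i = j
    · subst h; simp
    · simp [Pi.single_apply, h]
  rw [this]
  simp

end SqInSec

section Mult

variable {k : Type*} [Field k] {Ω : Type*} [Field Ω] [Algebra k Ω]

/-- multiplicity of the root `s` of `P` -/
noncomputable def mult (s : Ω) (P : k[X]) : ℕ := rootMultiplicity s (P.map (algebraMap k Ω))

theorem mult_mul (s : Ω) {P Q : k[X]} (hP : P ≠ 0) (hQ : Q ≠ 0) :
    mult s (P * Q) = mult s P + mult s Q := by
  rw [mult, Polynomial.map_mul, rootMultiplicity_mul]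
  · rfl
  · rw [← Polynomial.map_mul]
    exact (Polynomial.map_ne_zero_iff (algebraMap k Ω).injective).mpr (mul_ne_zero hP hQ)

theorem mult_eq_zero {s : Ω} {P : k[X]} (h : aeval s P ≠ 0) : mult s P = 0 := by
  rw [mult]
  apply rootMultiplicity_eq_zero
  rw [IsRoot.def, eval_map_algebraMap]
  exact h

theorem mult_neg (s : Ω) (P : k[X]) : mult s (-P) = mult s P := by
  by_cases hP : P = 0
  · subst hP; simp
  have : -P = C (-1) * P := by simp
  rw [this, mult_mul s (by simp) hP, mult_eq_zero (P := C (-1)) (by simp)]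
  simp

theorem mult_sq (s : Ω) {P : k[X]} (hP : P ≠ 0) : mult s (P ^ 2) = 2 * mult s P := by
  rw [pow_two, mult_mul s hP hP]; ring

theorem aeval_eq_zero_of_mult {s : Ω} {P : k[X]} (h : mult s P ≠ 0) : aeval s P = 0 := by
  by_contra h0
  exact h (mult_eq_zero h0)

theorem mult_one_of_squarefree [CharZero k] {s : Ω} {P : k[X]} (hP : Squarefree P)
    (hP0 : P ≠ 0) (h : aeval s P = 0) : mult s P = 1 := by
  have hsep : P.Separable := (PerfectField.separable_iff_squarefree).mpr hP
  have hsep' : (P.map (algebraMap k Ω)).Separable := hsep.map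
  have h1 : rootMultiplicity s (P.map (algebraMap k Ω)) ≤ 1 :=
    rootMultiplicity_le_one_of_separable hsep' s
  have h2 : 0 < rootMultiplicity s (P.map (algebraMap k Ω)) := by
    rw [rootMultiplicity_pos]
    · rw [IsRoot.def, eval_map_algebraMap]; exact h
    · exact (Polynomial.map_ne_zero_iff (algebraMap k Ω).injective).mpr hP0
  rw [mult]; omega

end Mult

section Main

variable {k : Type*} [Field k] [CharZero k] {Ω : Type*} [Field Ω] [Algebra k Ω] [IsAlgClosed Ω]
  [Algebra.IsAlgebraic k Ω]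

omit [CharZero k] [Algebra.IsAlgebraic k Ω] in
theorem exists_root_of_irreducible {p : k[X]} (hp : Irreducible p) : ∃ s : Ω, aeval s p = 0 :=
  IsAlgClosed.exists_aeval_eq_zero Ω p (by
    have := hp.natDegree_pos
    intro h
    rw [natDegree_eq_zero_iff_degree_le_zero.mpr (le_of_eq h)] at this
    exact absurd this (lt_irrefl _))

omit [CharZero k] [IsAlgClosed Ω] [Algebra.IsAlgebraic k Ω] in
theorem dvd_of_root {p Q : k[X]} (hp : Irreducible p) {s : Ω} (hs : aeval s p = 0)
    (hQ : aeval s Q = 0) : p ∣ Q := by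
  by_contra h
  obtain ⟨u, v, huv⟩ := (hp.coprime_iff_not_dvd).mpr h
  have := congrArg (aeval s) huv
  simp [hs, hQ] at this

omit [CharZero k] [IsAlgClosed Ω] [Algebra.IsAlgebraic k Ω] in
theorem aeval_ne_of_dvd {P Q : k[X]} {s : Ω} (h : P ∣ Q) (hs : aeval s P = 0) :
    aeval s Q = 0 := by
  obtain ⟨R, rfl⟩ := h
  simp [hs]

omit [CharZero k] [IsAlgClosed Ω] in
/-- squares at a root of `p` give squares modulo `p` -/
theorem exists_dvd_sq_sub {p A₀ a A : k[X]} (hp : Irreducible p) {s : Ω} (hs : aeval s p = 0)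
    (hA : A = A₀ * a ^ 2) (hA0 : aeval s A ≠ 0) (h : SqIn k s (aeval s A)) :
    ∃ C, p ∣ C ^ 2 - A₀ := by
  obtain ⟨r, hr, hrA⟩ := h
  have ha : aeval s a ≠ 0 := by
    intro h; apply hA0; rw [hA]; simp [h]
  obtain ⟨P, hP⟩ := exists_aeval_of_mem (k := k) (div_mem hr (aeval_mem s a))
  refine ⟨P, dvd_of_root hp hs ?_⟩
  rw [map_sub, map_pow, hP, div_pow, hrA, hA, map_mul, map_pow]
  field_simp
  ring

omit [CharZero k] in
theorem iso_map_eval {M : Matrix (Fin 3) (Fin 3) k[X]} (s : k) (g : Matrix (Fin 3) (Fin 3) k) :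
    ((g.map C)ᵀ * M * g.map C).map (eval s) = gᵀ * M.map (eval s) * g := by
  have h := ev_conj (Ω := k) s M g
  have e : ∀ N : Matrix (Fin 3) (Fin 3) k[X], ev s N = N.map (eval s) := by
    intro N
    ext i j
    simp [ev_apply]
  rw [e, e] at h
  rw [h]
  have : g.map (algebraMap k k) = g := by ext i j; simp
  rw [this]

/-- The local criterion. -/
theorem tf (M : Matrix (Fin 3) (Fin 3) k[X]) (hM : M.IsSymm) (hD : M.det ≠ 0)
    (hadj : ∀ s : Ω, aeval s M.det = 0 → (ev s M).adjugate ≠ 0)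
    (hsq : ∀ s : Ω, Odd (mult s M.det) →
      ∃ j, (ev s M).adjugate j j ≠ 0 ∧ SqIn k s (-(ev s M).adjugate j j))
    (hinf : {s : k | Iso (M.map (eval s))}.Infinite) : Iso M := by
  obtain ⟨g, hg, hq1, hm1, hq0, hm0⟩ := gen_basis M hM hD hadj
  set M' := (g.map C)ᵀ * M * g.map C with hM'
  have hM's : M'.IsSymm := isSymm_conj M hM _
  have hgC : (g.map C).det = C g.det := by
    exact (RingHom.map_det (C : k →+* k[X]) g).symm
  have hdet : M'.det = C (g.det ^ 2) * M.det := by
    rw [hM', Matrix.det_mul, Matrix.det_mul, Matrix.det_transpose, hgC, C_pow]; ring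
  have hD' : M'.det ≠ 0 := by
    rw [hdet]; exact mul_ne_zero (by simpa using hg) hD
  have hgC0 : (g.map C).det ≠ 0 := by rw [hgC]; simpa using hg
  apply iso_conj M (g.map C) hgC0
  rw [← hM']
  apply iso_of_sol M' hM's hq0 hm0 hD'
  have hA0 : -min2 M' ≠ 0 := neg_ne_zero.mpr hm0
  have hB0 : -(M' 0 0 * M'.det) ≠ 0 := neg_ne_zero.mpr (mul_ne_zero hq0 hD')
  obtain ⟨A₀, a, hA₀s, ha, hA, hA₀, -⟩ := exists_squarefree_mul_sq _ hA0
  obtain ⟨B₀, b, hB₀s, hb, hB, hB₀, -⟩ := exists_squarefree_mul_sq _ hB0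
  have hdvdA : A₀ ∣ -min2 M' := ⟨a ^ 2, hA⟩
  have hdvdB : B₀ ∣ -(M' 0 0 * M'.det) := ⟨b ^ 2, hB⟩
  have haev : ∀ s : Ω, aeval s M'.det = 0 ↔ aeval s M.det = 0 := by
    intro s
    rw [hdet, map_mul, aeval_C, mul_eq_zero]
    have h0 : algebraMap k Ω (g.det ^ 2) ≠ 0 := by
      exact (_root_.map_ne_zero _).mpr (pow_ne_zero _ hg)
    exact ⟨fun h => h.resolve_left h0, Or.inr⟩
  -- no common roots
  have hAB : ∀ s : Ω, aeval s (-(M' 0 0 * M'.det)) = 0 → aeval s (-min2 M') ≠ 0 := by
    intro s hs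
    rw [map_neg, neg_eq_zero, map_mul, mul_eq_zero] at hs
    rw [map_neg, neg_ne_zero]
    apply hm1
    rcases hs with h | h
    · exact Or.inr h
    · exact Or.inl ((haev s).mp h)
  have key : Sol A₀ B₀ := by
    apply legendre A₀ B₀ hA₀s hB₀s hA₀ hB₀
    · intro p hp hpB
      obtain ⟨s, hs⟩ := exists_root_of_irreducible (Ω := Ω) hp
      have hB₀r : aeval s B₀ = 0 := aeval_ne_of_dvd hpB hs
      have hBs : aeval s (-(M' 0 0 * M'.det)) = 0 := aeval_ne_of_dvd hdvdB hB₀r
      have hAs := hAB s hBs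
      refine exists_dvd_sq_sub hp hs hA hAs ?_
      by_cases hq : aeval s (M' 0 0) = 0
      · refine ⟨aeval s (M' 0 1), aeval_mem s _, ?_⟩
        rw [min2, map_neg, map_sub, map_mul, hq, map_pow]; ring
      · have hDs : aeval s M.det = 0 := by
          rw [map_neg, neg_eq_zero, map_mul, mul_eq_zero] at hBs
          rcases hBs with h | h
          · exact absurd h hq
          · exact (haev s).mp h
        -- odd multiplicity
        have hodd : Odd (mult s M.det) := by
          have e1 : mult s (-(M' 0 0 * M'.det)) = mult s M.det := by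
            rw [mult_neg, mult_mul s hq0 hD', mult_eq_zero hq, hdet,
              mult_mul s (by simpa using hg) hD, mult_eq_zero (P := C (g.det ^ 2)) (by simpa using hg)]
            simp
          have e2 : mult s (-(M' 0 0 * M'.det)) = 1 + 2 * mult s b := by
            rw [hB, mult_mul s hB₀ (pow_ne_zero _ hb), mult_sq s hb,
              mult_one_of_squarefree hB₀s hB₀ hB₀r]
          rw [← e1, e2]
          exact ⟨mult s b, by ring⟩
        obtain ⟨j, hj0, hj⟩ := hsq s hodd
        have e3 : aeval s (min2 M') = (fun i => aeval s (C ((g.adjugate 2) i))) ⬝ᵥ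
            (ev s M).adjugate *ᵥ (fun i => aeval s (C ((g.adjugate 2) i))) := by
          rw [← min2_ev, hM', ev_conj, min2_conj _ (ev_isSymm s hM)]
          have : (g.map (algebraMap k Ω)).adjugate 2 = fun i => aeval s (C ((g.adjugate 2) i)) := by
            funext i
            rw [aeval_C]
            have := congrFun (congrFun (RingHom.map_adjugate (algebraMap k Ω) g) 2) i
            simpa using this.symm
          rw [this]
        rw [map_neg, e3]
        apply SqIn.adj hM hDs (n := Pi.single j 1) (n' := fun i => C ((g.adjugate 2) i))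
        · rwa [adj_jj]
        · rwa [adj_jj]
    · intro p hp hpA
      obtain ⟨s, hs⟩ := exists_root_of_irreducible (Ω := Ω) hp
      have hA₀r : aeval s A₀ = 0 := aeval_ne_of_dvd hpA hs
      have hAs : aeval s (-min2 M') = 0 := aeval_ne_of_dvd hdvdA hA₀r
      have hBs : aeval s (-(M' 0 0 * M'.det)) ≠ 0 := fun h => hAB s h hAs
      refine exists_dvd_sq_sub hp hs hB hBs ?_
      refine ⟨aeval s (M' 0 0 * M' 1 2 - M' 0 1 * M' 0 2), aeval_mem s _, ?_⟩
      have := congrArg (aeval s) (sylvester M' hM's)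
      rw [map_sub, map_mul (aeval s) (min2 M')] at this
      rw [map_neg, neg_eq_zero] at hAs
      rw [hAs] at this
      rw [map_neg, this, map_pow]; ring
    · intro p A₁ B₁ hp hA₁ hB₁
      exfalso
      obtain ⟨s, hs⟩ := exists_root_of_irreducible (Ω := Ω) hp
      have hA₀r : aeval s A₀ = 0 := aeval_ne_of_dvd ⟨A₁, hA₁⟩ hs
      have hB₀r : aeval s B₀ = 0 := aeval_ne_of_dvd ⟨B₁, hB₁⟩ hs
      exact hAB s (aeval_ne_of_dvd hdvdB hB₀r) (aeval_ne_of_dvd hdvdA hA₀r)
    · -- specialisations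
      have hfin : {s : k | (min2 M' * (M' 0 0 * M'.det)).eval s = 0}.Finite := by
        have hne : min2 M' * (M' 0 0 * M'.det) ≠ 0 :=
          mul_ne_zero hm0 (mul_ne_zero hq0 hD')
        refine ((min2 M' * (M' 0 0 * M'.det)).rootSet_finite k).subset ?_
        intro s hs
        rw [mem_rootSet]
        exact ⟨hne, by simpa using hs⟩
      refine (hinf.sdiff hfin).mono ?_
      rintro s ⟨hs, hs'⟩
      have hs2 : (min2 M').eval s ≠ 0 ∧ (M' 0 0).eval s ≠ 0 ∧ M'.det.eval s ≠ 0 := by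
        simp only [eval_mul, Set.mem_ofPred_eq, mul_eq_zero, not_or] at hs'
        exact ⟨hs'.1, hs'.2.1, hs'.2.2⟩
      have hiso : Iso (M'.map (eval s)) := by
        rw [hM', iso_map_eval]
        exact iso_conj' _ _ hg hs
      have hdm : (M'.map (eval s)).det = M'.det.eval s :=
        (RingHom.map_det (evalRingHom s) M').symm
      have hmm : min2 (M'.map (eval s)) = (min2 M').eval s := by
        simp [min2]
      have hsol := sol_of_iso (M'.map (eval s)) (by
        ext i j
        rw [Matrix.transpose_apply, Matrix.map_apply, Matrix.map_apply, hM's.apply])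
        (by simpa using hs2.2.1) (by rw [hmm]; exact hs2.1) (by rw [hdm]; exact hs2.2.2) hiso
      rw [hmm, hdm] at hsol
      obtain ⟨X, Y, Z, h0, h1⟩ := hsol
      have hAe : -(min2 M').eval s = A₀.eval s * (a.eval s) ^ 2 := by
        have := congrArg (eval s) hA
        simpa using this
      have hBe : -((M' 0 0).eval s * M'.det.eval s) = B₀.eval s * (b.eval s) ^ 2 := by
        have := congrArg (eval s) hB
        simpa using this
      have ha0 : a.eval s ≠ 0 := by
        intro h; rw [h] at hAe; apply hs2.1; linear_combination -hAe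
      have hb0 : b.eval s ≠ 0 := by
        intro h; rw [h] at hBe
        exact mul_ne_zero hs2.2.1 hs2.2.2 (by linear_combination -hBe)
      refine ⟨X, a.eval s * Y, b.eval s * Z, ?_, ?_⟩
      · rintro ⟨hX, hY, hZ⟩
        exact h0 ⟨hX, (mul_eq_zero.mp hY).resolve_left ha0, (mul_eq_zero.mp hZ).resolve_left hb0⟩
      · rw [h1]
        simp only [Matrix.map_apply]
        linear_combination Y ^ 2 * hAe + Z ^ 2 * hBe
  obtain ⟨X, Y, Z, h0, h1⟩ := key
  rw [hA, hB]
  refine ⟨a * b * X, b * Y, a * Z, ?_, ?_⟩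
  · rintro ⟨hX, hY, hZ⟩
    exact h0 ⟨(mul_eq_zero.mp hX).resolve_left (mul_ne_zero ha hb),
      (mul_eq_zero.mp hY).resolve_left hb, (mul_eq_zero.mp hZ).resolve_left ha⟩
  · rw [mul_pow, h1]; ring

end Main

end Run7.h334
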