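import Pool.Agent.Run7.h334.TF

/-!
# The converse criterion, and scaling
-/

namespace Run7.h334

open Polynomial Matrix IntermediateField

section Order

variable {F : Type*} [Field F]

theorem exists_min_order (s : F) (n : ℕ) : ∀ (x y : F[X]), x.natDegree + y.natDegree ≤ n →
    ¬ (x = 0 ∧ y = 0) → ∃ (e : ℕ) (x' y' : F[X]), x = (X - C s) ^ e * x' ∧
      y = (X - C s) ^ e * y' ∧ (x'.eval s ≠ 0 ∨ y'.eval s ≠ 0) := by
  induction n with
  | zero =>
    intro x y hd h0
    refine ⟨0, x, y, by simp, by simp, ?_⟩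
    by_contra hcon
    push Not at hcon
    apply h0
    have hx : x = C (x.eval s) := by
      rw [eq_C_of_natDegree_eq_zero (p := x) (by omega)]; simp
    have hy : y = C (y.eval s) := by
      rw [eq_C_of_natDegree_eq_zero (p := y) (by omega)]; simp
    rw [hx, hy, hcon.1, hcon.2]; simp
  | succ n ih =>
    intro x y hd h0
    by_cases hxy : x.eval s ≠ 0 ∨ y.eval s ≠ 0
    · exact ⟨0, x, y, by simp, by simp, hxy⟩
    · push Not at hxy
      obtain ⟨x1, hx1⟩ := (dvd_iff_isRoot.mpr hxy.1 : X - C s ∣ x)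
      obtain ⟨y1, hy1⟩ := (dvd_iff_isRoot.mpr hxy.2 : X - C s ∣ y)
      have hne : (X - C s : F[X]) ≠ 0 := X_sub_C_ne_zero s
      have h1 : ¬ (x1 = 0 ∧ y1 = 0) := by
        rintro ⟨rfl, rfl⟩
        exact h0 ⟨by rw [hx1, mul_zero], by rw [hy1, mul_zero]⟩
      have hdeg : x1.natDegree + y1.natDegree ≤ n := by
        have dx : x1 ≠ 0 → x.natDegree = 1 + x1.natDegree := by
          intro h; rw [hx1, natDegree_mul hne h, natDegree_X_sub_C]
        have dy : y1 ≠ 0 → y.natDegree = 1 + y1.natDegree := by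
          intro h; rw [hy1, natDegree_mul hne h, natDegree_X_sub_C]
        by_cases ex : x1 = 0
        · have ey : y1 ≠ 0 := fun h => h1 ⟨ex, h⟩
          have := dy ey
          have e0 : x1.natDegree = 0 := by rw [ex]; simp
          omega
        · have := dx ex
          by_cases ey : y1 = 0
          · have e0 : y1.natDegree = 0 := by rw [ey]; simp
            omega
          · have := dy ey
            omega
      obtain ⟨e, x', y', hx', hy', h⟩ := ih x1 y1 hdeg h1
      exact ⟨e + 1, x', y', by rw [hx1, hx']; ring, by rw [hy1, hy']; ring, h⟩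

theorem sq_of_odd (s : F) (x y z m Q : F[X]) (h : x ^ 2 + m * y ^ 2 = Q * z ^ 2)
    (h0 : ¬ (x = 0 ∧ y = 0 ∧ z = 0)) (hodd : Odd (rootMultiplicity s Q)) :
    ∃ r : F, r ^ 2 = -m.eval s := by
  have hQ : Q ≠ 0 := by
    rintro rfl
    simp at hodd
  have hxy : ¬ (x = 0 ∧ y = 0) := by
    rintro ⟨rfl, rfl⟩
    have : Q * z ^ 2 = 0 := by rw [← h]; ring
    rcases mul_eq_zero.mp this with h | h
    · exact hQ h
    · exact h0 ⟨rfl, rfl, by simpa using h⟩
  obtain ⟨e, x', y', hx', hy', h1⟩ := exists_min_order s _ x y le_rfl hxy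
  by_cases hv : (x' ^ 2 + m * y' ^ 2).eval s = 0
  · simp only [eval_add, eval_pow, eval_mul] at hv
    have hy0 : y'.eval s ≠ 0 := by
      intro hy
      rw [hy] at hv h1
      have : x'.eval s = 0 := by
        have : (x'.eval s) ^ 2 = 0 := by linear_combination hv
        simpa using this
      rw [this] at h1
      simp at h1
    refine ⟨x'.eval s / y'.eval s, ?_⟩
    rw [div_pow]
    field_simp
    linear_combination hv
  · exfalso
    have hne : (X - C s : F[X]) ≠ 0 := X_sub_C_ne_zero s
    have hvne : x' ^ 2 + m * y' ^ 2 ≠ 0 := by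
      intro h; rw [h] at hv; simp at hv
    have e1 : ((X - C s) ^ e * (X - C s) ^ e) * (x' ^ 2 + m * y' ^ 2) = Q * z ^ 2 := by
      rw [← h, hx', hy']; ring
    have hz : z ≠ 0 := by
      rintro rfl
      have : ((X - C s) ^ e * (X - C s) ^ e) * (x' ^ 2 + m * y' ^ 2) = 0 := by rw [e1]; ring
      rcases mul_eq_zero.mp this with h | h
      · exact mul_ne_zero (pow_ne_zero e hne) (pow_ne_zero e hne) h
      · exact hvne h
    have e2 := congrArg (rootMultiplicity s) e1
    have hpe : (X - C s : F[X]) ^ e ≠ 0 := pow_ne_zero e hne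
    rw [rootMultiplicity_mul (mul_ne_zero (mul_ne_zero hpe hpe) hvne),
      rootMultiplicity_mul (mul_ne_zero hpe hpe), rootMultiplicity_X_sub_C_pow,
      rootMultiplicity_eq_zero (p := x' ^ 2 + m * y' ^ 2) hv, pow_two z,
      rootMultiplicity_mul (mul_ne_zero hQ (mul_ne_zero hz hz)),
      rootMultiplicity_mul (mul_ne_zero hz hz)] at e2
    obtain ⟨r, hr⟩ := hodd
    omega

end Order

section Converse

variable {k : Type*} [Field k] [CharZero k] {Ω : Type*} [Field Ω] [Algebra k Ω]

omit [CharZero k] in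
theorem aeval_min2_conj (s : Ω) (M : Matrix (Fin 3) (Fin 3) k[X]) (hM : M.IsSymm)
    (g : Matrix (Fin 3) (Fin 3) k) :
    aeval s (min2 ((g.map C)ᵀ * M * g.map C)) = (fun i => aeval s (C ((g.adjugate 2) i))) ⬝ᵥ
      (ev s M).adjugate *ᵥ (fun i => aeval s (C ((g.adjugate 2) i))) := by
  rw [← min2_ev, ev_conj, min2_conj _ (ev_isSymm s hM)]
  have : (g.map (algebraMap k Ω)).adjugate 2 = fun i => aeval s (C ((g.adjugate 2) i)) := by
    funext i
    rw [aeval_C]
    have := congrFun (congrFun (RingHom.map_adjugate (algebraMap k Ω) g) 2) i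
    simpa using this.symm
  rw [this]

/-- The converse of the local criterion. -/
theorem tf' (M : Matrix (Fin 3) (Fin 3) k[X]) (hM : M.IsSymm) (hD : M.det ≠ 0)
    (hadj : ∀ s : Ω, aeval s M.det = 0 → (ev s M).adjugate ≠ 0) (hiso : Iso M)
    (s : Ω) (hodd : Odd (mult s M.det)) (j : Fin 3) : SqIn k s (-(ev s M).adjugate j j) := by
  obtain ⟨g, hg, hq1, hm1, hq0, hm0⟩ := gen_basis M hM hD hadj
  have hminv := aeval_min2_conj s M hM g
  set M' := (g.map C)ᵀ * M * g.map C with hM'
  have hM's : M'.IsSymm := isSymm_conj M hM _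
  have hgC : (g.map C).det = C g.det := by
    exact (RingHom.map_det (C : k →+* k[X]) g).symm
  have hdet : M'.det = C (g.det ^ 2) * M.det := by
    rw [hM', Matrix.det_mul, Matrix.det_mul, Matrix.det_transpose, hgC, C_pow]; ring
  have hD' : M'.det ≠ 0 := by
    rw [hdet]; exact mul_ne_zero (by simpa using hg) hD
  have hgC0 : (g.map C).det ≠ 0 := by rw [hgC]; simpa using hg
  have hsol := sol_of_iso M' hM's hq0 hm0 hD' (iso_conj' M _ hgC0 hiso)
  obtain ⟨x, y, z, h0, h1⟩ := hsol
  have hDs : aeval s M.det = 0 := by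
    apply aeval_eq_zero_of_mult
    rintro h
    rw [h] at hodd
    simp at hodd
  -- pass to `K₁ = k(s)`
  let K₁ := k⟮s⟯
  let s₁ : K₁ := AdjoinSimple.gen k s
  let f : k →+* K₁ := algebraMap k K₁
  have hs₁ : algebraMap K₁ Ω s₁ = s := AdjoinSimple.algebraMap_gen k s
  have hinj : Function.Injective f := f.injective
  have hmult : mult s M.det = rootMultiplicity s₁ (M.det.map f) := by
    have e := eq_rootMultiplicity_map (p := M.det.map f) (algebraMap K₁ Ω).injective s₁
    rw [Polynomial.map_map, ← IsScalarTower.algebraMap_eq, hs₁] at e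
    exact e.symm
  obtain ⟨r, hr⟩ := sq_of_odd s₁ (x.map f) (y.map f) (z.map f) ((min2 M').map f)
    ((-(M' 0 0 * M'.det)).map f) (by
      have := congrArg (Polynomial.map f) h1
      simp only [Polynomial.map_pow, Polynomial.map_add, Polynomial.map_mul,
        Polynomial.map_neg] at this ⊢
      linear_combination this) (by
      rintro ⟨hx, hy, hz⟩
      rw [Polynomial.map_eq_zero] at hx hy hz
      exact h0 ⟨hx, hy, hz⟩) (by
      have e1 : rootMultiplicity s₁ ((-(M' 0 0 * M'.det)).map f) =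
          mult s (-(M' 0 0 * M'.det)) := by
        have e := eq_rootMultiplicity_map (p := (-(M' 0 0 * M'.det)).map f)
          (algebraMap K₁ Ω).injective s₁
        rw [Polynomial.map_map, ← IsScalarTower.algebraMap_eq, hs₁] at e
        exact e
      rw [e1, mult_neg, mult_mul s hq0 hD', mult_eq_zero (hq1 s hDs), hdet,
        mult_mul s (by simpa using hg) hD, mult_eq_zero (P := C (g.det ^ 2)) (by simpa using hg)]
      simpa using hodd)
  have hms : SqIn k s (-aeval s (min2 M')) := by
    refine ⟨algebraMap K₁ Ω r, r.2, ?_⟩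
    rw [← map_pow, hr, map_neg]
    congr 1
    rw [eval_map, ← hs₁, hom_eval₂, ← IsScalarTower.algebraMap_eq]
    rfl
  rw [hminv] at hms
  have hne : (fun i => aeval s (C ((g.adjugate 2) i))) ⬝ᵥ
      (ev s M).adjugate *ᵥ (fun i => aeval s (C ((g.adjugate 2) i))) ≠ 0 := by
    rw [← hminv]; exact hm1 s (Or.inl hDs)
  have := SqIn.adj hM hDs (n := fun i => C ((g.adjugate 2) i)) (n' := Pi.single j 1) hne hms
  rwa [adj_jj] at this

end Converse

end Run7.h334
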