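import Pool.Agent.Run7.h334.Legendre

/-!
# Ternary quadratic forms and symbols
-/

namespace Run7.h334

open Polynomial Matrix

/-- The symmetric matrix `M` represents zero nontrivially. -/
def Iso {R : Type*} [CommRing R] (M : Matrix (Fin 3) (Fin 3) R) : Prop :=
  ∃ z : Fin 3 → R, z ≠ 0 ∧ z ⬝ᵥ M *ᵥ z = 0

section Basic

variable {R : Type*} [CommRing R]

/-- leading principal `2 × 2` minor -/
def min2 (M : Matrix (Fin 3) (Fin 3) R) : R := M 0 0 * M 1 1 - M 0 1 ^ 2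

theorem sylvester (M : Matrix (Fin 3) (Fin 3) R) (hM : M.IsSymm) :
    M 0 0 * M.det = min2 M * (M 0 0 * M 2 2 - M 0 2 ^ 2) -
      (M 0 0 * M 1 2 - M 0 1 * M 0 2) ^ 2 := by
  have h10 : M 1 0 = M 0 1 := hM.apply 0 1
  have h20 : M 2 0 = M 0 2 := hM.apply 0 2
  have h21 : M 2 1 = M 1 2 := hM.apply 1 2
  rw [det_fin_three, min2, h10, h20, h21]
  ring

theorem iso_of_sol [IsDomain R] (M : Matrix (Fin 3) (Fin 3) R) (hM : M.IsSymm)
    (h0 : M 0 0 ≠ 0) (hm : min2 M ≠ 0) (hD : M.det ≠ 0)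
    (h : Sol (-min2 M) (-(M 0 0 * M.det))) : Iso M := by
  have h10 : M 1 0 = M 0 1 := hM.apply 0 1
  have h20 : M 2 0 = M 0 2 := hM.apply 0 2
  have h21 : M 2 1 = M 1 2 := hM.apply 1 2
  obtain ⟨X, Y, Z, hne, hX⟩ := h
  -- `z = m Y e₀ + X w' + q Z u`
  set q := M 0 0 with hq
  set m := min2 M with hmdef
  set D := M.det with hDdef
  have hmeq : m = q * M 1 1 - M 0 1 ^ 2 := rfl
  have hDeq : D = q * M 1 1 * M 2 2 - q * M 1 2 ^ 2 - M 0 1 ^ 2 * M 2 2
      + 2 * M 0 1 * M 1 2 * M 0 2 - M 0 2 ^ 2 * M 1 1 := by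
    rw [hDdef, det_fin_three, h10, h20, h21]; ring
  let u0 : R := M 0 1 * M 1 2 - M 0 2 * M 1 1
  let u1 : R := M 0 1 * M 0 2 - q * M 1 2
  let z : Fin 3 → R := ![m * Y - M 0 1 * X + q * Z * u0, q * X + q * Z * u1, q * Z * m]
  refine ⟨z, ?_, ?_⟩
  · intro hz
    have z0 : m * Y - M 0 1 * X + q * Z * u0 = 0 := congrFun hz 0
    have z1 : q * X + q * Z * u1 = 0 := congrFun hz 1
    have z2 : q * Z * m = 0 := congrFun hz 2
    have hZ : Z = 0 := by
      rcases mul_eq_zero.mp z2 with h | h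
      · rcases mul_eq_zero.mp h with h | h
        · exact absurd h h0
        · exact h
      · exact absurd h hm
    subst hZ
    have hX0 : X = 0 := by
      have : q * X = 0 := by linear_combination z1
      exact (mul_eq_zero.mp this).resolve_left h0
    subst hX0
    have hY0 : Y = 0 := by
      have : m * Y = 0 := by linear_combination z0
      exact (mul_eq_zero.mp this).resolve_left hm
    exact hne ⟨rfl, hY0, rfl⟩
  · simp only [dotProduct, mulVec, Fin.sum_univ_three, h10, h20, h21, z]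
    simp only [Matrix.cons_val_zero, Matrix.cons_val_one, Matrix.cons_val, ← hq]
    have : q * m * (X ^ 2 + m * Y ^ 2 + q * D * Z ^ 2) = 0 := by
      rw [hX]; ring
    rw [hmeq, hDeq] at this
    simp only [u0, u1, hmeq]
    linear_combination this

theorem sol_of_iso [IsDomain R] (M : Matrix (Fin 3) (Fin 3) R) (hM : M.IsSymm)
    (h0 : M 0 0 ≠ 0) (hm : min2 M ≠ 0) (hD : M.det ≠ 0)
    (h : Iso M) : Sol (-min2 M) (-(M 0 0 * M.det)) := by
  have h10 : M 1 0 = M 0 1 := hM.apply 0 1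
  have h20 : M 2 0 = M 0 2 := hM.apply 0 2
  have h21 : M 2 1 = M 1 2 := hM.apply 1 2
  obtain ⟨z, hz, hq0⟩ := h
  set q := M 0 0 with hq
  set m := min2 M with hmdef
  set D := M.det with hDdef
  have hmeq : m = q * M 1 1 - M 0 1 ^ 2 := rfl
  have hDeq : D = q * M 1 1 * M 2 2 - q * M 1 2 ^ 2 - M 0 1 ^ 2 * M 2 2
      + 2 * M 0 1 * M 1 2 * M 0 2 - M 0 2 ^ 2 * M 1 1 := by
    rw [hDdef, det_fin_three, h10, h20, h21]; ring
  -- `α = b(z, e₀)`, `β = b(z, w')`, `γ = b(z, u) = D z₂`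
  let α : R := q * z 0 + M 0 1 * z 1 + M 0 2 * z 2
  let α' : R := M 0 1 * z 0 + M 1 1 * z 1 + M 1 2 * z 2
  let β : R := q * α' - M 0 1 * α
  let γ : R := D * z 2
  have hqz : q * z 0 ^ 2 + M 1 1 * z 1 ^ 2 + M 2 2 * z 2 ^ 2 + 2 * M 0 1 * z 0 * z 1
      + 2 * M 0 2 * z 0 * z 2 + 2 * M 1 2 * z 1 * z 2 = 0 := by
    have := hq0
    simp only [dotProduct, mulVec, Fin.sum_univ_three, h10, h20, h21, ← hq] at this
    linear_combination this
  refine ⟨D * β, D * α, γ, ?_, ?_⟩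
  · rintro ⟨hβ, hα, hγ⟩
    have hz2 : z 2 = 0 := (mul_eq_zero.mp hγ).resolve_left hD
    have hα0 : α = 0 := (mul_eq_zero.mp hα).resolve_left hD
    have hβ0 : β = 0 := (mul_eq_zero.mp hβ).resolve_left hD
    have hz1 : z 1 = 0 := by
      have : m * z 1 = 0 := by
        have e : β = m * z 1 + (q * M 1 2 - M 0 1 * M 0 2) * z 2 := by
          simp only [β, α, α', hmeq]; ring
        rw [hβ0, hz2] at e; linear_combination -e
      exact (mul_eq_zero.mp this).resolve_left hm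
    have hz0 : z 0 = 0 := by
      have : q * z 0 = 0 := by
        have e : α = q * z 0 + M 0 1 * z 1 + M 0 2 * z 2 := rfl
        rw [hα0, hz1, hz2] at e; linear_combination -e
      exact (mul_eq_zero.mp this).resolve_left h0
    apply hz
    funext i
    fin_cases i
    · exact hz0
    · exact hz1
    · exact hz2
  · simp only [β, α, α', γ]
    rw [hmeq]
    have hD2 := hDeq
    -- `D (m α² + β²) + q D² z₂² = q m D q(z)`
    have key : (q * (M 0 1 * z 0 + M 1 1 * z 1 + M 1 2 * z 2)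
        - M 0 1 * (q * z 0 + M 0 1 * z 1 + M 0 2 * z 2)) ^ 2
        + (q * M 1 1 - M 0 1 ^ 2) * (q * z 0 + M 0 1 * z 1 + M 0 2 * z 2) ^ 2
        + q * D * z 2 ^ 2 = 0 := by
      rw [hD2]
      linear_combination (q * (q * M 1 1 - M 0 1 ^ 2)) * hqz
    linear_combination D ^ 2 * key

/-- rank one property of the adjugate of a singular symmetric matrix -/
theorem adj_rank_one (M : Matrix (Fin 3) (Fin 3) R) (hM : M.IsSymm) (hD : M.det = 0)
    (n n' : Fin 3 → R) :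
    (n ⬝ᵥ M.adjugate *ᵥ n) * (n' ⬝ᵥ M.adjugate *ᵥ n') = (n ⬝ᵥ M.adjugate *ᵥ n') ^ 2 := by
  have h10 : M 1 0 = M 0 1 := hM.apply 0 1
  have h20 : M 2 0 = M 0 2 := hM.apply 0 2
  have h21 : M 2 1 = M 1 2 := hM.apply 1 2
  have hDeq : M 0 0 * M 1 1 * M 2 2 - M 0 0 * M 1 2 ^ 2 - M 0 1 ^ 2 * M 2 2
      + 2 * M 0 1 * M 1 2 * M 0 2 - M 0 2 ^ 2 * M 1 1 = 0 := by
    rw [← hD, det_fin_three, h10, h20, h21]; ring
  -- entries of the adjugate
  have A : M.adjugate = !![M 1 1 * M 2 2 - M 1 2 ^ 2, M 0 2 * M 1 2 - M 0 1 * M 2 2,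
      M 0 1 * M 1 2 - M 0 2 * M 1 1; M 0 2 * M 1 2 - M 0 1 * M 2 2, M 0 0 * M 2 2 - M 0 2 ^ 2,
      M 0 1 * M 0 2 - M 0 0 * M 1 2; M 0 1 * M 1 2 - M 0 2 * M 1 1,
      M 0 1 * M 0 2 - M 0 0 * M 1 2, M 0 0 * M 1 1 - M 0 1 ^ 2] := by
    rw [adjugate_fin_three, h10, h20, h21]
    ext i j
    fin_cases i <;> fin_cases j <;> simp <;> ring
  rw [A]
  simp only [dotProduct, mulVec, Fin.sum_univ_three, Matrix.of_apply, Matrix.cons_val_zero,
    Matrix.cons_val_one, Matrix.cons_val, Matrix.cons_val', Matrix.empty_val',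
    Matrix.cons_val_fin_one]
  linear_combination ((n 0 * n' 1 - n 1 * n' 0) ^ 2 * M 2 2 + (n 0 * n' 2 - n 2 * n' 0) ^ 2 * M 1 1
    + (n 1 * n' 2 - n 2 * n' 1) ^ 2 * M 0 0
    - 2 * (n 0 * n' 1 - n 1 * n' 0) * (n 0 * n' 2 - n 2 * n' 0) * M 1 2
    + 2 * (n 0 * n' 1 - n 1 * n' 0) * (n 1 * n' 2 - n 2 * n' 1) * M 0 2
    - 2 * (n 0 * n' 2 - n 2 * n' 0) * (n 1 * n' 2 - n 2 * n' 1) * M 0 1) * hDeq

/-- minors of `gᵀ M g` -/
theorem min2_conj (M : Matrix (Fin 3) (Fin 3) R) (hM : M.IsSymm) (g : Matrix (Fin 3) (Fin 3) R) :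
    min2 (gᵀ * M * g) = (g.adjugate 2) ⬝ᵥ M.adjugate *ᵥ (g.adjugate 2) := by
  have h10 : M 1 0 = M 0 1 := hM.apply 0 1
  have h20 : M 2 0 = M 0 2 := hM.apply 0 2
  have h21 : M 2 1 = M 1 2 := hM.apply 1 2
  rw [min2, adjugate_fin_three, adjugate_fin_three]
  simp only [dotProduct, mulVec, Fin.sum_univ_three, Matrix.of_apply, Matrix.cons_val_zero,
    Matrix.cons_val_one, Matrix.cons_val, Matrix.cons_val', Matrix.empty_val',
    Matrix.cons_val_fin_one, Matrix.mul_apply, Matrix.transpose_apply, h10, h20, h21]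
  ring

theorem isSymm_conj (M : Matrix (Fin 3) (Fin 3) R) (hM : M.IsSymm)
    (g : Matrix (Fin 3) (Fin 3) R) : (gᵀ * M * g).IsSymm := by
  rw [Matrix.IsSymm, transpose_mul, transpose_mul, transpose_transpose, hM.eq, mul_assoc]

theorem iso_conj [IsDomain R] (M g : Matrix (Fin 3) (Fin 3) R) (hg : g.det ≠ 0)
    (h : Iso (gᵀ * M * g)) : Iso M := by
  obtain ⟨z, hz, h⟩ := h
  refine ⟨g *ᵥ z, ?_, ?_⟩
  · intro h0
    exact hg ((Matrix.exists_mulVec_eq_zero_iff).mp ⟨z, hz, h0⟩)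
  · rw [← h, ← Matrix.mulVec_mulVec, ← Matrix.mulVec_mulVec]
    rw [Matrix.dotProduct_mulVec z gᵀ, Matrix.vecMul_transpose]

theorem iso_conj' [IsDomain R] (M g : Matrix (Fin 3) (Fin 3) R) (hg : g.det ≠ 0)
    (h : Iso M) : Iso (gᵀ * M * g) := by
  obtain ⟨z, hz, h⟩ := h
  refine ⟨g.adjugate *ᵥ z, ?_, ?_⟩
  · intro h0
    have : g.adjugate.det ≠ 0 := by
      rw [Matrix.det_adjugate]; exact pow_ne_zero _ hg
    exact this ((Matrix.exists_mulVec_eq_zero_iff).mp ⟨z, hz, h0⟩)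
  · have e1 : g *ᵥ (g.adjugate *ᵥ z) = g.det • z := by
      rw [Matrix.mulVec_mulVec, Matrix.mul_adjugate, Matrix.smul_mulVec, Matrix.one_mulVec]
    rw [← Matrix.mulVec_mulVec, ← Matrix.mulVec_mulVec, e1,
      Matrix.dotProduct_mulVec _ gᵀ, Matrix.vecMul_transpose, e1, Matrix.mulVec_smul,
      dotProduct_smul, smul_dotProduct, h]
    simp

theorem iso_of_det_eq_zero [IsDomain R] (M : Matrix (Fin 3) (Fin 3) R) (hD : M.det = 0) :
    Iso M := by
  obtain ⟨z, hz, h⟩ := (Matrix.exists_mulVec_eq_zero_iff).mpr hD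
  exact ⟨z, hz, by rw [h]; simp⟩

end Basic

end Run7.h334
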