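import Pool.Agent.Run7.h334.Unif

/-!
# Preliminaries for the transfer of links
-/

namespace Run7.h334

open Polynomial Matrix IntermediateField Filter Topology

section Poly

variable {k : Type*} [Field k]

theorem exists_coprime_factor (P : Fin 2 → k[X]) (hP : P ≠ 0) :
    ∃ (h : k[X]) (ψ : Fin 2 → k[X]), h ≠ 0 ∧ P = (fun i => h * ψ i) ∧
      IsCoprime (ψ 0) (ψ 1) := by
  classical
  let h := EuclideanDomain.gcd (P 0) (P 1)
  obtain ⟨u, hu⟩ := EuclideanDomain.gcd_dvd_left (P 0) (P 1)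
  obtain ⟨v, hv⟩ := EuclideanDomain.gcd_dvd_right (P 0) (P 1)
  have hh : h ≠ 0 := by
    intro h0
    apply hP
    funext i
    have h0' : EuclideanDomain.gcd (P 0) (P 1) = 0 := h0
    fin_cases i
    · simp only [Fin.zero_eta, Pi.zero_apply]; rw [hu, h0', zero_mul]
    · simp only [Fin.mk_one, Pi.zero_apply]; rw [hv, h0', zero_mul]
  refine ⟨h, ![u, v], hh, ?_, ?_⟩
  · funext i
    fin_cases i
    · simpa using hu
    · simpa using hv
  · have := EuclideanDomain.gcd_eq_gcd_ab (P 0) (P 1)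
    refine ⟨EuclideanDomain.gcdA (P 0) (P 1), EuclideanDomain.gcdB (P 0) (P 1), ?_⟩
    simp only [Matrix.cons_val_zero, Matrix.cons_val_one]
    apply mul_left_cancel₀ hh
    have e : h = P 0 * EuclideanDomain.gcdA (P 0) (P 1) + P 1 * EuclideanDomain.gcdB (P 0) (P 1) :=
      this
    calc h * (EuclideanDomain.gcdA (P 0) (P 1) * u + EuclideanDomain.gcdB (P 0) (P 1) * v)
        = (h * u) * EuclideanDomain.gcdA (P 0) (P 1) +
          (h * v) * EuclideanDomain.gcdB (P 0) (P 1) := by ring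
      _ = P 0 * EuclideanDomain.gcdA (P 0) (P 1) +
          P 1 * EuclideanDomain.gcdB (P 0) (P 1) := by
          rw [show h * u = P 0 from hu.symm, show h * v = P 1 from hv.symm]
      _ = h * 1 := by rw [← e, mul_one]

theorem eval_ne_of_coprime {R : Type*} [CommRing R] [Nontrivial R] [Algebra k R]
    {ψ : Fin 2 → k[X]} (h : IsCoprime (ψ 0) (ψ 1)) (s : R) :
    (fun i => aeval s (ψ i)) ≠ 0 := by
  intro h0
  obtain ⟨u, v, huv⟩ := h
  have e0 : aeval s (ψ 0) = 0 := congrFun h0 0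
  have e1 : aeval s (ψ 1) = 0 := congrFun h0 1
  have := congrArg (aeval s) huv
  simp [e0, e1] at this

/-- remove the zero at `s` of an isotropic vector -/
theorem iso_eval_aux (s : k) (M : Matrix (Fin 3) (Fin 3) k[X]) (n : ℕ) : ∀ z : Fin 3 → k[X],
    (z 0).natDegree + (z 1).natDegree + (z 2).natDegree ≤ n → z ≠ 0 → z ⬝ᵥ M *ᵥ z = 0 →
    Iso (M.map (eval s)) := by
  induction n with
  | zero =>
    intro z hd hz h
    refine ⟨fun i => (z i).eval s, ?_, ?_⟩
    · intro h0
      apply hz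
      funext i
      have h1 : (z i).natDegree = 0 := by fin_cases i <;> simp <;> omega
      rw [eq_C_of_natDegree_eq_zero h1]
      have h2 := congrFun h0 i
      simp only [Pi.zero_apply] at h2
      rw [eq_C_of_natDegree_eq_zero h1, eval_C] at h2
      rw [h2]; simp
    · have := congrArg (eval s) h
      simpa [dotProduct, mulVec, Fin.sum_univ_three] using this
  | succ n ih =>
    intro z hd hz h
    by_cases hzs : (fun i => (z i).eval s) = 0
    · have hdvd : ∀ i, (X - C s) ∣ z i := fun i => dvd_iff_isRoot.mpr (congrFun hzs i)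
      choose w hw using hdvd
      have hne : (X - C s : k[X]) ≠ 0 := X_sub_C_ne_zero s
      have hw0 : w ≠ 0 := by
        rintro rfl
        apply hz; funext i; rw [hw i]; simp
      apply ih w _ hw0
      · have h1 : (X - C s) ^ 2 * (w ⬝ᵥ M *ᵥ w) = 0 := by
          rw [← h]
          simp only [dotProduct, mulVec, Fin.sum_univ_three, hw 0, hw 1, hw 2]
          ring
        exact (mul_eq_zero.mp h1).resolve_left (pow_ne_zero _ hne)
      · have hd' : ∀ i, w i ≠ 0 → (z i).natDegree = 1 + (w i).natDegree := by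
          intro i hi
          rw [hw i, natDegree_mul hne hi, natDegree_X_sub_C]
        have hle : ∀ i, (w i).natDegree ≤ (z i).natDegree := by
          intro i
          by_cases hi : w i = 0
          · rw [hi]; simp
          · rw [hd' i hi]; omega
        obtain ⟨i, hi⟩ := Function.ne_iff.mp hw0
        have h1 := hd' i hi
        have l0 := hle 0
        have l1 := hle 1
        have l2 := hle 2
        fin_cases i <;> simp at h1 <;> omega
    · refine ⟨fun i => (z i).eval s, hzs, ?_⟩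
      have := congrArg (eval s) h
      simpa [dotProduct, mulVec, Fin.sum_univ_three] using this

theorem iso_eval (s : k) {M : Matrix (Fin 3) (Fin 3) k[X]} (h : Iso M) :
    Iso (M.map (eval s)) := by
  obtain ⟨z, hz, h⟩ := h
  exact iso_eval_aux s M _ z le_rfl hz h

end Poly

section N

variable {k : Type*} [Field k] {Ω : Type*} [Field Ω] [Algebra k Ω]
  {ι : Type*} {a : ι → Fin 3 → ℕ} {e : ι → ℕ}

theorem ev_N (c : k) (C : Coeffs k ι a e) (l : ι) (Φ : Fin 2 → k[X]) (s : Ω) :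
    ev s (N c C l Φ) = N c C l (fun i => aeval s (Φ i)) := by
  rw [← N_map]; rfl

theorem N_eval (c : k) (C : Coeffs k ι a e) (l : ι) (Φ : Fin 2 → k[X]) (s : k) :
    (N c C l Φ).map (eval s) = N c C l (fun i => (Φ i).eval s) := by
  have := N_map (aeval s : k[X] →ₐ[k] k) c C l Φ
  have e1 : ∀ P : k[X], aeval s P = eval s P := fun P => by simp
  simp only [e1] at this
  rw [← this]
  ext i j
  simp

theorem N_algebraMap (c : k) (C : Coeffs k ι a e) (l : ι) (x : Fin 2 → k) :
    (N c C l x).map (algebraMap k Ω) = N c C l (fun i => algebraMap k Ω (x i)) := by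
  have := N_map (Algebra.ofId k Ω) c C l x
  exact this

theorem det_algebraMap (c : k) (C : Coeffs k ι a e) (l : ι) (x : Fin 2 → k) :
    algebraMap k Ω (N c C l x).det = (N c C l (fun i => algebraMap k Ω (x i))).det := by
  rw [← N_algebraMap]
  exact (RingHom.map_det (algebraMap k Ω) _)

theorem adj_algebraMap (c : k) (C : Coeffs k ι a e) (l : ι) (x : Fin 2 → k) :
    (N c C l x).adjugate.map (algebraMap k Ω) =
      (N c C l (fun i => algebraMap k Ω (x i))).adjugate := by
  rw [← N_algebraMap]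
  exact (RingHom.map_adjugate (algebraMap k Ω) _)

theorem aeval_det_N (c : k) (C : Coeffs k ι a e) (l : ι) (Φ : Fin 2 → k[X]) (s : Ω) :
    aeval s (N c C l Φ).det = (N c C l (fun i => aeval s (Φ i))).det := by
  rw [← det_ev, ev_N]

/-- entries of the adjugate lie in the field generated by the point -/
theorem adj_mem (L : IntermediateField k Ω) (c : k) (C : Coeffs k ι a e) (l : ι)
    {x : Fin 2 → Ω} (hx : ∀ i, x i ∈ L) (i j : Fin 3) : (N c C l x).adjugate i j ∈ L := by
  let y : Fin 2 → L := fun i => ⟨x i, hx i⟩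
  have h := N_map (IntermediateField.val L) c C l y
  have h2 : (fun i => (IntermediateField.val L) (y i)) = x := rfl
  rw [h2] at h
  rw [← h]
  have h3 := congrFun (congrFun (RingHom.map_adjugate (IntermediateField.val L).toRingHom
    (N c C l y)) i) j
  have h4 : ((N c C l y).map (IntermediateField.val L)).adjugate i j =
      ((N c C l y).adjugate i j : Ω) := h3.symm
  rw [h4]
  exact ((N c C l y).adjugate i j).2

end N

section NearLemmas

variable {k : Type*} [NontriviallyNormedField k] [CharZero k] {Ω : Type*} [NormedField Ω]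
  [NormedAlgebra k Ω] [IsUltrametricDist Ω] [IsAlgClosed Ω] [Algebra.IsAlgebraic k Ω]
  {ι : Type*} {a : ι → Fin 3 → ℕ} {e : ι → ℕ} {c : k} {C₀ : Coeffs k ι a e}
  {Z : ι → Finset Ω} {jj : ι → Ω → Fin 3} {ε : ℝ} {C : Coeffs k ι a e} {ρ : Ω → Ω}

theorem Near.exists_root (h : Near c C₀ Z jj ε C ρ) {l : ι} {x : Fin 2 → Ω}
    (hx : (N c C l x).det = 0) : ∃ t ∈ Z l, x 0 = ρ t * x 1 := by
  rw [h.det_eq] at hx
  rcases mul_eq_zero.mp hx with h1 | h1
  · exact absurd ((map_eq_zero _).mp h1) (h.lead_ne l)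
  · obtain ⟨t, ht, h2⟩ := Finset.prod_eq_zero_iff.mp h1
    exact ⟨t, ht, sub_eq_zero.mp h2⟩

theorem ne_of_root {x : Fin 2 → Ω} (hx : x ≠ 0) {r : Ω} (h : x 0 = r * x 1) : x 1 ≠ 0 := by
  intro h1
  apply hx
  funext i
  fin_cases i
  · simp [h, h1]
  · simpa using h1

theorem eq_smul_of_root {x : Fin 2 → Ω} {r : Ω} (h : x 0 = r * x 1) :
    x = fun i => x 1 * (![r, 1] : Fin 2 → Ω) i := by
  funext i
  fin_cases i
  · simp [h, mul_comm]
  · simp

theorem Near.adj_root_ne (h : Near c C₀ Z jj ε C ρ) {l : ι} {t : Ω} (ht : t ∈ Z l) :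
    (N c C l ![ρ t, 1]).adjugate (jj l t) (jj l t) ≠ 0 := by
  intro h0
  have := (h.adj l t ht).ne_zero
  rw [h0, zero_div] at this
  exact this rfl

theorem Near.adj_root_ne' (h : Near c C₀ Z jj ε C ρ) {l : ι} {t : Ω} (ht : t ∈ Z l)
    {x : Fin 2 → Ω} (hx : x ≠ 0) (hr : x 0 = ρ t * x 1) :
    (N c C l x).adjugate (jj l t) (jj l t) ≠ 0 := by
  rw [eq_smul_of_root hr, adj_N_smul]
  exact mul_ne_zero (pow_ne_zero _ (pow_ne_zero _ (ne_of_root hx hr))) (h.adj_root_ne ht)

theorem Near.adj_ne (h : Near c C₀ Z jj ε C ρ) (l : ι) {x : Fin 2 → Ω} (hx : x ≠ 0) :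
    (N c C l x).adjugate ≠ 0 := by
  by_cases hD : (N c C l x).det = 0
  · obtain ⟨t, ht, hr⟩ := h.exists_root hD
    intro h0
    apply h.adj_root_ne' ht hx hr
    rw [h0]; rfl
  · exact adj_ne_zero_of_det_ne_zero _ hD

/-- scaling of the square condition -/
theorem sqIn_adj_smul_iff {s : Ω} {l : ι} {x : Fin 2 → Ω} {r : Ω} (hr : r ≠ 0)
    (hrs : r ∈ k⟮s⟯) (j : Fin 3) :
    SqIn k s (-(N c C l (fun i => r * x i)).adjugate j j) ↔
      SqIn k s (-(N c C l x).adjugate j j) := by
  rw [adj_N_smul]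
  constructor
  · rintro ⟨w, hw, hww⟩
    refine ⟨w / r ^ ee a e l j, div_mem hw (pow_mem hrs _), ?_⟩
    rw [div_pow, hww]
    field_simp
  · rintro ⟨w, hw, hww⟩
    refine ⟨w * r ^ ee a e l j, mul_mem hw (pow_mem hrs _), ?_⟩
    rw [mul_pow, hww]
    ring

/-- if `k(s)` contains the big field then the square condition holds at `s` -/
theorem Near.sq_of_theta (hiso : ∀ (σ : Ω ≃ₐ[k] Ω) (x : Ω), ‖σ x‖ = ‖x‖)
    (h : Near c C₀ Z jj ε C ρ) {θ : Ω}
    (hsq : ∀ l, ∀ t ∈ Z l, SqIn k θ (-(N c C₀ l ![t, 1]).adjugate (jj l t) (jj l t)))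
    {s : Ω} (hs : θ ∈ k⟮s⟯) {l : ι} {x : Fin 2 → Ω} (hx : x ≠ 0) (hxs : ∀ i, x i ∈ k⟮s⟯)
    (hD : (N c C l x).det = 0) : ∃ j, (N c C l x).adjugate j j ≠ 0 ∧
      SqIn k s (-(N c C l x).adjugate j j) := by
  obtain ⟨t, ht, hr⟩ := h.exists_root hD
  have hx1 := ne_of_root hx hr
  refine ⟨jj l t, h.adj_root_ne' ht hx hr, ?_⟩
  rw [eq_smul_of_root hr, sqIn_adj_smul_iff hx1 (hxs 1)]
  have hρ : ρ t ∈ k⟮s⟯ := by
    have : ρ t = x 0 / x 1 := by rw [hr]; field_simp
    rw [this]
    exact div_mem (hxs 0) (hxs 1)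
  have hle : k⟮θ⟯ ≤ k⟮s⟯ := adjoin_simple_le_iff.mpr hs
  have h1 : SqIn k s (-(N c C₀ l ![t, 1]).adjugate (jj l t) (jj l t)) := by
    obtain ⟨r, hr, hrr⟩ := hsq l t ht
    exact ⟨r, hle hr, hrr⟩
  refine h1.of_NO hiso ?_ ?_
  · apply neg_mem
    apply adj_mem
    intro i
    fin_cases i
    · simpa using hρ
    · simp
  · rw [neg_div_neg_eq]
    exact h.adj l t ht

end NearLemmas

end Run7.h334
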