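import Pool.Agent.Run7.h334.Trans1

/-!
# The comparison maps
-/

namespace Run7.h334

open Polynomial Matrix IntermediateField Filter Topology

section Tmap

variable {k : Type*} [Field k] {R : Type*} [CommRing R] [Algebra k R]

/-- the map `x ↦ S(x) x + A(x) (x₁, 0)` -/
noncomputable def Tm (S A : k[X]) (x : Fin 2 → R) : Fin 2 → R :=
  ![x 0 * hom S.natDegree S x + x 1 * hom S.natDegree A x, x 1 * hom S.natDegree S x]

theorem Tm_map {R' : Type*} [CommRing R'] [Algebra k R'] (φ : R →ₐ[k] R') (S A : k[X])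
    (x : Fin 2 → R) : (fun i => φ (Tm S A x i)) = Tm S A (fun i => φ (x i)) := by
  funext i
  fin_cases i <;> simp [Tm, hom_map]

theorem Tm_smul (S A : k[X]) (r : R) (x : Fin 2 → R) :
    Tm S A (fun i => r * x i) = fun i => r ^ (S.natDegree + 1) * Tm S A x i := by
  funext i
  fin_cases i
  · simp only [Tm, hom_smul, Fin.zero_eta, Matrix.cons_val_zero]; ring
  · simp only [Tm, hom_smul, Fin.mk_one, Matrix.cons_val_one, Matrix.cons_val_zero,
      Matrix.cons_val_fin_one]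
    ring

theorem Tm_node {Ω : Type*} [Field Ω] [Algebra k Ω] [Algebra Ω R] [IsScalarTower k Ω R]
    {S A : k[X]} {B : Polynomial Ω} {r₁ r₂ : Ω} (hB : B.natDegree + 1 ≤ S.natDegree)
    (hAB : A.map (algebraMap k Ω) - C (r₂ - r₁) * S.map (algebraMap k Ω) = (X - C r₁) * B)
    (x : Fin 2 → R) :
    Tm S A x 0 - algebraMap Ω R r₂ * Tm S A x 1 = (x 0 - algebraMap Ω R r₁ * x 1) *
      (hom S.natDegree S x + x 1 * hom (S.natDegree - 1) B x) := by
  have hn : S.natDegree = (S.natDegree - 1) + 1 := by omega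
  have h1 := hom_linear_mul (R := R) (m := S.natDegree - 1) (B := B) (by omega) r₁ x
  rw [← hn, ← hAB, hom_sub, hom_C_mul, hom_baseChange, hom_baseChange, map_sub] at h1
  simp only [Tm, Matrix.cons_val_zero, Matrix.cons_val_one]
  linear_combination x 1 * h1

end Tmap

section Ctx

variable {k : Type*} [NontriviallyNormedField k] [CharZero k] [IsUltrametricDist k]
  {Ω : Type*} [NormedField Ω]
  [NormedAlgebra k Ω] [IsUltrametricDist Ω] [IsAlgClosed Ω] [Algebra.IsAlgebraic k Ω]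
  {ι : Type*} {a : ι → Fin 3 → ℕ} {e : ι → ℕ}

/-- the fixed data used in the comparison -/
structure Ctx (c : k) (C₀ : Coeffs k ι a e) (Z : ι → Finset Ω) (Y : Finset Ω)
    (jj : ι → Ω → Fin 3) (θ : Ω) (S : k[X]) (cS δ Rad η κ : ℝ)
    (U : Set (Coeffs k ι a e)) : Prop where
  mem_Y : ∀ t, t ∈ Y ↔ ∃ l, t ∈ Z l
  cS_pos : 0 < cS
  monic : S.Monic
  card_le : Y.card ≤ S.natDegree
  deg_pos : 0 < S.natDegree
  θ_not : θ ∉ Set.range (algebraMap k Ω)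
  sq : ∀ l, ∀ t ∈ Z l, SqIn k θ (-(N c C₀ l ![t, 1]).adjugate (jj l t) (jj l t))
  pole : ∀ x : Fin 2 → Ω, ‖hom S.natDegree S x‖ < cS * ‖x‖ ^ S.natDegree →
    x 1 ≠ 0 ∧ θ ∈ k⟮x 0 / x 1⟯
  δ_pos : 0 < δ
  δ_le : δ ≤ 1
  sep : ∀ t ∈ Y, ∀ t' ∈ Y, t ≠ t' → δ ≤ ‖t - t'‖
  Rad_ge : 1 ≤ Rad
  rad : ∀ t ∈ Y, ‖t‖ ≤ Rad
  η_pos : 0 < η
  unif : ∀ l, ∀ x : Fin 2 → k, ‖x‖ = 1 → UnifAt c C₀ l η U x
  κ_pos : 0 < κ
  κ_η : κ < η
  κ_four : κ < ‖(4 : Ω)‖
  κ_η' : κ * (‖S.eval 1‖ / cS) < η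
  κ_four' : κ * (‖S.eval 1‖ / cS) < ‖(4 : Ω)‖

/-- the numerator of the comparison map -/
structure Adm (S A : k[X]) (κ' : ℝ) (Y : Finset Ω) (ρ₁ ρ₂ : Ω → Ω) : Prop where
  coeff : ∀ i, ‖A.coeff i‖ ≤ κ'
  node : ∀ t ∈ Y, ∃ B : Polynomial Ω, B.natDegree + 1 ≤ S.natDegree ∧
    (∀ i, ‖B.coeff i‖ ≤ κ') ∧
    A.map (algebraMap k Ω) - C (ρ₂ t - ρ₁ t) * S.map (algebraMap k Ω) = (X - C (ρ₁ t)) * B

/-- the constant of the comparison -/
noncomputable def KK (Ω : Type*) [NormedField Ω] [NormedAlgebra k Ω] (Rad δ : ℝ) (S : k[X])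
    (m : ℕ) : ℝ := gn Rad (S.map (algebraMap k Ω)) * (Rad / δ) ^ m

variable {c : k} {C₀ : Coeffs k ι a e} {Z : ι → Finset Ω} {Y : Finset Ω}
    {jj : ι → Ω → Fin 3} {θ : Ω} {S : k[X]} {cS δ Rad η κ : ℝ}
    {U : Set (Coeffs k ι a e)}

theorem exists_A (H : Ctx c C₀ Z Y jj θ S cS δ Rad η κ U)
    {ε : ℝ} {C₁ C₂ : Coeffs k ι a e} {ρ₁ ρ₂ : Ω → Ω}
    (h₁ : Near c C₀ Z jj ε C₁ ρ₁) (h₂ : Near c C₀ Z jj ε C₂ ρ₂) (hε0 : 0 < ε) (hε : ε ≤ δ)
    (hεK : ε * KK Ω Rad δ S Y.card ≤ κ * cS) :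
    ∃ A : k[X], Adm S A (κ * cS) Y ρ₁ ρ₂ := by
  classical
  have hR := H.Rad_ge
  have hδ := H.δ_pos
  have hδ1 := H.δ_le
  have hRδ : 1 ≤ Rad / δ := by rw [le_div_iff₀ hδ]; linarith
  set SΩ := S.map (algebraMap k Ω) with hSΩ
  have hG0 : 0 ≤ gn Rad SΩ := gn_nonneg hR _
  have hc1 : ∀ t ∈ Y, ‖ρ₁ t - t‖ < ε := by
    intro t ht
    obtain ⟨l, hl⟩ := (H.mem_Y t).mp ht
    exact h₁.close l t hl
  have hc2 : ∀ t ∈ Y, ‖ρ₂ t - t‖ < ε := by
    intro t ht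
    obtain ⟨l, hl⟩ := (H.mem_Y t).mp ht
    exact h₂.close l t hl
  have hρ₁ : ∀ t ∈ Y, ‖ρ₁ t‖ ≤ Rad := by
    intro t ht
    have e1 : ρ₁ t = t + (ρ₁ t - t) := by ring
    rw [e1]
    refine (IsUltrametricDist.norm_add_le_max _ _).trans (max_le (H.rad t ht) ?_)
    have := hc1 t ht
    linarith
  have hsep : ∀ t ∈ Y, ∀ t' ∈ Y, t ≠ t' → δ ≤ ‖ρ₁ t - ρ₁ t'‖ := by
    intro t ht t' ht' hne
    have h1 := H.sep t ht t' ht' hne
    have e1 : ρ₁ t - ρ₁ t' = (t - t') + ((ρ₁ t - t) - (ρ₁ t' - t')) := by ring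
    have h2 : ‖(ρ₁ t - t) - (ρ₁ t' - t')‖ < ‖t - t'‖ := by
      refine lt_of_le_of_lt (norm_sub_le_max' _ _) (max_lt ?_ ?_)
      · have := hc1 t ht; linarith
      · have := hc1 t' ht'; linarith
    rw [e1, norm_add_eq_of_lt h2]
    exact h1
  have hinj : Set.InjOn ρ₁ Y := by
    intro t ht t' ht' heq
    by_contra hne
    have := hsep t ht t' ht' hne
    rw [heq, sub_self, norm_zero] at this
    linarith
  let v : Ω → Ω := fun t => (ρ₂ t - ρ₁ t) * SΩ.eval (ρ₁ t)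
  have hd : ∀ t ∈ Y, ‖ρ₂ t - ρ₁ t‖ ≤ ε := by
    intro t ht
    have e1 : ρ₂ t - ρ₁ t = (ρ₂ t - t) - (ρ₁ t - t) := by ring
    rw [e1]
    exact (norm_sub_le_max' _ _).trans (max_le (hc2 t ht).le (hc1 t ht).le)
  have hv : ∀ t ∈ Y, ‖v t‖ ≤ ε * gn Rad SΩ := by
    intro t ht
    simp only [v]
    rw [norm_mul]
    exact mul_le_mul (hd t ht) (eval_le_gn hR _ (hρ₁ t ht)) (norm_nonneg _) hε0.le
  set AΩ := Lagrange.interpolate Y ρ₁ v with hAΩ
  have hAgn : gn Rad AΩ ≤ κ * cS := by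
    refine (gn_interpolate hR hδ hδ1 (mul_nonneg hε0.le hG0) Y ρ₁ v hρ₁ hsep hv).trans ?_
    refine le_trans (le_of_eq ?_) hεK
    rw [KK]; ring
  have hAdeg : AΩ.degree < Y.card := Lagrange.degree_interpolate_lt v hinj
  have hAeval : ∀ t ∈ Y, AΩ.eval (ρ₁ t) = v t := fun t ht =>
    Lagrange.eval_interpolate_at_node v hinj ht
  -- Galois invariance
  have hgal : ∀ σ : Ω ≃ₐ[k] Ω, AΩ.map (σ : Ω →+* Ω) = AΩ := by
    intro σ
    refine Polynomial.eq_of_degrees_lt_of_eval_index_eq Y hinj ?_ hAdeg ?_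
    · rwa [degree_map]
    · intro t ht
      obtain ⟨l, hl⟩ := (H.mem_Y t).mp ht
      obtain ⟨g1, -⟩ := h₁.gal σ.symm l t hl
      obtain ⟨g2, g3⟩ := h₁.gal σ l (σ.symm t) g1
      obtain ⟨-, g4⟩ := h₂.gal σ l (σ.symm t) g1
      rw [AlgEquiv.apply_symm_apply] at g3 g4
      have hY' : σ.symm t ∈ Y := (H.mem_Y _).mpr ⟨l, g1⟩
      have e1 : ((σ : Ω →+* Ω) : Ω → Ω) = σ := rfl
      rw [hAeval t ht]
      have e2 : eval (ρ₁ t) (AΩ.map (σ : Ω →+* Ω)) = σ (eval (ρ₁ (σ.symm t)) AΩ) := by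
        rw [g3]
        have := eval_map_apply (σ : Ω →+* Ω) (p := AΩ) (ρ₁ (σ.symm t))
        exact this
      rw [e2, hAeval _ hY']
      simp only [v]
      rw [map_mul, map_sub, ← g3, ← g4]
      congr 1
      have e3 : SΩ.map (σ : Ω →+* Ω) = SΩ := by
        rw [hSΩ, Polynomial.map_map]
        congr 1
        ext x
        exact σ.commutes x
      have e4 := eval_map_apply (σ : Ω →+* Ω) (p := SΩ) (ρ₁ (σ.symm t))
      rw [e3] at e4
      have e5 : (σ : Ω →+* Ω) (ρ₁ (σ.symm t)) = ρ₁ t := g3.symm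
      rw [e5] at e4
      exact e4.symm
  have hlift : AΩ ∈ Polynomial.lifts (algebraMap k Ω) := by
    rw [Polynomial.lifts_iff_coeff_lifts]
    intro n
    rw [mem_range_iff]
    intro σ
    have := congrArg (fun P => P.coeff n) (hgal σ)
    simpa using this
  obtain ⟨A, hA⟩ := (Polynomial.mem_lifts _).mp hlift
  refine ⟨A, ?_, ?_⟩
  · intro i
    rw [← norm_algebraMap' Ω, ← coeff_map, hA]
    exact (coeff_le_gn hR _ i).trans hAgn
  · intro t ht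
    rw [hA, ← hSΩ]
    have hroot : (AΩ - C (ρ₂ t - ρ₁ t) * SΩ).IsRoot (ρ₁ t) := by
      rw [IsRoot.def, eval_sub, eval_mul, eval_C, hAeval t ht]
      simp [v]
    obtain ⟨B, hB⟩ := dvd_iff_isRoot.mpr hroot
    refine ⟨B, ?_, ?_, hB⟩
    · by_cases hB0 : B = 0
      · have := H.deg_pos
        rw [hB0, natDegree_zero]; omega
      have h1 := congrArg natDegree hB
      rw [natDegree_mul (X_sub_C_ne_zero _) hB0, natDegree_X_sub_C] at h1
      have h2 : (AΩ - C (ρ₂ t - ρ₁ t) * SΩ).natDegree ≤ S.natDegree := by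
        refine (natDegree_sub_le _ _).trans (max_le ?_ ?_)
        · have : AΩ.natDegree ≤ Y.card := by
            apply natDegree_le_of_degree_le
            exact hAdeg.le
          exact this.trans H.card_le
        · refine (natDegree_C_mul_le _ _).trans ?_
          rw [hSΩ, natDegree_map]
      omega
    · intro i
      have h1 := congrArg (gn Rad) hB
      rw [gn_mul hR, gn_X_sub_C hR (hρ₁ t ht)] at h1
      have h2 : gn Rad (AΩ - C (ρ₂ t - ρ₁ t) * SΩ) ≤ κ * cS := by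
        refine (gn_sub_le hR _ _).trans (max_le hAgn ?_)
        rw [gn_mul hR, gn_C]
        refine le_trans ?_ hεK
        rw [KK]
        refine mul_le_mul (hd t ht) ?_ hG0 hε0.le
        exact le_mul_of_one_le_right hG0 (one_le_pow₀ hRδ)
      have h3 : gn Rad B ≤ Rad * gn Rad B := le_mul_of_one_le_left (gn_nonneg hR B) hR
      exact (coeff_le_gn hR _ i).trans (by linarith)

end Ctx

end Run7.h334
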