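import Pool.Agent.Run7.h334.Trans2

/-!
# Points close to each other are linked
-/

namespace Run7.h334

open Polynomial Matrix IntermediateField Filter Topology

section

variable {k : Type*} [NontriviallyNormedField k] [CharZero k] [IsUltrametricDist k]
  {Ω : Type*} [NormedField Ω]
  [NormedAlgebra k Ω] [IsUltrametricDist Ω] [IsAlgClosed Ω] [Algebra.IsAlgebraic k Ω]
  {ι : Type*} {a : ι → Fin 3 → ℕ} {e : ι → ℕ}
  {c : k} {C₀ : Coeffs k ι a e} {Z : ι → Finset Ω} {Y : Finset Ω}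
    {jj : ι → Ω → Fin 3} {θ : Ω} {S : k[X]} {cS δ Rad η κ : ℝ}
    {U : Set (Coeffs k ι a e)}

theorem norm_map_vec (x : Fin 2 → k) : ‖(fun i => algebraMap k Ω (x i))‖ = ‖x‖ := by
  simp only [Pi.norm_def, nnnorm_algebraMap']

theorem hom_algebraMap (n : ℕ) (P : k[X]) (x : Fin 2 → k) :
    hom n P (fun i => algebraMap k Ω (x i)) = algebraMap k Ω (hom n P x) :=
  (hom_map (Algebra.ofId k Ω) n P x).symm

theorem Ctx.S_bound (H : Ctx c C₀ Z Y jj θ S cS δ Rad η κ U) {s : Ω} (hs : θ ∉ k⟮s⟯)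
    {x : Fin 2 → Ω} (hxs : ∀ i, x i ∈ k⟮s⟯) :
    cS * ‖x‖ ^ S.natDegree ≤ ‖hom S.natDegree S x‖ := by
  by_contra h
  push Not at h
  obtain ⟨-, h2⟩ := H.pole x h
  have hle : k⟮x 0 / x 1⟯ ≤ k⟮s⟯ := adjoin_simple_le_iff.mpr (div_mem (hxs 0) (hxs 1))
  exact hs (hle h2)

theorem Ctx.S_bound_k (H : Ctx c C₀ Z Y jj θ S cS δ Rad η κ U) (x : Fin 2 → k) :
    cS * ‖x‖ ^ S.natDegree ≤ ‖hom S.natDegree S x‖ := by
  have h0 : θ ∉ k⟮(0 : Ω)⟯ := by
    rw [IntermediateField.adjoin_zero, IntermediateField.mem_bot]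
    exact H.θ_not
  have := H.S_bound h0 (x := fun i => algebraMap k Ω (x i))
    (fun i => IntermediateField.algebraMap_mem _ _)
  rwa [norm_map_vec, hom_algebraMap, norm_algebraMap'] at this

theorem Ctx.S_ne (H : Ctx c C₀ Z Y jj θ S cS δ Rad η κ U) {x : Fin 2 → k} (hx : x ≠ 0) :
    hom S.natDegree S x ≠ 0 := by
  intro h0
  have h1 := H.S_bound_k x
  rw [h0, norm_zero] at h1
  have h2 : 0 < cS * ‖x‖ ^ S.natDegree :=
    mul_pos H.cS_pos (pow_pos (norm_pos_iff.mpr hx) _)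
  linarith

/-- `y` is a small perturbation of `x`, compatible with the nodes -/
structure RelAt (Y : Finset Ω) (ρ₁ ρ₂ : Ω → Ω) (κ : ℝ) (x y : Fin 2 → k) : Prop where
  dist : ‖y - x‖ ≤ κ * ‖x‖
  snd : y 1 = x 1
  node : ∀ t ∈ Y, ∃ w : Ω, ‖w‖ ≤ κ ∧
    algebraMap k Ω (y 0) - ρ₂ t * algebraMap k Ω (y 1) =
      (algebraMap k Ω (x 0) - ρ₁ t * algebraMap k Ω (x 1)) * (1 + w)

omit [IsAlgClosed Ω] [Algebra.IsAlgebraic k Ω] [CharZero k] in
theorem RelAt.norm_eq {ρ₁ ρ₂ : Ω → Ω} {x y : Fin 2 → k} (h : RelAt Y ρ₁ ρ₂ κ x y)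
    (hκ : κ < 1) : ‖y‖ ≤ ‖x‖ := by
  have e : y = (y - x) + x := by abel
  rw [e]
  refine (IsUltrametricDist.norm_add_le_max _ _).trans (max_le ?_ le_rfl)
  refine h.dist.trans ?_
  have := norm_nonneg x
  nlinarith

omit [IsAlgClosed Ω] [Algebra.IsAlgebraic k Ω] [CharZero k] in
theorem RelAt.trans {ρ₁ ρ₂ ρ₃ : Ω → Ω} {x y z : Fin 2 → k} (h : RelAt Y ρ₁ ρ₂ κ x y)
    (h' : RelAt Y ρ₂ ρ₃ κ y z) (hκ0 : 0 < κ) (hκ : κ < 1) : RelAt Y ρ₁ ρ₃ κ x z := by
  refine ⟨?_, h'.snd.trans h.snd, ?_⟩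
  · have e : z - x = (z - y) + (y - x) := by abel
    rw [e]
    refine (IsUltrametricDist.norm_add_le_max _ _).trans (max_le ?_ h.dist)
    refine h'.dist.trans ?_
    have := h.norm_eq hκ
    gcongr
  · intro t ht
    obtain ⟨w, hw, h1⟩ := h.node t ht
    obtain ⟨w', hw', h2⟩ := h'.node t ht
    refine ⟨w + w' + w * w', ?_, ?_⟩
    · refine (IsUltrametricDist.norm_add_le_max _ _).trans (max_le ?_ ?_)
      · exact (IsUltrametricDist.norm_add_le_max _ _).trans (max_le hw hw')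
      · rw [norm_mul]
        have := norm_nonneg w
        have := norm_nonneg w'
        nlinarith
    · rw [h2, h1]; ring

theorem Ctx.rel (H : Ctx c C₀ Z Y jj θ S cS δ Rad η κ U) {A : k[X]} {ρ₁ ρ₂ : Ω → Ω}
    (hA : Adm S A (κ * cS) Y ρ₁ ρ₂) {x : Fin 2 → k} (hx : x ≠ 0) :
    ∃ y : Fin 2 → k, RelAt Y ρ₁ ρ₂ κ x y ∧
      Tm S A x = fun i => hom S.natDegree S x * y i := by
  have hS0 := H.S_ne hx
  have hSb := H.S_bound_k x
  have hcS := H.cS_pos
  have hxn : 0 < ‖x‖ := norm_pos_iff.mpr hx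
  have hκ := H.κ_pos
  have hSpos : 0 < ‖hom S.natDegree S x‖ := norm_pos_iff.mpr hS0
  let y : Fin 2 → k := ![x 0 + x 1 * hom S.natDegree A x / hom S.natDegree S x, x 1]
  have hT : Tm S A x = fun i => hom S.natDegree S x * y i := by
    funext i
    fin_cases i
    · simp only [Tm, y, Fin.zero_eta, Matrix.cons_val_zero]; field_simp
    · simp only [Tm, y, Fin.mk_one, Matrix.cons_val_one, Matrix.cons_val_fin_one]; ring
  refine ⟨y, ⟨?_, by simp [y], ?_⟩, hT⟩
  · rw [pi_norm_le_iff_of_nonneg (by positivity)]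
    intro i
    fin_cases i
    · have e1 : (y - x) 0 = x 1 * hom S.natDegree A x / hom S.natDegree S x := by
        simp [y]
      simp only [Fin.zero_eta]
      rw [e1, norm_div, norm_mul, div_le_iff₀ hSpos]
      have h1 : ‖x 1‖ ≤ ‖x‖ := norm_le_pi_norm x 1
      have h2 : ‖hom S.natDegree A x‖ ≤ κ * cS * ‖x‖ ^ S.natDegree :=
        norm_hom_le _ _ hA.coeff x
      calc ‖x 1‖ * ‖hom S.natDegree A x‖ ≤ ‖x‖ * (κ * cS * ‖x‖ ^ S.natDegree) := by gcongr
        _ = κ * ‖x‖ * (cS * ‖x‖ ^ S.natDegree) := by ring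
        _ ≤ κ * ‖x‖ * ‖hom S.natDegree S x‖ := by gcongr
    · simp [y]; positivity
  · intro t ht
    obtain ⟨B, hB1, hB2, hB3⟩ := hA.node t ht
    have hnode := Tm_node (R := Ω) hB1 hB3 (fun i => algebraMap k Ω (x i))
    have e1 : Tm S A (fun i => algebraMap k Ω (x i)) =
        fun i => algebraMap k Ω (hom S.natDegree S x * y i) := by
      have := Tm_map (Algebra.ofId k Ω) S A x
      rw [hT] at this
      exact this.symm
    rw [e1, hom_algebraMap] at hnode
    simp only [map_mul, Algebra.algebraMap_self, RingHom.id_apply] at hnode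
    set xΩ : Fin 2 → Ω := fun i => algebraMap k Ω (x i) with hxΩ
    have hxΩn : ‖xΩ‖ = ‖x‖ := norm_map_vec x
    have hSΩ : algebraMap k Ω (hom S.natDegree S x) ≠ 0 := (_root_.map_ne_zero _).mpr hS0
    refine ⟨xΩ 1 * hom (S.natDegree - 1) B xΩ / algebraMap k Ω (hom S.natDegree S x), ?_, ?_⟩
    · rw [norm_div, norm_mul, norm_algebraMap' Ω (hom S.natDegree S x), div_le_iff₀ hSpos]
      have h1 : ‖xΩ 1‖ ≤ ‖x‖ := by rw [← hxΩn]; exact norm_le_pi_norm xΩ 1
      have h2 : ‖hom (S.natDegree - 1) B xΩ‖ ≤ κ * cS * ‖x‖ ^ (S.natDegree - 1) := by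
        rw [← hxΩn]; exact norm_hom_le _ _ hB2 xΩ
      have h3 : ‖x‖ * ‖x‖ ^ (S.natDegree - 1) = ‖x‖ ^ S.natDegree := by
        rw [← pow_succ']
        congr 1
        have := H.deg_pos; omega
      calc ‖xΩ 1‖ * ‖hom (S.natDegree - 1) B xΩ‖
          ≤ ‖x‖ * (κ * cS * ‖x‖ ^ (S.natDegree - 1)) := by gcongr
        _ = κ * (cS * (‖x‖ * ‖x‖ ^ (S.natDegree - 1))) := by ring
        _ = κ * (cS * ‖x‖ ^ S.natDegree) := by rw [h3]
        _ ≤ κ * ‖hom S.natDegree S x‖ := by gcongr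
    · have h4 : algebraMap k Ω (y 0) - ρ₂ t * algebraMap k Ω (y 1) =
          (algebraMap k Ω (x 0) - ρ₁ t * algebraMap k Ω (x 1)) *
          (algebraMap k Ω (hom S.natDegree S x) + xΩ 1 * hom (S.natDegree - 1) B xΩ) /
          algebraMap k Ω (hom S.natDegree S x) := by
        rw [eq_div_iff hSΩ, ← hnode]; ring
      rw [h4]
      field_simp

theorem exists_normalize {x : Fin 2 → k} (hx : x ≠ 0) :
    ∃ r : k, r ≠ 0 ∧ ‖fun i => r * x i‖ = 1 := by
  obtain ⟨i₀, hi₀⟩ := Finite.exists_max (fun i => ‖x i‖)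
  have h1 : ‖x‖ = ‖x i₀‖ :=
    le_antisymm ((pi_norm_le_iff_of_nonneg (norm_nonneg _)).mpr hi₀) (norm_le_pi_norm x i₀)
  have h2 : x i₀ ≠ 0 := by
    intro h0
    rw [h0, norm_zero, norm_eq_zero] at h1
    exact hx h1
  refine ⟨(x i₀)⁻¹, inv_ne_zero h2, ?_⟩
  have e : (fun i => (x i₀)⁻¹ * x i) = (x i₀)⁻¹ • x := rfl
  rw [e, norm_smul, h1, norm_inv, inv_mul_cancel₀ (norm_ne_zero_iff.mpr h2)]

theorem Ctx.iso_rel (hiso : ∀ (σ : Ω ≃ₐ[k] Ω) (x : Ω), ‖σ x‖ = ‖x‖)
    (H : Ctx c C₀ Z Y jj θ S cS δ Rad η κ U)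
    {ε κ' : ℝ} {C₁ C₂ : Coeffs k ι a e} {ρ₁ ρ₂ : Ω → Ω}
    (h₁ : Near c C₀ Z jj ε C₁ ρ₁) (h₂ : Near c C₀ Z jj ε C₂ ρ₂) (hC₁ : C₁ ∈ U) (hC₂ : C₂ ∈ U)
    {x y : Fin 2 → k} (hx : x ≠ 0) (hxy : RelAt Y ρ₁ ρ₂ κ' x y) (hη : κ' < η)
    (h4 : κ' < ‖(4 : Ω)‖) {l : ι} (hI : Iso (N c C₁ l x)) : Iso (N c C₂ l y) := by
  classical
  have : CharZero Ω := charZero_of_injective_algebraMap (algebraMap k Ω).injective
  obtain ⟨r, hr, hrn⟩ := exists_normalize hx
  rw [← iso_smul c C₁ l hr] at hI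
  rw [← iso_smul c C₂ l hr]
  choose! w hw1 hw2 using hxy.node
  have hZY : ∀ t ∈ Z l, t ∈ Y := fun t ht => (H.mem_Y t).mpr ⟨l, ht⟩
  refine iso_transfer (C₀ := C₀) hiso H.η_pos (H.unif l _ hrn) hC₁ hC₂ (x := fun i => r * x i)
    (y := fun i => r * y i) ?_
    (u := (algebraMap k Ω (lead c C₂ l) / algebraMap k Ω (lead c C₀ l)) /
      (algebraMap k Ω (lead c C₁ l) / algebraMap k Ω (lead c C₀ l)) *
      ∏ t ∈ Z l, (1 + w t)) ?_ ?_ hI
  · have e1 : (fun i => r * y i) - (fun i => r * x i) = r • (y - x) := by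
      funext i; simp [mul_sub]
    have e2 : ‖r‖ * ‖x‖ = 1 := by rw [← norm_smul]; exact hrn
    rw [e1, norm_smul]
    calc ‖r‖ * ‖y - x‖ ≤ ‖r‖ * (κ' * ‖x‖) := by gcongr; exact hxy.dist
      _ = κ' * (‖r‖ * ‖x‖) := by ring
      _ = κ' := by rw [e2, mul_one]
      _ < η := hη
  · refine NO.mul ((h₂.lead_no l).div (h₁.lead_no l)) (NO.prod _ _ ?_)
    intro t ht
    rw [NO, add_sub_cancel_left]
    exact lt_of_le_of_lt (hw1 t (hZY t ht)) h4
  · rw [det_algebraMap, det_algebraMap, h₁.det_eq, h₂.det_eq]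
    have l0 : algebraMap k Ω (lead c C₀ l) ≠ 0 := by
      intro h0
      have := (h₁.lead_no l).ne_zero
      rw [h0, div_zero] at this
      exact this rfl
    have l1 : algebraMap k Ω (lead c C₁ l) ≠ 0 := (_root_.map_ne_zero _).mpr (h₁.lead_ne l)
    have e3 : ∏ t ∈ Z l, (algebraMap k Ω (r * y 0) - ρ₂ t * algebraMap k Ω (r * y 1)) =
        (∏ t ∈ Z l, (algebraMap k Ω (r * x 0) - ρ₁ t * algebraMap k Ω (r * x 1))) *
        ∏ t ∈ Z l, (1 + w t) := by
      rw [← Finset.prod_mul_distrib]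
      refine Finset.prod_congr rfl fun t ht => ?_
      have := hw2 t (hZY t ht)
      simp only [map_mul]
      linear_combination algebraMap k Ω r * this
    rw [e3]
    have e4 : algebraMap k Ω (lead c C₂ l) / algebraMap k Ω (lead c C₀ l) /
        (algebraMap k Ω (lead c C₁ l) / algebraMap k Ω (lead c C₀ l)) =
        algebraMap k Ω (lead c C₂ l) / algebraMap k Ω (lead c C₁ l) := by
      field_simp
    rw [e4]
    generalize (∏ t ∈ Z l, (1 + w t)) = Q
    generalize (∏ t ∈ Z l, (algebraMap k Ω (r * x 0) - ρ₁ t * algebraMap k Ω (r * x 1))) = P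
    field_simp

/-- links on the base, in the coordinates given by `c` -/
def BL (c : k) (C : Coeffs k ι a e) (x x' : Fin 2 → k) : Prop :=
  ∃ (Φ : Fin 2 → k[X]) (s s' r r' : k), r ≠ 0 ∧ r' ≠ 0 ∧ (∀ i, (Φ i).eval s = r * x i) ∧
    (∀ i, (Φ i).eval s' = r' * x' i) ∧ ∀ l, Iso (N c C l Φ)

theorem iso_C {C : Coeffs k ι a e} {x : Fin 2 → k} {l : ι} (h : Iso (N c C l x)) :
    Iso (N c C l (fun i => Polynomial.C (x i))) := by
  obtain ⟨z, hz, h⟩ := h
  have e1 := N_map (Algebra.ofId k k[X]) c C l x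
  have e2 : (fun i => (Algebra.ofId k k[X]) (x i)) = fun i => Polynomial.C (x i) := rfl
  rw [e2] at e1
  rw [← e1]
  refine ⟨fun i => Polynomial.C (z i), ?_, ?_⟩
  · intro h0
    apply hz
    funext i
    have := congrFun h0 i
    simpa using this
  · have e3 : ∀ i j, (N c C l x).map (Algebra.ofId k k[X]) i j =
        Polynomial.C (N c C l x i j) := fun i j => rfl
    simp only [dotProduct, mulVec, Fin.sum_univ_three, e3]
    simp only [← Polynomial.C_mul, ← Polynomial.C_add]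
    rw [← Polynomial.C_0]
    congr 1
    simpa [dotProduct, mulVec, Fin.sum_univ_three] using h

theorem BL_of_smul {C : Coeffs k ι a e} {x x' : Fin 2 → k} {r : k} (hr : r ≠ 0)
    (h : ∀ i, x' i = r * x i) (hI : ∀ l, Iso (N c C l x)) : BL c C x x' := by
  refine ⟨fun i => Polynomial.C (x i), 0, 0, 1, r⁻¹, one_ne_zero, inv_ne_zero hr, ?_, ?_,
    fun l => iso_C (hI l)⟩
  · intro i; simp
  · intro i; rw [h i, eval_C]; field_simp

/-- The closing lemma. -/
theorem Ctx.closing (hiso : ∀ (σ : Ω ≃ₐ[k] Ω) (x : Ω), ‖σ x‖ = ‖x‖)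
    (H : Ctx c C₀ Z Y jj θ S cS δ Rad η κ U)
    {ε : ℝ} {C : Coeffs k ι a e} {ρ : Ω → Ω}
    (h : Near c C₀ Z jj ε C ρ) (hC : C ∈ U)
    {x x'' : Fin 2 → k} (hx : x ≠ 0) (hxx : RelAt Y ρ ρ κ x x'')
    (hI : ∀ l, Iso (N c C l x)) : BL c C x x'' := by
  have hcS := H.cS_pos
  have hκ := H.κ_pos
  have h41 : ‖(4 : Ω)‖ ≤ 1 := norm_four_le
  have hκ1 : κ < 1 := lt_of_lt_of_le H.κ_four h41
  have hxn : 0 < ‖x‖ := norm_pos_iff.mpr hx
  by_cases hx1 : x 1 = 0
  · -- `x` and `x''` are proportional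
    have hx0 : x 0 ≠ 0 := by
      intro h0; apply hx; funext i; fin_cases i
      · simpa using h0
      · simpa using hx1
    have hx''1 : x'' 1 = 0 := by rw [hxx.snd, hx1]
    have hx''0 : x'' 0 ≠ 0 := by
      intro h0
      have h1 : x'' = 0 := by
        funext i; fin_cases i
        · simpa using h0
        · simpa using hx''1
      have h2 := hxx.dist
      rw [h1, zero_sub, norm_neg] at h2
      nlinarith
    refine BL_of_smul (r := x'' 0 / x 0) (div_ne_zero hx''0 hx0) ?_ hI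
    intro i
    fin_cases i
    · simp only [Fin.zero_eta]; field_simp
    · simp only [Fin.mk_one]; rw [hx''1, hx1, mul_zero]
  set d : k := x'' 0 - x 0 with hd
  by_cases hd0 : d = 0
  · refine BL_of_smul (r := 1) one_ne_zero ?_ hI
    intro i
    fin_cases i
    · simp only [Fin.zero_eta, one_mul]; exact sub_eq_zero.mp hd0
    · simp only [Fin.mk_one, one_mul]; exact hxx.snd
  -- `S` has no root in `k`
  have hSaff : ∀ t : k, hom S.natDegree S ![t, 1] = S.eval t := by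
    intro t
    rw [hom_aff le_rfl _ (by simp)]
    simp
  have hSk : ∀ t : k, S.eval t ≠ 0 := by
    intro t
    rw [← hSaff]
    apply H.S_ne
    intro h0
    have := congrFun h0 1
    simp at this
  have hSbk : ∀ t : k, cS * ‖(![t, 1] : Fin 2 → k)‖ ^ S.natDegree ≤ ‖S.eval t‖ := by
    intro t
    rw [← hSaff]; exact H.S_bound_k _
  let Φ : Fin 2 → k[X] := ![S * Polynomial.C (x 0) + Polynomial.C (S.eval 1 * d) * X,
    S * Polynomial.C (x 1)]
  have hΦ0 : ∀ {R : Type _} [CommRing R] [Algebra k R] (t : R), aeval t (Φ 0) =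
      aeval t S * algebraMap k R (x 0) + algebraMap k R (S.eval 1 * d) * t := by
    intro R _ _ t; simp [Φ]
  have hΦ1 : ∀ {R : Type _} [CommRing R] [Algebra k R] (t : R), aeval t (Φ 1) =
      aeval t S * algebraMap k R (x 1) := by
    intro R _ _ t; simp [Φ]
  refine ⟨Φ, 0, 1, S.eval 0, S.eval 1, hSk 0, hSk 1, ?_, ?_, ?_⟩
  · intro i
    fin_cases i
    · simp [Φ]
    · simp [Φ]
  · intro i
    fin_cases i
    · simp [Φ, hd]; ring
    · simp [Φ, hxx.snd]
  · intro l
    by_cases hD : (N c C l Φ).det = 0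
    · exact iso_of_det_eq_zero _ hD
    -- values of `Φ`
    have hΦne : ∀ s : Ω, (fun i => aeval s (Φ i)) ≠ 0 := by
      intro s h0
      have e1 : aeval s (Φ 1) = 0 := congrFun h0 1
      have e0 : aeval s (Φ 0) = 0 := congrFun h0 0
      rw [hΦ1] at e1
      rw [hΦ0] at e0
      have hS : aeval s S = 0 :=
        (mul_eq_zero.mp e1).resolve_right ((_root_.map_ne_zero _).mpr hx1)
      rw [hS, zero_mul, zero_add] at e0
      rcases mul_eq_zero.mp e0 with h1 | h1
      · exact (_root_.map_ne_zero _).mpr (mul_ne_zero (hSk 1) hd0) h1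
      · rw [h1] at hS
        have : algebraMap k Ω (S.eval 0) = 0 := by
          rw [← hS]
          have := aeval_algebraMap_apply Ω (0 : k) S
          rw [map_zero] at this
          rw [this]; simp
        exact hSk 0 ((map_eq_zero _).mp this)
    apply tf (Ω := Ω) _ (N_isSymm c C l Φ) hD
    · intro s _
      rw [ev_N]
      exact h.adj_ne l (hΦne s)
    · intro s hodd
      have hDs : aeval s (N c C l Φ).det = 0 := by
        apply aeval_eq_zero_of_mult
        intro h0; rw [h0] at hodd; simp at hodd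
      rw [aeval_det_N] at hDs
      rw [ev_N]
      refine h.sq_of_theta hiso H.sq ?_ (hΦne s) (fun i => aeval_mem s _) hDs
      obtain ⟨t, ht, hr⟩ := h.exists_root hDs
      obtain ⟨w, hw1, hw2⟩ := hxx.node t ((H.mem_Y t).mpr ⟨l, ht⟩)
      rw [hΦ0, hΦ1] at hr
      set x0 := algebraMap k Ω (x 0)
      set x1 := algebraMap k Ω (x 1)
      have hd' : algebraMap k Ω d = (x0 - ρ t * x1) * w := by
        rw [hd, map_sub]
        have e1 : algebraMap k Ω (x'' 1) = x1 := by rw [hxx.snd]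
        rw [e1] at hw2
        linear_combination hw2
      have hX : x0 - ρ t * x1 ≠ 0 := by
        intro h0
        rw [h0, zero_mul] at hd'
        exact hd0 ((map_eq_zero _).mp hd')
      have hSs : aeval s S = -(algebraMap k Ω (S.eval 1) * s * w) := by
        have e1 : (x0 - ρ t * x1) * (aeval s S + algebraMap k Ω (S.eval 1) * s * w) = 0 := by
          rw [map_mul] at hr
          linear_combination hr - algebraMap k Ω (S.eval 1) * s * hd'
        have := (mul_eq_zero.mp e1).resolve_left hX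
        linear_combination this
      have hv1 : (1 : ℝ) ≤ ‖(![s, 1] : Fin 2 → Ω)‖ := by
        have := norm_le_pi_norm (![s, 1] : Fin 2 → Ω) 1
        simpa using this
      have hvs : ‖s‖ ≤ ‖(![s, 1] : Fin 2 → Ω)‖ := by
        have := norm_le_pi_norm (![s, 1] : Fin 2 → Ω) 0
        simpa using this
      have hlt : ‖hom S.natDegree S (![s, 1] : Fin 2 → Ω)‖ <
          cS * ‖(![s, 1] : Fin 2 → Ω)‖ ^ S.natDegree := by
        rw [hom_aff le_rfl _ (by simp)]
        simp only [Matrix.cons_val_zero]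
        rw [hSs, norm_neg, norm_mul, norm_mul, norm_algebraMap']
        have h1 : ‖(![s, 1] : Fin 2 → Ω)‖ ≤ ‖(![s, 1] : Fin 2 → Ω)‖ ^ S.natDegree :=
          le_self_pow₀ hv1 (by have := H.deg_pos; omega)
        have h2 : κ * ‖S.eval 1‖ < cS := by
          have := lt_of_lt_of_le H.κ_four' h41
          rw [← mul_div_assoc, div_lt_one hcS] at this
          exact this
        have hpos : 0 < ‖(![s, 1] : Fin 2 → Ω)‖ ^ S.natDegree := by positivity
        calc ‖S.eval 1‖ * ‖s‖ * ‖w‖ ≤ ‖S.eval 1‖ * ‖(![s, 1] : Fin 2 → Ω)‖ ^ S.natDegree * κ := by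
              have := hvs.trans h1
              gcongr
          _ = κ * ‖S.eval 1‖ * ‖(![s, 1] : Fin 2 → Ω)‖ ^ S.natDegree := by ring
          _ < cS * ‖(![s, 1] : Fin 2 → Ω)‖ ^ S.natDegree := by gcongr
      obtain ⟨-, h2⟩ := H.pole _ hlt
      simpa using h2
    · -- rational specialisations
      have hall : ∀ s : k, Iso ((N c C l Φ).map (eval s)) := by
        intro s
        rw [N_eval]
        have e1 : (fun i => (Φ i).eval s) = fun i => S.eval s *
            (![x 0 + S.eval 1 * s / S.eval s * d, x 1] : Fin 2 → k) i := by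
          have := hSk s
          funext i
          fin_cases i
          · simp [Φ]; field_simp
          · simp [Φ]
        rw [e1, iso_smul c C l (hSk s)]
        have hv1 : (1 : ℝ) ≤ ‖(![s, 1] : Fin 2 → k)‖ := by
          have := norm_le_pi_norm (![s, 1] : Fin 2 → k) 1
          simpa using this
        have hvs : ‖s‖ ≤ ‖(![s, 1] : Fin 2 → k)‖ := by
          have := norm_le_pi_norm (![s, 1] : Fin 2 → k) 0
          simpa using this
        have hSpos : 0 < ‖S.eval s‖ := norm_pos_iff.mpr (hSk s)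
        have ht : ‖S.eval 1 * s / S.eval s‖ ≤ ‖S.eval 1‖ / cS := by
          rw [norm_div, norm_mul, div_le_div_iff₀ hSpos hcS]
          have h1 : ‖(![s, 1] : Fin 2 → k)‖ ≤ ‖(![s, 1] : Fin 2 → k)‖ ^ S.natDegree :=
            le_self_pow₀ hv1 (by have := H.deg_pos; omega)
          calc ‖S.eval 1‖ * ‖s‖ * cS ≤
              ‖S.eval 1‖ * ‖(![s, 1] : Fin 2 → k)‖ ^ S.natDegree * cS := by
                have := hvs.trans h1
                gcongr
            _ = ‖S.eval 1‖ * (cS * ‖(![s, 1] : Fin 2 → k)‖ ^ S.natDegree) := by ring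
            _ ≤ ‖S.eval 1‖ * ‖S.eval s‖ := by
                have := hSbk s
                gcongr
        refine H.iso_rel hiso h h hC hC hx (κ' := κ * (‖S.eval 1‖ / cS)) ?_ H.κ_η' H.κ_four' (hI l)
        have hdn : ‖d‖ ≤ κ * ‖x‖ := by
          refine le_trans ?_ hxx.dist
          exact norm_le_pi_norm (x'' - x) 0
        refine ⟨?_, by simp, ?_⟩
        · rw [pi_norm_le_iff_of_nonneg (by positivity)]
          intro i
          fin_cases i
          · simp only [Fin.zero_eta, Pi.sub_apply, Matrix.cons_val_zero, add_sub_cancel_left]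
            rw [norm_mul]
            calc ‖S.eval 1 * s / S.eval s‖ * ‖d‖ ≤ (‖S.eval 1‖ / cS) * (κ * ‖x‖) := by gcongr
              _ = κ * (‖S.eval 1‖ / cS) * ‖x‖ := by ring
          · simp; positivity
        · intro t ht'
          obtain ⟨w, hw1, hw2⟩ := hxx.node t ht'
          refine ⟨algebraMap k Ω (S.eval 1 * s / S.eval s) * w, ?_, ?_⟩
          · rw [norm_mul, norm_algebraMap']
            calc ‖S.eval 1 * s / S.eval s‖ * ‖w‖ ≤ (‖S.eval 1‖ / cS) * κ := by gcongr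
              _ = κ * (‖S.eval 1‖ / cS) := by ring
          · have hd' : algebraMap k Ω d =
                (algebraMap k Ω (x 0) - ρ t * algebraMap k Ω (x 1)) * w := by
              rw [hd, map_sub]
              rw [hxx.snd] at hw2
              linear_combination hw2
            simp only [Matrix.cons_val_zero, Matrix.cons_val_one, Matrix.cons_val_fin_one,
              map_add]
            rw [map_mul _ _ d, hd']
            ring
      have : {s : k | Iso ((N c C l Φ).map (eval s))} = Set.univ := by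
        ext s; simp [hall s]
      rw [this]
      exact Set.infinite_univ

end

end Run7.h334
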