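import Pool.Agent.Run7.h334.Trans3

/-!
# Transfer of links
-/

namespace Run7.h334

open Polynomial Matrix IntermediateField Filter Topology

theorem rm_prod {F : Type*} [Field F] {α : Type*} (s : F) (Z : Finset α) (f : α → F[X])
    (h : ∀ t ∈ Z, f t ≠ 0) :
    rootMultiplicity s (∏ t ∈ Z, f t) = ∑ t ∈ Z, rootMultiplicity s (f t) := by
  classical
  induction Z using Finset.induction_on with
  | empty =>
    simp only [Finset.prod_empty, Finset.sum_empty]
    apply rootMultiplicity_eq_zero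
    simp
  | insert i Z hi ih =>
    have h1 : ∏ t ∈ Z, f t ≠ 0 :=
      Finset.prod_ne_zero_iff.mpr fun t ht => h t (Finset.mem_insert_of_mem ht)
    rw [Finset.prod_insert hi, Finset.sum_insert hi,
      rootMultiplicity_mul (mul_ne_zero (h i (Finset.mem_insert_self i Z)) h1),
      ih fun t ht => h t (Finset.mem_insert_of_mem ht)]

section

variable {k : Type*} [NontriviallyNormedField k] [CharZero k] [IsUltrametricDist k]
  {Ω : Type*} [NormedField Ω]
  [NormedAlgebra k Ω] [IsUltrametricDist Ω] [IsAlgClosed Ω] [Algebra.IsAlgebraic k Ω]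
  {ι : Type*} {a : ι → Fin 3 → ℕ} {e : ι → ℕ}
  {c : k} {C₀ : Coeffs k ι a e} {Z : ι → Finset Ω} {Y : Finset Ω}
    {jj : ι → Ω → Fin 3} {θ : Ω} {S : k[X]} {cS δ Rad η κ : ℝ}
    {U : Set (Coeffs k ι a e)}

/-- linear factors of the discriminant along `ψ` -/
noncomputable def fac (ρ : Ω → Ω) (ψ : Fin 2 → k[X]) (t : Ω) : Polynomial Ω :=
  (ψ 0).map (algebraMap k Ω) - Polynomial.C (ρ t) * (ψ 1).map (algebraMap k Ω)

theorem eval_fac (ρ : Ω → Ω) (ψ : Fin 2 → k[X]) (t s : Ω) :
    (fac ρ ψ t).eval s = aeval s (ψ 0) - ρ t * aeval s (ψ 1) := by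
  simp [fac, eval_map_algebraMap]

theorem Near.det_map_eq {ε : ℝ} {C : Coeffs k ι a e} {ρ : Ω → Ω}
    (h : Near c C₀ Z jj ε C ρ) (l : ι) (ψ : Fin 2 → k[X]) :
    (N c C l ψ).det.map (algebraMap k Ω) = Polynomial.C (algebraMap k Ω (lead c C l)) *
      ∏ t ∈ Z l, fac ρ ψ t := by
  apply Polynomial.funext
  intro s
  rw [eval_map_algebraMap, aeval_det_N, h.det_eq, eval_mul, eval_C, eval_prod]
  simp only [eval_fac]

theorem Ctx.inj (H : Ctx c C₀ Z Y jj θ S cS δ Rad η κ U) {ε : ℝ} {C : Coeffs k ι a e}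
    {ρ : Ω → Ω} (h : Near c C₀ Z jj ε C ρ) (hε : ε ≤ δ) {t t' : Ω} (ht : t ∈ Y) (ht' : t' ∈ Y)
    (hne : t ≠ t') : ρ t ≠ ρ t' := by
  intro heq
  have h1 := H.sep t ht t' ht' hne
  obtain ⟨l, hl⟩ := (H.mem_Y t).mp ht
  obtain ⟨l', hl'⟩ := (H.mem_Y t').mp ht'
  have e1 : t - t' = (ρ t' - t') - (ρ t - t) := by rw [heq]; ring
  have h2 := norm_sub_le_max' (ρ t' - t') (ρ t - t)
  rw [← e1] at h2
  have h3 := max_lt (h.close l' t' hl') (h.close l t hl)
  linarith

theorem Tm_ne {F : Type*} [Field F] [Algebra k F] {S A : k[X]} {x : Fin 2 → F} (hx : x ≠ 0)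
    (hS : hom S.natDegree S x ≠ 0) : Tm S A x ≠ 0 := by
  intro h0
  have e1 : x 1 * hom S.natDegree S x = 0 := congrFun h0 1
  have hx1 : x 1 = 0 := (mul_eq_zero.mp e1).resolve_right hS
  have e0 : x 0 * hom S.natDegree S x + x 1 * hom S.natDegree A x = 0 := congrFun h0 0
  rw [hx1, zero_mul, add_zero] at e0
  have hx0 : x 0 = 0 := (mul_eq_zero.mp e0).resolve_right hS
  apply hx
  funext i
  fin_cases i
  · simpa using hx0
  · simpa using hx1

theorem Ctx.transfer_coprime (hiso : ∀ (σ : Ω ≃ₐ[k] Ω) (x : Ω), ‖σ x‖ = ‖x‖)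
    (H : Ctx c C₀ Z Y jj θ S cS δ Rad η κ U)
    {ε : ℝ} (hε : ε ≤ δ) {C₁ C₂ : Coeffs k ι a e} {ρ₁ ρ₂ : Ω → Ω}
    (h₁ : Near c C₀ Z jj ε C₁ ρ₁) (h₂ : Near c C₀ Z jj ε C₂ ρ₂) (hC₁ : C₁ ∈ U) (hC₂ : C₂ ∈ U)
    {A : k[X]} (hA : Adm S A (κ * cS) Y ρ₁ ρ₂) {Φ : Fin 2 → k[X]}
    (hΦ : IsCoprime (Φ 0) (Φ 1)) (hI : ∀ l, Iso (N c C₁ l Φ)) (l : ι) :
    Iso (N c C₂ l (Tm S A Φ)) := by
  classical
  have h41 : ‖(4 : Ω)‖ ≤ 1 := norm_four_le
  have hκ1 : κ < 1 := lt_of_lt_of_le H.κ_four h41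
  have hx : ∀ s : k, (fun i => (Φ i).eval s) ≠ 0 := by
    intro s
    have := eval_ne_of_coprime (R := k) hΦ s
    simpa using this
  have hT : ∀ s : k, (fun i => (Tm S A Φ i).eval s) = Tm S A (fun i => (Φ i).eval s) := by
    intro s
    have := Tm_map (aeval s : k[X] →ₐ[k] k) S A Φ
    simpa using this
  have hTne : Tm S A Φ ≠ 0 := by
    intro h0
    have h1 := hT 0
    have h2 := Tm_ne (k := k) (A := A) (hx 0) (H.S_ne (hx 0))
    apply h2
    rw [← h1, h0]
    funext i; simp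
  obtain ⟨h, ψ, hh, hψ, hcop⟩ := exists_coprime_factor (Tm S A Φ) hTne
  rw [hψ, iso_smul c C₂ l hh]
  by_cases hD : (N c C₂ l ψ).det = 0
  · exact iso_of_det_eq_zero _ hD
  apply tf (Ω := Ω) _ (N_isSymm c C₂ l ψ) hD
  · intro s _
    rw [ev_N]
    exact h₂.adj_ne l (eval_ne_of_coprime hcop s)
  · intro s hodd
    have hDs : aeval s (N c C₂ l ψ).det = 0 := by
      apply aeval_eq_zero_of_mult
      intro h0; rw [h0] at hodd; simp at hodd
    rw [aeval_det_N] at hDs
    rw [ev_N]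
    set y : Fin 2 → Ω := fun i => aeval s (ψ i) with hy
    have hy0 : y ≠ 0 := eval_ne_of_coprime hcop s
    have hys : ∀ i, y i ∈ k⟮s⟯ := fun i => aeval_mem s _
    by_cases hθ : θ ∈ k⟮s⟯
    · exact h₂.sq_of_theta hiso H.sq hθ hy0 hys hDs
    set x : Fin 2 → Ω := fun i => aeval s (Φ i) with hxdef
    have hx0 : x ≠ 0 := eval_ne_of_coprime hΦ s
    have hxs : ∀ i, x i ∈ k⟮s⟯ := fun i => aeval_mem s _
    have hxn : 0 < ‖x‖ := norm_pos_iff.mpr hx0
    have hSb := H.S_bound hθ hxs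
    have hcS := H.cS_pos
    have hpos : 0 < cS * ‖x‖ ^ S.natDegree := by positivity
    have hSx : hom S.natDegree S x ≠ 0 := by
      intro h0
      rw [h0, norm_zero] at hSb
      linarith
    -- the node with odd multiplicity
    have hdet2 := h₂.det_map_eq l ψ
    have hlead2 : Polynomial.C (algebraMap k Ω (lead c C₂ l)) ≠ 0 := by
      rw [Ne, Polynomial.C_eq_zero]
      exact (_root_.map_ne_zero _).mpr (h₂.lead_ne l)
    have hfac2 : ∀ t ∈ Z l, fac ρ₂ ψ t ≠ 0 := by
      have h1 : (N c C₂ l ψ).det.map (algebraMap k Ω) ≠ 0 :=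
        (Polynomial.map_ne_zero_iff (algebraMap k Ω).injective).mpr hD
      rw [hdet2] at h1
      exact Finset.prod_ne_zero_iff.mp (right_ne_zero_of_mul h1)
    have hsum2 : mult s (N c C₂ l ψ).det = ∑ t ∈ Z l, rootMultiplicity s (fac ρ₂ ψ t) := by
      rw [mult, hdet2, rootMultiplicity_mul (mul_ne_zero hlead2
        (Finset.prod_ne_zero_iff.mpr hfac2)), rm_prod s _ _ hfac2, rootMultiplicity_C, zero_add]
    obtain ⟨t, ht, htodd⟩ : ∃ t ∈ Z l, Odd (rootMultiplicity s (fac ρ₂ ψ t)) := by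
      by_contra hcon
      push Not at hcon
      have : Even (mult s (N c C₂ l ψ).det) := by
        rw [hsum2]
        apply Finset.even_sum
        intro t ht
        exact Nat.not_odd_iff_even.mp (hcon t ht)
      exact (Nat.not_odd_iff_even.mpr this) hodd
    have htY : t ∈ Y := (H.mem_Y t).mpr ⟨l, ht⟩
    obtain ⟨B, hB1, hB2, hB3⟩ := hA.node t htY
    -- the identity in `Ω[X]`
    let xR : Fin 2 → Polynomial Ω := fun i => (Φ i).map (algebraMap k Ω)
    have hTR : Tm S A xR = fun i => (Tm S A Φ i).map (algebraMap k Ω) := by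
      have := Tm_map (Polynomial.mapAlgHom (Algebra.ofId k Ω)) S A Φ
      exact this.symm
    have hid := Tm_node (R := Polynomial Ω) hB1 hB3 xR
    set Λ : Polynomial Ω := hom S.natDegree S xR + xR 1 * hom (S.natDegree - 1) B xR with hΛ
    have hid2 : h.map (algebraMap k Ω) * fac ρ₂ ψ t = fac ρ₁ Φ t * Λ := by
      have e1 : Tm S A xR 0 = h.map (algebraMap k Ω) * (ψ 0).map (algebraMap k Ω) := by
        rw [hTR, hψ]; simp
      have e2 : Tm S A xR 1 = h.map (algebraMap k Ω) * (ψ 1).map (algebraMap k Ω) := by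
        rw [hTR, hψ]; simp
      rw [e1, e2] at hid
      simp only [fac]
      rw [← Polynomial.algebraMap_eq (R := Ω)]
      simp only [xR] at hid
      linear_combination hid
    -- evaluate `Λ` at `s`
    have hxR : ∀ i, (xR i).eval s = x i := by
      intro i; simp [xR, hxdef, eval_map_algebraMap]
    have hΛs : Λ.eval s = hom S.natDegree S x + x 1 * hom (S.natDegree - 1) B x := by
      have e1 : (hom S.natDegree S xR).eval s = hom S.natDegree S x := by
        have h1 := hom_map ((aeval s : Polynomial Ω →ₐ[Ω] Ω).restrictScalars k) S.natDegree S xR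
        have h2 : (fun i => ((aeval s : Polynomial Ω →ₐ[Ω] Ω).restrictScalars k) (xR i)) = x := by
          funext i
          rw [← hxR i]
          simp
        rw [h2] at h1
        rw [← h1]
        simp
      have e2 : (hom (S.natDegree - 1) B xR).eval s = hom (S.natDegree - 1) B x := by
        have h1 := hom_map (aeval s : Polynomial Ω →ₐ[Ω] Ω) (S.natDegree - 1) B xR
        have h2 : (fun i => (aeval s : Polynomial Ω →ₐ[Ω] Ω) (xR i)) = x := by
          funext i
          rw [← hxR i]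
          simp
        rw [h2] at h1
        rw [← h1]
        simp
      rw [hΛ, eval_add, eval_mul, e1, e2, hxR]
    have hΛ0 : Λ.eval s ≠ 0 := by
      rw [hΛs]
      have hlt : ‖x 1 * hom (S.natDegree - 1) B x‖ < ‖hom S.natDegree S x‖ := by
        rw [norm_mul]
        have h1 : ‖x 1‖ ≤ ‖x‖ := norm_le_pi_norm x 1
        have h2 : ‖hom (S.natDegree - 1) B x‖ ≤ κ * cS * ‖x‖ ^ (S.natDegree - 1) :=
          norm_hom_le _ _ hB2 x
        have h3 : ‖x‖ * ‖x‖ ^ (S.natDegree - 1) = ‖x‖ ^ S.natDegree := by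
          rw [← pow_succ']
          congr 1
          have := H.deg_pos; omega
        calc ‖x 1‖ * ‖hom (S.natDegree - 1) B x‖
            ≤ ‖x‖ * (κ * cS * ‖x‖ ^ (S.natDegree - 1)) := by gcongr
          _ = κ * (cS * (‖x‖ * ‖x‖ ^ (S.natDegree - 1))) := by ring
          _ = κ * (cS * ‖x‖ ^ S.natDegree) := by rw [h3]
          _ < 1 * (cS * ‖x‖ ^ S.natDegree) := by gcongr
          _ ≤ ‖hom S.natDegree S x‖ := by rw [one_mul]; exact hSb
      intro h0
      have := norm_add_eq_of_lt hlt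
      rw [h0, norm_zero] at this
      exact hSx (norm_eq_zero.mp this.symm)
    have hh0 : (h.map (algebraMap k Ω)).eval s ≠ 0 := by
      rw [eval_map_algebraMap]
      intro h0
      apply Tm_ne (k := k) (A := A) hx0 hSx
      have := Tm_map (aeval s : k[X] →ₐ[k] Ω) S A Φ
      rw [hψ] at this
      rw [← hxdef] at this
      rw [← this]
      funext i
      simp [h0]
    have hfne : fac ρ₂ ψ t ≠ 0 := hfac2 t ht
    have hhne : h.map (algebraMap k Ω) ≠ 0 :=
      (Polynomial.map_ne_zero_iff (algebraMap k Ω).injective).mpr hh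
    have hrm : rootMultiplicity s (fac ρ₂ ψ t) = rootMultiplicity s (fac ρ₁ Φ t) := by
      have hp1 : h.map (algebraMap k Ω) * fac ρ₂ ψ t ≠ 0 := mul_ne_zero hhne hfne
      have hp2 : fac ρ₁ Φ t * Λ ≠ 0 := by rw [← hid2]; exact hp1
      have e1 := congrArg (rootMultiplicity s) hid2
      rw [rootMultiplicity_mul hp1, rootMultiplicity_mul hp2,
        rootMultiplicity_eq_zero hh0, rootMultiplicity_eq_zero hΛ0] at e1
      omega
    have htodd1 : Odd (rootMultiplicity s (fac ρ₁ Φ t)) := by rw [← hrm]; exact htodd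
    -- values at `s`
    have hroot_of_odd : ∀ P : Polynomial Ω, Odd (rootMultiplicity s P) → P.eval s = 0 ∧ P ≠ 0 := by
      intro P hP
      constructor
      · by_contra h0
        rw [rootMultiplicity_eq_zero h0] at hP
        simp at hP
      · rintro rfl
        simp at hP
    have hxroot : x 0 = ρ₁ t * x 1 := by
      have := (hroot_of_odd _ htodd1).1
      rw [eval_fac] at this
      exact sub_eq_zero.mp this
    have hyroot : y 0 = ρ₂ t * y 1 := by
      have := (hroot_of_odd _ htodd).1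
      rw [eval_fac] at this
      exact sub_eq_zero.mp this
    have hx1 : x 1 ≠ 0 := ne_of_root hx0 hxroot
    have hy1 : y 1 ≠ 0 := ne_of_root hy0 hyroot
    -- the discriminant along `Φ`
    have hfac1 : ∀ t' ∈ Z l, t' ≠ t → (fac ρ₁ Φ t').eval s ≠ 0 := by
      intro t' ht' hne
      rw [eval_fac]
      have e1 : aeval s (Φ 0) - ρ₁ t' * aeval s (Φ 1) = (ρ₁ t - ρ₁ t') * x 1 := by
        have : aeval s (Φ 0) = ρ₁ t * x 1 := hxroot
        rw [this]
        simp only [hxdef]; ring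
      rw [e1]
      apply mul_ne_zero _ hx1
      rw [sub_ne_zero]
      exact (H.inj h₁ hε ((H.mem_Y t').mpr ⟨l, ht'⟩) htY hne).symm
    have hfac1' : ∀ t' ∈ Z l, fac ρ₁ Φ t' ≠ 0 := by
      intro t' ht'
      by_cases hne : t' = t
      · rw [hne]; exact (hroot_of_odd _ htodd1).2
      · intro h0
        apply hfac1 t' ht' hne
        rw [h0, eval_zero]
    have hlead1 : Polynomial.C (algebraMap k Ω (lead c C₁ l)) ≠ 0 := by
      rw [Ne, Polynomial.C_eq_zero]
      exact (_root_.map_ne_zero _).mpr (h₁.lead_ne l)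
    have hprod1 : ∏ t ∈ Z l, fac ρ₁ Φ t ≠ 0 := Finset.prod_ne_zero_iff.mpr hfac1'
    have hD1 : (N c C₁ l Φ).det ≠ 0 := by
      intro h0
      have := h₁.det_map_eq l Φ
      rw [h0, Polynomial.map_zero] at this
      exact mul_ne_zero hlead1 hprod1 this.symm
    have hmult1 : mult s (N c C₁ l Φ).det = rootMultiplicity s (fac ρ₁ Φ t) := by
      rw [mult, h₁.det_map_eq l Φ, rootMultiplicity_mul (mul_ne_zero hlead1 hprod1),
        rm_prod s _ _ hfac1', rootMultiplicity_C, zero_add]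
      rw [Finset.sum_eq_single t]
      · intro t' ht' hne
        exact rootMultiplicity_eq_zero (hfac1 t' ht' hne)
      · intro h0; exact absurd ht h0
    have hsq1 := tf' (Ω := Ω) _ (N_isSymm c C₁ l Φ) hD1 (fun s' _ => by
      rw [ev_N]; exact h₁.adj_ne l (eval_ne_of_coprime hΦ s')) (hI l) s
      (by rw [hmult1]; exact htodd1) (jj l t)
    rw [ev_N, ← hxdef, eq_smul_of_root hxroot, sqIn_adj_smul_iff hx1 (hxs 1)] at hsq1
    refine ⟨jj l t, h₂.adj_root_ne' ht hy0 hyroot, ?_⟩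
    rw [eq_smul_of_root hyroot, sqIn_adj_smul_iff hy1 (hys 1)]
    refine hsq1.of_NO hiso ?_ ?_
    · apply neg_mem
      apply adj_mem
      have hρ : ρ₂ t ∈ k⟮s⟯ := by
        have : ρ₂ t = y 0 / y 1 := by rw [hyroot]; field_simp
        rw [this]
        exact div_mem (hys 0) (hys 1)
      intro i
      fin_cases i
      · simpa using hρ
      · simp
    · rw [neg_div_neg_eq]
      have h3 := (h₂.adj l t ht).div (h₁.adj l t ht)
      have h4 : (N c C₀ l ![t, 1]).adjugate (jj l t) (jj l t) ≠ 0 := by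
        intro h0
        have := (h₁.adj l t ht).ne_zero
        rw [h0, div_zero] at this
        exact this rfl
      have h5 : (N c C₂ l ![ρ₂ t, 1]).adjugate (jj l t) (jj l t) /
          (N c C₀ l ![t, 1]).adjugate (jj l t) (jj l t) /
          ((N c C₁ l ![ρ₁ t, 1]).adjugate (jj l t) (jj l t) /
          (N c C₀ l ![t, 1]).adjugate (jj l t) (jj l t)) =
          (N c C₂ l ![ρ₂ t, 1]).adjugate (jj l t) (jj l t) /
          (N c C₁ l ![ρ₁ t, 1]).adjugate (jj l t) (jj l t) := by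
        have h6 := h₁.adj_root_ne ht
        field_simp
      rw [h5] at h3
      exact h3
  · -- rational specialisations
    have hfin : {s : k | h.eval s = 0}.Finite := by
      refine (h.rootSet_finite k).subset ?_
      intro s hs
      rw [mem_rootSet]
      exact ⟨hh, by simpa using hs⟩
    refine hfin.infinite_compl.mono ?_
    intro s hs
    have hs' : h.eval s ≠ 0 := hs
    show Iso ((N c C₂ l ψ).map (eval s))
    rw [N_eval]
    have h1 : Iso (N c C₁ l (fun i => (Φ i).eval s)) := by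
      rw [← N_eval]; exact iso_eval s (hI l)
    obtain ⟨y, hy1, hy2⟩ := H.rel hA (hx s)
    have h2 : Iso (N c C₂ l y) :=
      H.iso_rel hiso h₁ h₂ hC₁ hC₂ (hx s) hy1 H.κ_η H.κ_four h1
    rw [← iso_smul c C₂ l (H.S_ne (hx s)), ← hy2, ← hT s, hψ] at h2
    have e1 : (fun i => ((fun i => h * ψ i) i).eval s) = fun i => h.eval s * (ψ i).eval s := by
      funext i; simp
    rw [e1, iso_smul c C₂ l hs'] at h2
    exact h2

/-- Transfer of links. -/
theorem Ctx.transfer (hiso : ∀ (σ : Ω ≃ₐ[k] Ω) (x : Ω), ‖σ x‖ = ‖x‖)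
    (H : Ctx c C₀ Z Y jj θ S cS δ Rad η κ U)
    {ε : ℝ} (hε : ε ≤ δ) {C₁ C₂ : Coeffs k ι a e} {ρ₁ ρ₂ : Ω → Ω}
    (h₁ : Near c C₀ Z jj ε C₁ ρ₁) (h₂ : Near c C₀ Z jj ε C₂ ρ₂) (hC₁ : C₁ ∈ U) (hC₂ : C₂ ∈ U)
    {A : k[X]} (hA : Adm S A (κ * cS) Y ρ₁ ρ₂) {x x' : Fin 2 → k} (hx : x ≠ 0)
    (hL : BL c C₁ x x') : BL c C₂ (Tm S A x) (Tm S A x') := by
  obtain ⟨Φ, s, s', r, r', hr, hr', h1, h2, h3⟩ := hL
  have hΦ0 : Φ ≠ 0 := by
    rintro rfl
    apply hx
    funext i
    have := h1 i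
    simp only [Pi.zero_apply, eval_zero] at this
    exact (mul_eq_zero.mp this.symm).resolve_left hr
  obtain ⟨h, ψ, hh, hψ, hcop⟩ := exists_coprime_factor Φ hΦ0
  have hI : ∀ l, Iso (N c C₁ l ψ) := by
    intro l
    have := h3 l
    rw [hψ] at this
    exact (iso_smul c C₁ l hh ψ).mp this
  have hT : ∀ s : k, (fun i => (Tm S A ψ i).eval s) = Tm S A (fun i => (ψ i).eval s) := by
    intro s
    have := Tm_map (aeval s : k[X] →ₐ[k] k) S A ψ
    simpa using this
  -- work with `h ψ` to avoid dividing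
  refine ⟨fun i => h ^ (S.natDegree + 1) * Tm S A ψ i, s, s', r ^ (S.natDegree + 1),
    r' ^ (S.natDegree + 1), pow_ne_zero _ hr, pow_ne_zero _ hr', ?_, ?_, ?_⟩
  · intro i
    have e1 : (fun i => h.eval s * (ψ i).eval s) = fun i => r * x i := by
      funext i; rw [← h1 i, hψ]; simp
    have e2 := Tm_smul S A (h.eval s) (fun i => (ψ i).eval s)
    rw [e1, Tm_smul, ← hT] at e2
    have := congrFun e2 i
    simp only at this
    rw [this, eval_mul, eval_pow]
  · intro i
    have e1 : (fun i => h.eval s' * (ψ i).eval s') = fun i => r' * x' i := by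
      funext i; rw [← h2 i, hψ]; simp
    have e2 := Tm_smul S A (h.eval s') (fun i => (ψ i).eval s')
    rw [e1, Tm_smul, ← hT] at e2
    have := congrFun e2 i
    simp only at this
    rw [this, eval_mul, eval_pow]
  · intro l
    rw [iso_smul c C₂ l (pow_ne_zero _ hh)]
    exact H.transfer_coprime hiso hε h₁ h₂ hC₁ hC₂ hA hcop hI l

end

end Run7.h334
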