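import Pool.Agent.Run7.h334.Roots

/-!
# Uniformity near the rational points of the base
-/

namespace Run7.h334

open Polynomial Matrix IntermediateField Filter Topology

section Basis

variable {k : Type*} [Field k]

theorem complete_basis (M : Matrix (Fin 3) (Fin 3) k) (hM : M.IsSymm) (v w : Fin 3 → k)
    (hv1 : v 0 = 1) (hw : w ⬝ᵥ minForm M v *ᵥ w ≠ 0) :
    ∃ g : Matrix (Fin 3) (Fin 3) k, g.det ≠ 0 ∧ (gᵀ * M * g) 0 0 = v ⬝ᵥ M *ᵥ v ∧
      min2 (gᵀ * M * g) = w ⬝ᵥ minForm M v *ᵥ w := by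
  have h10 : M 1 0 = M 0 1 := hM.apply 0 1
  have h20 : M 2 0 = M 0 2 := hM.apply 0 2
  have h21 : M 2 1 = M 1 2 := hM.apply 1 2
  have hlin : ∃ y : Fin 3 → k, (Matrix.of ![v, w, y]).det ≠ 0 := by
    by_contra hcon
    push Not at hcon
    have e0 := hcon ![1, 0, 0]
    have e1 := hcon ![0, 1, 0]
    have e2 := hcon ![0, 0, 1]
    simp only [det_fin_three, Matrix.of_apply, Matrix.cons_val_zero, Matrix.cons_val_one,
      Matrix.cons_val] at e0 e1 e2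
    have hw1 : w 1 = w 0 * v 1 := by
      rw [hv1] at e2; linear_combination e2
    have hw2 : w 2 = w 0 * v 2 := by
      rw [hv1] at e1; linear_combination -e1
    apply hw
    simp only [minForm, dotProduct, mulVec, Fin.sum_univ_three, h10, h20, h21]
    rw [hw1, hw2, hv1]
    ring
  obtain ⟨y, hy⟩ := hlin
  refine ⟨(Matrix.of ![v, w, y])ᵀ, ?_, ?_, ?_⟩
  · rw [Matrix.det_transpose]; exact hy
  · simp only [Matrix.mul_apply, Matrix.transpose_apply, Matrix.of_apply,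
      Fin.sum_univ_three, dotProduct, mulVec, Matrix.cons_val_zero]
    ring
  · simp only [min2, Matrix.mul_apply, Matrix.transpose_apply,
      Matrix.of_apply, Fin.sum_univ_three, dotProduct, mulVec, Matrix.cons_val_zero,
      Matrix.cons_val_one, minForm, h10, h20, h21]
    ring

theorem exists_basis_const [CharZero k] (M : Matrix (Fin 3) (Fin 3) k) (hM : M.IsSymm)
    (hadj : M.adjugate ≠ 0) : ∃ g : Matrix (Fin 3) (Fin 3) k, g.det ≠ 0 ∧
      (gᵀ * M * g) 0 0 ≠ 0 ∧ min2 (gᵀ * M * g) ≠ 0 := by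
  have hM0 : M ≠ 0 := by
    rintro rfl; exact hadj (Matrix.adjugate_zero)
  obtain ⟨v, hv1, hv⟩ := gen_vec (k := k) (Ω := k) {0} (fun _ => M) (fun _ _ => hM)
    (fun _ _ => hM0)
  have hv' := hv 0 (by simp)
  simp only [Algebra.algebraMap_self, RingHom.id_apply] at hv'
  obtain ⟨w, -, hw⟩ := gen_vec (k := k) (Ω := k) {0} (fun _ => minForm M v)
    (fun _ _ => minForm_isSymm M hM v) (fun _ _ => minForm_ne_zero_of_adj M v hv' hadj)
  have hw' := hw 0 (by simp)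
  simp only [Algebra.algebraMap_self, RingHom.id_apply] at hw'
  obtain ⟨g, h1, h2, h3⟩ := complete_basis M hM v w hv1 hw'
  exact ⟨g, h1, by rw [h2]; exact hv', by rw [h3]; exact hw'⟩

end Basis

section Close

variable {F : Type*} [NormedField F] [IsUltrametricDist F]

theorem close_trans {a b r : F} (h1 : ‖a - r‖ < ‖(4 : F)‖ * ‖r‖)
    (h2 : ‖b - r‖ < ‖(4 : F)‖ * ‖r‖) : b ≠ 0 ∧ ‖a - b‖ < ‖(4 : F)‖ * ‖b‖ := by
  have hy : 0 < ‖r‖ := by
    by_contra h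
    have h0 : ‖r‖ = 0 := le_antisymm (not_lt.mp h) (norm_nonneg r)
    rw [h0, mul_zero] at h1
    exact absurd h1 (not_lt.mpr (norm_nonneg _))
  have e2 : ‖b‖ = ‖r‖ := by
    have h3 : ‖b - r‖ < ‖r‖ := by
      refine lt_of_lt_of_le h2 ?_
      have := norm_four_le (F := F)
      nlinarith
    have := norm_add_eq_of_lt h3
    simpa using this
  refine ⟨?_, ?_⟩
  · intro h0
    rw [h0, norm_zero] at e2
    exact hy.ne e2
  · rw [e2]
    have e : a - b = (a - r) - (b - r) := by ring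
    rw [e]
    exact lt_of_le_of_lt (norm_sub_le_max' _ _) (max_lt h1 h2)

end Close

section Unif

variable {k : Type*} [NontriviallyNormedField k] [CharZero k] [IsUltrametricDist k]
  {ι : Type*} {a : ι → Fin 3 → ℕ} {e : ι → ℕ}

/-- uniform nondegeneracy at `x` -/
def UnifAt (c : k) (C₀ : Coeffs k ι a e) (l : ι) (η : ℝ) (U : Set (Coeffs k ι a e))
    (x : Fin 2 → k) : Prop :=
  ∃ g : Matrix (Fin 3) (Fin 3) k, g.det ≠ 0 ∧ (gᵀ * N c C₀ l x * g) 0 0 ≠ 0 ∧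
    min2 (gᵀ * N c C₀ l x * g) ≠ 0 ∧ ∀ C ∈ U, ∀ y : Fin 2 → k, ‖y - x‖ < η →
      ‖(gᵀ * N c C l y * g) 0 0 - (gᵀ * N c C₀ l x * g) 0 0‖ <
        ‖(4 : k)‖ * ‖(gᵀ * N c C₀ l x * g) 0 0‖ ∧
      ‖min2 (gᵀ * N c C l y * g) - min2 (gᵀ * N c C₀ l x * g)‖ <
        ‖(4 : k)‖ * ‖min2 (gᵀ * N c C₀ l x * g)‖

omit [CharZero k] [IsUltrametricDist k] in
theorem UnifAt.mono {c : k} {C₀ : Coeffs k ι a e} {l : ι} {η η' : ℝ}
    {U U' : Set (Coeffs k ι a e)} {x : Fin 2 → k} (h : UnifAt c C₀ l η U x) (hη : η' ≤ η)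
    (hU : U' ⊆ U) : UnifAt c C₀ l η' U' x := by
  obtain ⟨g, h1, h2, h3, h4⟩ := h
  exact ⟨g, h1, h2, h3, fun C hC y hy => h4 C (hU hC) y (lt_of_lt_of_le hy hη)⟩

theorem exists_unif_local (c : k) (C₀ : Coeffs k ι a e) (l : ι) (x₀ : Fin 2 → k)
    (h : (N c C₀ l x₀).adjugate ≠ 0) : ∃ η : ℝ, 0 < η ∧ ∃ U ∈ 𝓝 C₀,
      ∀ x ∈ Metric.ball x₀ η, UnifAt c C₀ l η U x := by
  obtain ⟨g, hg, hq, hm⟩ := exists_basis_const _ (N_isSymm c C₀ l x₀) h
  have h4 : 0 < ‖(4 : k)‖ := by rw [norm_pos_iff]; norm_num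
  have hcont : Continuous fun p : Coeffs k ι a e × (Fin 2 → k) => gᵀ * N c p.1 l p.2 * g :=
    (continuous_const.matrix_mul (cont_N (R := k) c l)).matrix_mul continuous_const
  have hentry : ∀ i j, Continuous fun p : Coeffs k ι a e × (Fin 2 → k) =>
      (gᵀ * N c p.1 l p.2 * g) i j := fun i j =>
    (continuous_apply j).comp ((continuous_apply i).comp hcont)
  have hmin : Continuous fun p : Coeffs k ι a e × (Fin 2 → k) =>
      min2 (gᵀ * N c p.1 l p.2 * g) := by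
    unfold min2
    exact ((hentry 0 0).mul (hentry 1 1)).sub ((hentry 0 1).pow 2)
  have key : ∀ f : Coeffs k ι a e × (Fin 2 → k) → k, Continuous f → f (C₀, x₀) ≠ 0 →
      ∀ᶠ p in 𝓝 (C₀, x₀), ‖f p - f (C₀, x₀)‖ < ‖(4 : k)‖ * ‖f (C₀, x₀)‖ := by
    intro f hf h0
    have h1 := ((hf.tendsto (C₀, x₀)).sub_const (f (C₀, x₀))).norm
    rw [sub_self, norm_zero] at h1
    exact h1.eventually (gt_mem_nhds (mul_pos h4 (norm_pos_iff.mpr h0)))
  have hev := (key _ (hentry 0 0) hq).and (key _ hmin hm)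
  rw [nhds_prod_eq] at hev
  obtain ⟨pa, hpa, pb, hpb, hab⟩ := eventually_prod_iff.mp hev
  obtain ⟨η, hη, hball⟩ := Metric.eventually_nhds_iff.mp hpb
  refine ⟨η, hη, {C | pa C}, hpa, ?_⟩
  intro x hx
  have hx' := hab hpa.self_of_nhds (hball hx)
  refine ⟨g, hg, ?_, ?_, ?_⟩
  · exact (close_trans hx'.1 hx'.1).1
  · exact (close_trans hx'.2 hx'.2).1
  · intro C hC y hy
    have hyball : dist y x₀ < η := by
      refine lt_of_le_of_lt (dist_triangle_max y x x₀) (max_lt ?_ hx)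
      rwa [dist_eq_norm]
    have hy' := hab hC (hball hyball)
    exact ⟨(close_trans hy'.1 hx'.1).2, (close_trans hy'.2 hx'.2).2⟩

theorem exists_unif_l [ProperSpace k] (c : k) (C₀ : Coeffs k ι a e) (l : ι)
    (h : ∀ x : Fin 2 → k, x ≠ 0 → (N c C₀ l x).adjugate ≠ 0) :
    ∃ η : ℝ, 0 < η ∧ ∃ U ∈ 𝓝 C₀, ∀ x : Fin 2 → k, ‖x‖ = 1 → UnifAt c C₀ l η U x := by
  have hcomp : IsCompact (Metric.sphere (0 : Fin 2 → k) 1) := isCompact_sphere _ _
  have := hcomp.induction_on (p := fun s => ∃ η : ℝ, 0 < η ∧ ∃ U ∈ 𝓝 C₀, ∀ x ∈ s,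
    UnifAt c C₀ l η U x) ?_ ?_ ?_ ?_
  · obtain ⟨η, hη, U, hU, hall⟩ := this
    exact ⟨η, hη, U, hU, fun x hx => hall x (by simpa using hx)⟩
  · exact ⟨1, one_pos, Set.univ, univ_mem, fun x hx => absurd hx (Set.notMem_empty x)⟩
  · rintro s t hst ⟨η, hη, U, hU, hall⟩
    exact ⟨η, hη, U, hU, fun x hx => hall x (hst hx)⟩
  · rintro s t ⟨η, hη, U, hU, hall⟩ ⟨η', hη', U', hU', hall'⟩
    refine ⟨min η η', lt_min hη hη', U ∩ U', inter_mem hU hU', ?_⟩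
    rintro x (hx | hx)
    · exact (hall x hx).mono (min_le_left _ _) Set.inter_subset_left
    · exact (hall' x hx).mono (min_le_right _ _) Set.inter_subset_right
  · intro x hx
    have hx0 : x ≠ 0 := by
      rintro rfl
      simp at hx
    obtain ⟨η, hη, U, hU, hall⟩ := exists_unif_local c C₀ l x (h x hx0)
    exact ⟨Metric.ball x η, mem_nhdsWithin_of_mem_nhds (Metric.ball_mem_nhds x hη), η, hη, U,
      hU, hall⟩

theorem exists_unif [ProperSpace k] [Fintype ι] (c : k) (C₀ : Coeffs k ι a e)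
    (h : ∀ l, ∀ x : Fin 2 → k, x ≠ 0 → (N c C₀ l x).adjugate ≠ 0) :
    ∃ η : ℝ, 0 < η ∧ ∃ U ∈ 𝓝 C₀, ∀ l, ∀ x : Fin 2 → k, ‖x‖ = 1 → UnifAt c C₀ l η U x := by
  classical
  choose η hη U hU hall using fun l => exists_unif_l c C₀ l (h l)
  let T : Finset ℝ := insert 1 (Finset.univ.image η)
  have hT : T.Nonempty := ⟨1, Finset.mem_insert_self _ _⟩
  refine ⟨T.min' hT, ?_, ⋂ l, U l, iInter_mem.mpr hU, ?_⟩
  · rcases Finset.mem_insert.mp (T.min'_mem hT) with h | h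
    · rw [h]; exact one_pos
    · obtain ⟨l, -, hl⟩ := Finset.mem_image.mp h
      rw [← hl]; exact hη l
  · intro l x hx
    refine (hall l x hx).mono (T.min'_le _ ?_) (Set.iInter_subset U l)
    exact Finset.mem_insert_of_mem (Finset.mem_image.mpr ⟨l, Finset.mem_univ l, rfl⟩)

variable {Ω : Type*} [NormedField Ω] [NormedAlgebra k Ω] [IsUltrametricDist Ω] [IsAlgClosed Ω]
  [Algebra.IsAlgebraic k Ω]

theorem norm_four_eq : ‖(4 : k)‖ = ‖(4 : Ω)‖ := by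
  rw [← norm_algebraMap' Ω (4 : k), map_ofNat]

theorem NO_algebraMap {u : k} (h : ‖u - 1‖ < ‖(4 : k)‖) : NO (algebraMap k Ω u) := by
  rw [NO, ← map_one (algebraMap k Ω), ← map_sub, norm_algebraMap', ← norm_four_eq (k := k)]
  exact h

theorem sq_of_close (hiso : ∀ (σ : Ω ≃ₐ[k] Ω) (x : Ω), ‖σ x‖ = ‖x‖) {y y₁ y₂ : k}
    (h1 : ‖y₁ - y‖ < ‖(4 : k)‖ * ‖y‖) (h2 : ‖y₂ - y‖ < ‖(4 : k)‖ * ‖y‖) :
    ∃ r : k, r ≠ 0 ∧ y₁ = y₂ * r ^ 2 := by
  have hno := NO.of_close h1 h2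
  obtain ⟨r, hr⟩ := sq_of_NO_base (Ω := Ω) hiso (NO_algebraMap hno)
  have h2' := (close_trans h1 h2).1
  refine ⟨r, ?_, ?_⟩
  · rintro rfl
    apply hno.ne_zero
    rw [← hr]; ring
  · rw [hr]; field_simp

/-- Isotropy is preserved by small perturbations which change the discriminant by a factor
close to one. -/
theorem iso_transfer (hiso : ∀ (σ : Ω ≃ₐ[k] Ω) (x : Ω), ‖σ x‖ = ‖x‖)
    {c : k} {C₀ : Coeffs k ι a e} {l : ι} {η : ℝ} (hη : 0 < η) {U : Set (Coeffs k ι a e)}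
    {x y : Fin 2 → k} (hU : UnifAt c C₀ l η U x) {C₁ C₂ : Coeffs k ι a e} (hC₁ : C₁ ∈ U)
    (hC₂ : C₂ ∈ U) (hxy : ‖y - x‖ < η) {u : Ω} (hu : NO u)
    (hdet : algebraMap k Ω (N c C₂ l y).det = algebraMap k Ω (N c C₁ l x).det * u)
    (hI : Iso (N c C₁ l x)) : Iso (N c C₂ l y) := by
  by_cases hD2 : (N c C₂ l y).det = 0
  · exact iso_of_det_eq_zero _ hD2
  have hD1 : (N c C₁ l x).det ≠ 0 := by
    intro h0
    rw [h0, map_zero, zero_mul] at hdet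
    exact hD2 ((map_eq_zero _).mp hdet)
  obtain ⟨g, hg, hq, hm, hall⟩ := hU
  obtain ⟨hq1, hm1⟩ := hall C₁ hC₁ x (by simpa using hη)
  obtain ⟨hq2, hm2⟩ := hall C₂ hC₂ y hxy
  obtain ⟨r, hr0, hr⟩ := sq_of_close (Ω := Ω) hiso hq1 hq2
  obtain ⟨t, ht0, ht⟩ := sq_of_close (Ω := Ω) hiso hm1 hm2
  -- the discriminants
  obtain ⟨v, hv0, hv⟩ : ∃ v : k, v ≠ 0 ∧ (N c C₂ l y).det = (N c C₁ l x).det * v ^ 2 := by
    have hu2 : u = algebraMap k Ω ((N c C₂ l y).det / (N c C₁ l x).det) := by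
      rw [map_div₀, hdet]
      have : algebraMap k Ω (N c C₁ l x).det ≠ 0 := (_root_.map_ne_zero _).mpr hD1
      field_simp
    rw [hu2] at hu
    obtain ⟨v, hv⟩ := sq_of_NO_base (Ω := Ω) hiso hu
    refine ⟨v, ?_, ?_⟩
    · rintro rfl
      apply hD2
      have : (N c C₂ l y).det / (N c C₁ l x).det = 0 := by rw [← hv]; ring
      rcases div_eq_zero_iff.mp this with h | h
      · exact h
      · exact absurd h hD1
    · rw [hv]; field_simp
  set M₁ := gᵀ * N c C₁ l x * g with hM₁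
  set M₂ := gᵀ * N c C₂ l y * g with hM₂
  have hM₁s : M₁.IsSymm := isSymm_conj _ (N_isSymm c C₁ l x) g
  have hM₂s : M₂.IsSymm := isSymm_conj _ (N_isSymm c C₂ l y) g
  have hd1 : M₁.det = g.det ^ 2 * (N c C₁ l x).det := by
    rw [hM₁, Matrix.det_mul, Matrix.det_mul, Matrix.det_transpose]; ring
  have hd2 : M₂.det = g.det ^ 2 * (N c C₂ l y).det := by
    rw [hM₂, Matrix.det_mul, Matrix.det_mul, Matrix.det_transpose]; ring
  have hM1I : Iso M₁ := iso_conj' _ _ hg hI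
  have hq1' : M₁ 0 0 ≠ 0 := (close_trans hq1 hq1).1
  have hq2' : M₂ 0 0 ≠ 0 := (close_trans hq2 hq2).1
  have hm1' : min2 M₁ ≠ 0 := (close_trans hm1 hm1).1
  have hm2' : min2 M₂ ≠ 0 := (close_trans hm2 hm2).1
  have hd1' : M₁.det ≠ 0 := by rw [hd1]; exact mul_ne_zero (pow_ne_zero _ hg) hD1
  have hd2' : M₂.det ≠ 0 := by rw [hd2]; exact mul_ne_zero (pow_ne_zero _ hg) hD2
  apply iso_conj _ _ hg
  apply iso_of_sol M₂ hM₂s hq2' hm2' hd2'
  obtain ⟨X, Y, Z, h0, h1⟩ := sol_of_iso M₁ hM₁s hq1' hm1' hd1' hM1I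
  -- `m₁ = m₂ t²`, `q₁ D₁ v² = q₂ r² D₂`
  refine ⟨X, t * Y, r * Z / v, ?_, ?_⟩
  · rintro ⟨hX, hY, hZ⟩
    have hZ' : r * Z = 0 := by
      rcases div_eq_zero_iff.mp hZ with h | h
      · exact h
      · exact absurd h hv0
    exact h0 ⟨hX, (mul_eq_zero.mp hY).resolve_left ht0, (mul_eq_zero.mp hZ').resolve_left hr0⟩
  · rw [h1, ht, hr, hd1, hd2, hv]
    field_simp

end Unif

end Run7.h334
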