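import Pool.Agent.Run7.h334.Hom

/-!
# Valued fields: elements near one, Galois descent, Gauss norms
-/

namespace Run7.h334

open Polynomial IntermediateField

section NearOne

variable {F : Type*} [NormedField F] [IsUltrametricDist F]

theorem norm_add_eq_of_lt {x y : F} (h : ‖y‖ < ‖x‖) : ‖x + y‖ = ‖x‖ := by
  rw [IsUltrametricDist.norm_add_eq_max_of_norm_ne_norm h.ne', max_eq_left h.le]

theorem norm_sub_le_max' (x y : F) : ‖x - y‖ ≤ max ‖x‖ ‖y‖ := by
  rw [sub_eq_add_neg]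
  simpa using IsUltrametricDist.norm_add_le_max x (-y)

theorem norm_four_le : ‖(4 : F)‖ ≤ 1 := by
  have := IsUltrametricDist.norm_natCast_le_one F 4
  simpa using this

/-- `u` is close to `1` -/
def NO (u : F) : Prop := ‖u - 1‖ < ‖(4 : F)‖

theorem NO.norm_eq {u : F} (h : NO u) : ‖u‖ = 1 := by
  have h1 : ‖u - 1‖ < ‖(1 : F)‖ := by
    rw [norm_one]; exact lt_of_lt_of_le h norm_four_le
  have := norm_add_eq_of_lt h1
  simpa using this

theorem NO.ne_zero {u : F} (h : NO u) : u ≠ 0 := by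
  intro h0
  have := h.norm_eq
  rw [h0] at this
  simp at this

theorem NO.mul {u v : F} (hu : NO u) (hv : NO v) : NO (u * v) := by
  have e : u * v - 1 = u * (v - 1) + (u - 1) := by ring
  rw [NO, e]
  refine lt_of_le_of_lt (IsUltrametricDist.norm_add_le_max _ _) (max_lt ?_ hu)
  rw [norm_mul, hu.norm_eq, one_mul]
  exact hv

theorem NO.inv {u : F} (hu : NO u) : NO u⁻¹ := by
  have e : u⁻¹ - 1 = -(u⁻¹ * (u - 1)) := by
    have := hu.ne_zero
    field_simp
    ring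
  rw [NO, e, norm_neg, norm_mul, norm_inv, hu.norm_eq, inv_one, one_mul]
  exact hu

theorem NO.div {u v : F} (hu : NO u) (hv : NO v) : NO (u / v) := by
  rw [div_eq_mul_inv]; exact hu.mul hv.inv

theorem NO.one [CharZero F] : NO (1 : F) := by
  rw [NO, sub_self, norm_zero, norm_pos_iff]
  norm_num

theorem NO.prod [CharZero F] {α : Type*} (s : Finset α) (f : α → F) (h : ∀ i ∈ s, NO (f i)) :
    NO (∏ i ∈ s, f i) := by
  classical
  induction s using Finset.induction_on with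
  | empty => simpa using NO.one
  | insert i s hi ih =>
    rw [Finset.prod_insert hi]
    exact (h i (Finset.mem_insert_self i s)).mul
      (ih fun j hj => h j (Finset.mem_insert_of_mem hj))

theorem NO.of_close {y y₁ y₂ : F} (h1 : ‖y₁ - y‖ < ‖(4 : F)‖ * ‖y‖)
    (h2 : ‖y₂ - y‖ < ‖(4 : F)‖ * ‖y‖) : NO (y₁ / y₂) := by
  have hy : 0 < ‖y‖ := by
    by_contra h
    have h0 : ‖y‖ = 0 := le_antisymm (not_lt.mp h) (norm_nonneg y)
    rw [h0, mul_zero] at h1
    exact absurd h1 (not_lt.mpr (norm_nonneg _))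
  have e2 : ‖y₂‖ = ‖y‖ := by
    have h3 : ‖y₂ - y‖ < ‖y‖ := by
      refine lt_of_lt_of_le h2 ?_
      have := norm_four_le (F := F)
      nlinarith
    have := norm_add_eq_of_lt h3
    simpa using this
  have hy2 : y₂ ≠ 0 := by
    intro h0; rw [h0, norm_zero] at e2; exact hy.ne e2
  have e : y₁ / y₂ - 1 = (y₁ - y - (y₂ - y)) / y₂ := by
    field_simp; ring
  rw [NO, e, norm_div, e2, div_lt_iff₀ hy]
  exact lt_of_le_of_lt (norm_sub_le_max' _ _) (max_lt h1 h2)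

end NearOne

section Galois

variable {k : Type*} [NormedField k] [CharZero k] {Ω : Type*} [NormedField Ω]
  [NormedAlgebra k Ω] [IsUltrametricDist Ω] [IsAlgClosed Ω] [Algebra.IsAlgebraic k Ω]

omit [IsUltrametricDist Ω] in
theorem mem_adjoin_iff (s x : Ω) : x ∈ k⟮s⟯ ↔ ∀ σ : Ω ≃ₐ[k] Ω, σ s = s → σ x = x := by
  constructor
  · intro hx σ hσ
    obtain ⟨P, rfl⟩ := exists_aeval_of_mem hx
    rw [← aeval_algHom_apply σ, hσ]
  · intro h
    have : IsAlgClosure k Ω := ⟨inferInstance, inferInstance⟩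
    have : Normal k Ω := IsAlgClosure.normal k Ω
    have : IsGalois k Ω := ⟨⟩
    rw [← InfiniteGalois.fixedField_fixingSubgroup k⟮s⟯]
    rw [IntermediateField.mem_fixedField_iff]
    intro σ hσ
    apply h
    rw [IntermediateField.mem_fixingSubgroup_iff] at hσ
    exact hσ s (mem_adjoin_simple_self k s)

omit [IsUltrametricDist Ω] in
theorem mem_range_iff (x : Ω) : x ∈ Set.range (algebraMap k Ω) ↔ ∀ σ : Ω ≃ₐ[k] Ω, σ x = x := by
  constructor
  · rintro ⟨y, rfl⟩ σ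
    exact σ.commutes y
  · intro h
    have : x ∈ k⟮(0 : Ω)⟯ := (mem_adjoin_iff 0 x).mpr fun σ _ => h σ
    rw [IntermediateField.adjoin_zero, IntermediateField.mem_bot] at this
    exact this

/-- elements near one are squares -/
theorem sqIn_of_NO (hiso : ∀ (σ : Ω ≃ₐ[k] Ω) (x : Ω), ‖σ x‖ = ‖x‖) {s u : Ω} (hu : NO u)
    (hus : u ∈ k⟮s⟯) : SqIn k s u := by
  have : CharZero Ω := charZero_of_injective_algebraMap (algebraMap k Ω).injective
  have h2 : (2 : Ω) ≠ 0 := two_ne_zero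
  have hn2 : 0 < ‖(2 : Ω)‖ := norm_pos_iff.mpr h2
  have hn4 : ‖(4 : Ω)‖ = ‖(2 : Ω)‖ ^ 2 := by
    rw [← norm_pow]; norm_num
  -- a square root close to `1`
  obtain ⟨r, hr, hr1⟩ : ∃ r : Ω, r ^ 2 = u ∧ ‖r - 1‖ < ‖(2 : Ω)‖ := by
    obtain ⟨r, hr⟩ := IsAlgClosed.exists_pow_nat_eq u (n := 2) (by norm_num)
    have hprod : ‖r - 1‖ * ‖r + 1‖ < ‖(2 : Ω)‖ ^ 2 := by
      rw [← norm_mul, ← hn4]
      have e : (r - 1) * (r + 1) = u - 1 := by rw [← hr]; ring
      rw [e]; exact hu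
    rcases lt_or_ge ‖r - 1‖ ‖(2 : Ω)‖ with h | h
    · exact ⟨r, hr, h⟩
    · refine ⟨-r, by rw [neg_sq, hr], ?_⟩
      have e : -r - 1 = -(r + 1) := by ring
      rw [e, norm_neg]
      by_contra hcon
      push Not at hcon
      nlinarith
  refine ⟨r, ?_, hr⟩
  rw [mem_adjoin_iff]
  intro σ hσ
  have hσu : σ u = u := (mem_adjoin_iff s u).mp hus σ hσ
  have h3 : (σ r) ^ 2 = r ^ 2 := by rw [← map_pow, hr, hσu]
  rcases sq_eq_sq_iff_eq_or_eq_neg.mp h3 with h | h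
  · exact h
  · exfalso
    have h4 : ‖σ (r - 1)‖ = ‖r - 1‖ := hiso σ _
    rw [map_sub, map_one, h] at h4
    have h5 : ‖(-r - 1 : Ω)‖ = ‖(2 : Ω)‖ := by
      have e : (-r - 1 : Ω) = -(2 + (r - 1)) := by ring
      rw [e, norm_neg, norm_add_eq_of_lt hr1]
    rw [h5] at h4
    exact absurd h4 hr1.ne'

/-- squares are stable under small perturbation -/
theorem SqIn.of_NO (hiso : ∀ (σ : Ω ≃ₐ[k] Ω) (x : Ω), ‖σ x‖ = ‖x‖) {s y y' : Ω}
    (h : SqIn k s y) (hy' : y' ∈ k⟮s⟯) (hyy : NO (y' / y)) : SqIn k s y' := by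
  obtain ⟨r, hr, hry⟩ := h
  have hy : y ∈ k⟮s⟯ := by rw [← hry]; exact pow_mem hr 2
  obtain ⟨t, ht, hty⟩ := sqIn_of_NO hiso hyy (div_mem hy' hy)
  have hy0 : y ≠ 0 := by
    intro h0
    have := hyy.ne_zero
    rw [h0, div_zero] at this
    exact this rfl
  refine ⟨r * t, mul_mem hr ht, ?_⟩
  rw [mul_pow, hry, hty]
  field_simp

theorem sq_of_NO_base (hiso : ∀ (σ : Ω ≃ₐ[k] Ω) (x : Ω), ‖σ x‖ = ‖x‖) {u : k}
    (hu : NO (algebraMap k Ω u)) : ∃ r : k, r ^ 2 = u := by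
  obtain ⟨r, hr, hru⟩ := sqIn_of_NO (k := k) hiso (s := (0 : Ω)) hu (IntermediateField.algebraMap_mem _ u)
  rw [IntermediateField.adjoin_zero, IntermediateField.mem_bot] at hr
  obtain ⟨t, rfl⟩ := hr
  refine ⟨t, ?_⟩
  rw [← map_pow] at hru
  exact (algebraMap k Ω).injective hru

end Galois

end Run7.h334
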